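import Pool.Agent.H236_QM.BoxSys

/-!
# The boxes in the target
-/

set_option autoImplicit false
set_option linter.unusedSectionVars false

namespace Pool.Agent.H236_QM.G2

open Set Filter Topology

noncomputable section

/-- basic closed sets of the Hilbert cube -/
def IsBCS (B : Set (ℕ → I)) : Prop :=
  ∃ a b : ℕ → ℝ, (∀ i, 0 ≤ a i ∧ a i < b i ∧ b i ≤ 1) ∧ {i | a i ≠ 0 ∨ b i ≠ 1}.Finite ∧
    B = {x | ∀ i, a i ≤ (x i : ℝ) ∧ (x i : ℝ) ≤ b i}

/-- closed balls of the metric `sup |x i - y i| / 2 ^ i` -/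
def cb (y : ℕ → I) (r : ℝ) : Set (ℕ → I) := {z | ∀ i, |(z i : ℝ) - y i| ≤ 2 ^ i * r}

lemma isClosed_cb (y : ℕ → I) (r : ℝ) : IsClosed (cb y r) := by
  have : cb y r = ⋂ i, {z | |(z i : ℝ) - y i| ≤ 2 ^ i * r} := by ext z; simp [cb]
  rw [this]
  exact isClosed_iInter fun i => isClosed_le ((continuous_coord i).sub continuous_const).abs
    continuous_const

lemma exists_trivial {r : ℝ} (hr : 0 < r) : ∃ n : ℕ, 1 ≤ 2 ^ n * r := by
  obtain ⟨n, hn⟩ := pow_unbounded_of_one_lt (1 / r) (show (1:ℝ) < 2 by norm_num)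
  refine ⟨n, ?_⟩
  rw [div_lt_iff₀ hr] at hn
  exact hn.le

section

variable {V : Type} (far : V → V → Prop) (y : V → ℕ → I) (r : V → ℝ)

/-- intersecting balls -/
def RN (u v : V) : Prop := (cb (y u) (r u) ∩ cb (y v) (r v)).Nonempty

/-- lower side of the ball -/
def bl (v : V) (i : ℕ) : ℝ := max 0 ((y v i : ℝ) - 2 ^ i * r v)
/-- upper side of the ball -/
def bh (v : V) (i : ℕ) : ℝ := min 1 ((y v i : ℝ) + 2 ^ i * r v)

variable (e : V → ℕ)

open Classical in
/-- private lower side -/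
def pl (v : V) (i : ℕ) : ℝ := if i = e v then 1/2 else 0

open Classical in
/-- private upper side -/
def ph (v : V) (i : ℕ) : ℝ :=
  if i = e v then 1 else if ∃ w, e w = i ∧ ¬ far v w then 1/2
  else if ∃ w, e w = i ∧ RN y r v w then 1/4 else 1

variable {far y r e}

lemma RN_symm {u v : V} (h : RN y r u v) : RN y r v u := by
  unfold RN at *; rwa [inter_comm]

lemma bl_nonneg (v : V) (i : ℕ) : 0 ≤ bl y r v i := le_max_left _ _
lemma bh_le_one (v : V) (i : ℕ) : bh y r v i ≤ 1 := min_le_left _ _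

lemma bl_lt_bh (hr : ∀ v, 0 < r v) (v : V) (i : ℕ) : bl y r v i < bh y r v i := by
  unfold bl bh
  have h1 := (y v i).2.1
  have h2 := (y v i).2.2
  have h3 : 0 < 2 ^ i * r v := mul_pos (by positivity) (hr v)
  rw [max_lt_iff, lt_min_iff, lt_min_iff]
  refine ⟨⟨one_pos, by linarith⟩, by linarith, by linarith⟩

lemma bl_le_of_mem {v : V} {z : ℕ → I} (hz : z ∈ cb (y v) (r v)) (i : ℕ) : bl y r v i ≤ z i := by
  unfold bl
  have := abs_le.mp (hz i)
  exact max_le (z i).2.1 (by linarith [this.1])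

lemma le_bh_of_mem {v : V} {z : ℕ → I} (hz : z ∈ cb (y v) (r v)) (i : ℕ) : (z i : ℝ) ≤ bh y r v i := by
  unfold bh
  have := abs_le.mp (hz i)
  exact le_min (z i).2.2 (by linarith [this.2])

lemma mem_cb_of {v : V} {z : ℕ → I} (h : ∀ i, bl y r v i ≤ z i ∧ (z i : ℝ) ≤ bh y r v i) :
    z ∈ cb (y v) (r v) := by
  intro i
  have h1 := (le_max_right _ _).trans (h i).1
  have h2 := (h i).2.trans (min_le_right _ _)
  rw [abs_le]
  constructor <;> linarith

lemma bl_trivial {v : V} {n i : ℕ} (hn : 1 ≤ 2 ^ n * r v) (hr : 0 < r v) (h : n ≤ i) :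
    bl y r v i = 0 := by
  unfold bl
  have h1 := (y v i).2.2
  have h2 : (2:ℝ) ^ n * r v ≤ 2 ^ i * r v :=
    mul_le_mul_of_nonneg_right (pow_le_pow_right₀ (by norm_num) h) hr.le
  exact max_eq_left (by linarith)

lemma bh_trivial {v : V} {n i : ℕ} (hn : 1 ≤ 2 ^ n * r v) (hr : 0 < r v) (h : n ≤ i) :
    bh y r v i = 1 := by
  unfold bh
  have h1 := (y v i).2.1
  have h2 : (2:ℝ) ^ n * r v ≤ 2 ^ i * r v :=
    mul_le_mul_of_nonneg_right (pow_le_pow_right₀ (by norm_num) h) hr.le
  exact min_eq_left (by linarith)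

lemma pl_cases (v : V) (i : ℕ) : (i = e v ∧ pl e v i = 1/2) ∨ (i ≠ e v ∧ pl e v i = 0) := by
  unfold pl
  by_cases h : i = e v
  · left; exact ⟨h, if_pos h⟩
  · right; exact ⟨h, if_neg h⟩

lemma ph_cases (hRN : ∀ u v, ¬ far u v → RN y r u v) (v : V) (i : ℕ) :
    ph far y r e v i = 1 ∨ ((∃ w, e w = i ∧ RN y r v w) ∧ i ≠ e v ∧
      (ph far y r e v i = 1/2 ∨ ph far y r e v i = 1/4)) := by
  unfold ph
  by_cases h : i = e v
  · left; rw [if_pos h]
  · rw [if_neg h]
    by_cases h1 : ∃ w, e w = i ∧ ¬ far v w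
    · rw [if_pos h1]
      obtain ⟨w, hw, hf⟩ := h1
      exact Or.inr ⟨⟨w, hw, hRN v w hf⟩, h, Or.inl rfl⟩
    · rw [if_neg h1]
      by_cases h2 : ∃ w, e w = i ∧ RN y r v w
      · rw [if_pos h2]; exact Or.inr ⟨h2, h, Or.inr rfl⟩
      · rw [if_neg h2]; exact Or.inl rfl

lemma ph_near (he : Function.Injective e) {v w : V} (hne : w ≠ v) (hf : ¬ far v w) :
    ph far y r e v (e w) = 1/2 := by
  unfold ph
  rw [if_neg (fun h => hne (he h)), if_pos ⟨w, rfl, hf⟩]

lemma ph_far (he : Function.Injective e) {v w : V} (hne : w ≠ v) (hf : far v w)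
    (hR : RN y r v w) : ph far y r e v (e w) = 1/4 := by
  unfold ph
  rw [if_neg (fun h => hne (he h)), if_neg, if_pos ⟨w, rfl, hR⟩]
  rintro ⟨w', hw', hf'⟩
  rw [he hw'] at hf'
  exact hf' hf

/-- **The boxes.** -/
theorem exists_boxes [Countable V] (hs : ∀ u v, far u v → far v u) (hirr : ∀ v, ¬ far v v)
    (hr : ∀ v, 0 < r v) (hp : ∀ σ, Clq far σ → ∃ p : ℕ → I, ∀ v ∈ σ, p ∈ cb (y v) (r v))
    (hfin : ∀ v, {w | RN y r v w}.Finite) :
    ∃ B : V → Set (ℕ → I), Sys far B ∧ (∀ v, IsBCS (B v)) ∧ ∀ v, B v ⊆ cb (y v) (r v) := by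
  classical
  have hRN : ∀ u v, ¬ far u v → RN y r u v := by
    intro u v h
    obtain ⟨p, hp⟩ := hp {u, v} ⟨⟨u, by simp⟩, by
      intro a ha b hb
      simp only [Finset.mem_insert, Finset.mem_singleton] at ha hb
      rcases ha with rfl | rfl <;> rcases hb with rfl | rfl
      · exact hirr _
      · exact h
      · exact fun h' => h (hs _ _ h')
      · exact hirr _⟩
    exact ⟨p, hp u (by simp), hp v (by simp)⟩
  choose nn hnn using fun v => exists_trivial (hr v)
  have hfin2 : ∀ w, {v | ∃ u, RN y r w u ∧ RN y r u v}.Finite := by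
    intro w
    have : {v | ∃ u, RN y r w u ∧ RN y r u v} = ⋃ u ∈ {u | RN y r w u}, {v | RN y r u v} := by
      ext v; simp
    rw [this]
    exact (hfin w).biUnion fun u _ => hfin u
  obtain ⟨enc, henc⟩ : ∃ enc : V → ℕ, Function.Injective enc :=
    Countable.exists_injective_nat V
  let e : V → ℕ := fun w => Nat.pair (enc w) ((hfin2 w).toFinset.sup nn)
  have he : Function.Injective e := by
    intro a b h
    exact henc (Nat.pair_eq_pair.mp h).1
  have hbig : ∀ w u v, RN y r w u → RN y r u v → nn v ≤ e w := by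
    intro w u v h1 h2
    refine le_trans ?_ (Nat.right_le_pair _ _)
    exact Finset.le_sup ((hfin2 w).mem_toFinset.mpr ⟨u, h1, h2⟩)
  have hself : ∀ v, RN y r v v := fun v => hRN v v (hirr v)
  have hbl : ∀ {w u v i}, e w = i → RN y r w u → RN y r u v → bl y r v i = 0 :=
    fun {w u v i} h h1 h2 => bl_trivial (hnn v) (hr v) (h ▸ hbig w u v h1 h2)
  have hbh : ∀ {w u v i}, e w = i → RN y r w u → RN y r u v → bh y r v i = 1 :=
    fun {w u v i} h h1 h2 => bh_trivial (hnn v) (hr v) (h ▸ hbig w u v h1 h2)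
  let lo : V → ℕ → ℝ := fun v i => max (bl y r v i) (pl e v i)
  let hi : V → ℕ → ℝ := fun v i => min (bh y r v i) (ph far y r e v i)
  have hpl0 : ∀ v i, 0 ≤ pl e v i := fun v i => by
    rcases pl_cases (e := e) v i with h | h <;> rw [h.2]; norm_num
  have hres : ∀ v, {i | lo v i ≠ 0 ∨ hi v i ≠ 1}.Finite := by
    intro v
    refine ((Set.finite_Iio (nn v)).union ((hfin v).image e)).subset ?_
    intro i hi'
    by_contra hcon
    simp only [mem_union, mem_Iio, mem_image, not_or, not_lt, not_exists, not_and] at hcon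
    have h1 : bl y r v i = 0 := bl_trivial (hnn v) (hr v) hcon.1
    have h2 : bh y r v i = 1 := bh_trivial (hnn v) (hr v) hcon.1
    have h3 : pl e v i = 0 := by
      rcases pl_cases (e := e) v i with h | h
      · exact absurd h.1.symm (hcon.2 v (hself v))
      · exact h.2
    have h4 : ph far y r e v i = 1 := by
      rcases ph_cases (e := e) hRN v i with h | ⟨⟨w, hw, hR⟩, -⟩
      · exact h
      · exact absurd hw (hcon.2 w hR)
    rcases hi' with h | h
    · apply h; simp only [lo]; rw [h1, h3]; simp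
    · apply h; simp only [hi]; rw [h2, h4]; simp
  have hlohi : ∀ v i, lo v i < hi v i := by
    intro v i
    simp only [lo, hi]
    rcases pl_cases (e := e) v i with h | h
    · have h1 : bl y r v i = 0 := hbl h.1.symm (hself v) (hself v)
      have h2 : bh y r v i = 1 := hbh h.1.symm (hself v) (hself v)
      have h3 : ph far y r e v i = 1 := by unfold ph; rw [if_pos h.1]
      rw [h1, h2, h3, h.2]; norm_num
    · rw [h.2]
      rcases ph_cases (e := e) hRN v i with h' | ⟨⟨w, hw, hR⟩, -, h'⟩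
      · rw [h', max_eq_left (bl_nonneg v i), min_eq_left (bh_le_one v i)]
        exact bl_lt_bh hr v i
      · have h1 : bl y r v i = 0 := hbl hw (RN_symm hR) (hself v)
        have h2 : bh y r v i = 1 := hbh hw (RN_symm hR) (hself v)
        rw [h1, h2]
        rcases h' with h' | h' <;> rw [h'] <;> norm_num
  have hball : ∀ v x, x ∈ bx (lo v) (hi v) → x ∈ cb (y v) (r v) := by
    intro v x hx
    refine mem_cb_of fun i => ?_
    exact ⟨(le_max_left _ _).trans (hx i).1, (hx i).2.trans (min_le_left _ _)⟩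
  have hdisj : ∀ u v, far u v → ∀ x, x ∈ bx (lo u) (hi u) → x ∉ bx (lo v) (hi v) := by
    intro u v hf x hxu hxv
    have hR : RN y r v u := ⟨x, hball v x hxv, hball u x hxu⟩
    have hne : u ≠ v := fun h => hirr v (h ▸ hf)
    have h1 := (le_max_right _ _).trans (hxu (e u)).1
    have h2 := (hxv (e u)).2.trans (min_le_right _ _)
    rw [ph_far he hne (hs _ _ hf) hR] at h2
    rcases pl_cases (e := e) u (e u) with h | h
    · rw [h.2] at h1; linarith
    · exact h.1 rfl
  refine ⟨fun v => bx (lo v) (hi v), box_sys (fun v i => ?_) (fun v i => ?_) hres hdisj ?_ ?_,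
    fun v => ⟨lo v, hi v, fun i => ⟨?_, hlohi v i, ?_⟩, hres v, rfl⟩, fun v x hx => hball v x hx⟩
  · exact (bl_nonneg v i).trans (le_max_left _ _)
  · exact (min_le_left _ _).trans (bh_le_one v i)
  · intro σ hσ i u hu v hv
    obtain ⟨p, hpσ⟩ := hp σ hσ
    have hRuv : RN y r u v := ⟨p, hpσ u hu, hpσ v hv⟩
    refine max_le (le_min ?_ ?_) (le_min ?_ ?_)
    · exact (bl_le_of_mem (hpσ u hu) i).trans (le_bh_of_mem (hpσ v hv) i)
    · rcases ph_cases (e := e) hRN v i with h' | ⟨⟨w, hw, hR⟩, -, h'⟩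
      · rw [h']
        exact (bl_le_of_mem (hpσ u hu) i).trans (p i).2.2
      · rw [hbl hw (RN_symm hR) (RN_symm hRuv)]
        rcases h' with h' | h' <;> rw [h'] <;> norm_num
    · rcases pl_cases (e := e) u i with h | h
      · rw [hbh h.1.symm (hself u) hRuv, h.2]; norm_num
      · rw [h.2]
        exact (bl_nonneg v i).trans (bl_lt_bh hr v i).le
    · rcases pl_cases (e := e) u i with h | h
      · rw [h.2]
        by_cases huv : u = v
        · subst huv
          unfold ph; rw [if_pos h.1]; norm_num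
        · rw [h.1, ph_near he huv (hσ.2 v hv u hu)]
      · rw [h.2]
        rcases ph_cases (e := e) hRN v i with h' | ⟨-, -, h' | h'⟩ <;> rw [h'] <;> norm_num
  · intro σ hσ w hw x hx hxw
    have hnear : ∀ v ∈ σ, ¬ far v w := fun v hv hf => hdisj v w hf x (hx v hv) hxw
    have hhi : ∀ v ∈ σ, hi v (e w) = 1/2 := by
      intro v hv
      have hne : w ≠ v := fun h => hw (h ▸ hv)
      simp only [hi]
      rw [ph_near he hne (hnear v hv), hbh rfl (RN_symm (hRN v w (hnear v hv))) (hself v)]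
      norm_num
    have hlo : ∀ v ∈ σ, lo v (e w) = 0 := by
      intro v hv
      have hne : w ≠ v := fun h => hw (h ▸ hv)
      simp only [lo]
      rw [hbl rfl (RN_symm (hRN v w (hnear v hv))) (hself v)]
      rcases pl_cases (e := e) v (e w) with h | h
      · exact absurd (he h.1) hne
      · rw [h.2]; simp
    obtain ⟨v, hv⟩ := hσ.1
    refine ⟨e w, ⟨v, hv, Or.inr ?_⟩, ?_, Or.inr ⟨v, hv, ?_⟩⟩
    · rw [hhi v hv]; norm_num
    · intro u hu v hv
      rw [hlo u hu, hhi v hv]; norm_num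
    · rw [hhi v hv]
      have h1 := (hx v hv (e w)).2
      rw [hhi v hv] at h1
      have h2 := (le_max_right _ _).trans (hxw (e w)).1
      rcases pl_cases (e := e) w (e w) with h | h
      · rw [h.2] at h2; exact le_antisymm h1 h2
      · exact absurd rfl h.1
  · exact (bl_nonneg v i).trans (le_max_left _ _)
  · exact (min_le_left _ _).trans (bh_le_one v i)

end

end

end Pool.Agent.H236_QM.G2
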