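import Pool.Agent.H236_QM.Glue

/-!
# The boxes
-/

set_option autoImplicit false

namespace Pool.Agent.H236_QM

open Set Filter Topology

noncomputable section

/-- the box with the given sides -/
def bx (a b : ℕ → ℝ) : Set (ℕ → I) := {x | ∀ i, a i ≤ (x i : ℝ) ∧ (x i : ℝ) ≤ b i}

lemma continuous_coord (i : ℕ) : Continuous fun x : ℕ → I => (x i : ℝ) :=
  continuous_subtype_val.comp (continuous_apply i)

lemma isClosed_bx (a b : ℕ → ℝ) : IsClosed (bx a b) := by
  have : bx a b = ⋂ i, {x | a i ≤ (x i : ℝ)} ∩ {x | (x i : ℝ) ≤ b i} := by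
    ext x; simp [bx]
  rw [this]
  exact isClosed_iInter fun i => (isClosed_le continuous_const (continuous_coord i)).inter
    (isClosed_le (continuous_coord i) continuous_const)

/-- a box with infinitely many nondegenerate sides is a Hilbert cube, by a homeomorphism taking
each top face to a face -/
lemma exists_bx_homeo {a b : ℕ → ℝ} (ha : ∀ i, 0 ≤ a i) (hab : ∀ i, a i ≤ b i)
    (hb : ∀ i, b i ≤ 1) (hfin : {i | a i = b i}.Finite) :
    ∃ φ : bx a b ≃ₜ (ℕ → I), ∀ i, a i < b i → ∃ n, ∀ x : bx a b, (x.1 i : ℝ) = b i →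
      (φ x n : ℝ) = 0 := by
  classical
  have hinf : {i | a i < b i}.Infinite := by
    intro h
    refine Set.infinite_univ (h.union hfin |>.subset ?_)
    intro i _
    exact (hab i).lt_or_eq
  have : Infinite {i | a i < b i} := hinf.to_subtype
  obtain ⟨hden⟩ := nonempty_denumerable {i | a i < b i}
  let e : ℕ ≃ {i | a i < b i} := (Denumerable.eqv _).symm
  have hpos : ∀ n, 0 < b (e n) - a (e n) := fun n => sub_pos.mpr (e n).2
  let φ0 : bx a b → (ℕ → I) := fun x n =>
    ⟨(b (e n) - x.1 (e n)) / (b (e n) - a (e n)), by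
      have h1 := (x.2 (e n)).1
      have h2 := (x.2 (e n)).2
      constructor
      · exact div_nonneg (by linarith) (hpos n).le
      · rw [div_le_one (hpos n)]; linarith⟩
  have hφc : Continuous φ0 := by
    refine continuous_pi fun n => Continuous.subtype_mk ?_ _
    exact (continuous_const.sub ((continuous_coord _).comp continuous_subtype_val)).div_const _
  have hinj : Function.Injective φ0 := by
    intro x y hxy
    apply Subtype.ext
    funext i
    apply Subtype.ext
    rcases (hab i).lt_or_eq with h | h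
    · have := congrArg Subtype.val (congrFun hxy (e.symm ⟨i, h⟩))
      simp only [φ0, Equiv.apply_symm_apply] at this
      have hp : b i - a i ≠ 0 := (sub_pos.mpr h).ne'
      rw [div_left_inj' hp] at this
      linarith
    · have h1 := x.2 i
      have h2 := y.2 i
      have h3 : (x.1 i : ℝ) = b i := le_antisymm h1.2 (h ▸ h1.1)
      have h4 : (y.1 i : ℝ) = b i := le_antisymm h2.2 (h ▸ h2.1)
      exact h3.trans h4.symm
  have hsurj : Function.Surjective φ0 := by
    intro t
    have hmem : ∀ i (h : a i < b i), b i - (b i - a i) * t (e.symm ⟨i, h⟩) ∈ Icc (a i) (b i) := by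
      intro i h
      have h1 := (t (e.symm ⟨i, h⟩)).2.1
      have h2 := (t (e.symm ⟨i, h⟩)).2.2
      constructor <;> nlinarith
    let x : ℕ → I := fun i => if h : a i < b i then
      ⟨b i - (b i - a i) * t (e.symm ⟨i, h⟩), (ha i).trans (hmem i h).1, (hmem i h).2.trans (hb i)⟩
      else ⟨b i, (ha i).trans (hab i), hb i⟩
    have hx1 : ∀ i (h : a i < b i), (x i : ℝ) = b i - (b i - a i) * t (e.symm ⟨i, h⟩) :=
      fun i h => by simp only [x]; rw [dif_pos h]
    have hx2 : ∀ i (_ : ¬ a i < b i), (x i : ℝ) = b i := fun i h => by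
      simp only [x]; rw [dif_neg h]
    have hx : x ∈ bx a b := by
      intro i
      by_cases h : a i < b i
      · rw [hx1 i h]; exact hmem i h
      · rw [hx2 i h]; exact ⟨hab i, le_rfl⟩
    refine ⟨⟨x, hx⟩, ?_⟩
    funext n
    apply Subtype.ext
    simp only [φ0]
    rw [hx1 (e n) (e n).2]
    have : e.symm ⟨(e n : ℕ), (e n).2⟩ = n := e.symm_apply_apply n
    rw [this]
    field_simp [(hpos n).ne']
    ring
  have : CompactSpace (bx a b) := isCompact_iff_compactSpace.mp (isClosed_bx a b).isCompact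
  refine ⟨Continuous.homeoOfEquivCompactToT2 (f := Equiv.ofBijective φ0 ⟨hinj, hsurj⟩) hφc, ?_⟩
  intro i hi
  refine ⟨e.symm ⟨i, hi⟩, fun x hx => ?_⟩
  change (b (e (e.symm ⟨i, hi⟩)) - x.1 (e (e.symm ⟨i, hi⟩))) / (b (e (e.symm ⟨i, hi⟩)) -
    a (e (e.symm ⟨i, hi⟩))) = (0 : ℝ)
  rw [Equiv.apply_symm_apply]
  simp [hx]

section

variable {V : Type} (far : V → V → Prop) (e : V → ℕ)

open Classical in
/-- lower sides -/
def lo (v : V) (i : ℕ) : ℝ := if i = e v then 1/2 else 0

open Classical in
/-- upper sides -/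
def hi (v : V) (i : ℕ) : ℝ :=
  if ∃ w, e w = i ∧ w ≠ v ∧ ¬ far v w then 1/2
  else if ∃ w, e w = i ∧ far v w ∧ e w < e v then 1/4 else 1

/-- the basic closed sets -/
def BX (v : V) : Set (ℕ → I) := bx (lo e v) (hi far e v)

variable {far e} (hs : ∀ u v, far u v → far v u) (hirr : ∀ u, ¬ far u u)
    (hlf : ∀ v, {w | ¬ far v w}.Finite) (he : Function.Injective e)

lemma lo_nonneg (v : V) (i : ℕ) : 0 ≤ lo e v i := by unfold lo; split_ifs <;> norm_num
lemma hi_le_one (v : V) (i : ℕ) : hi far e v i ≤ 1 := by unfold hi; split_ifs <;> norm_num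
lemma lo_self (v : V) : lo e v (e v) = 1/2 := by unfold lo; simp
include he in
lemma lo_ne {v w : V} (h : w ≠ v) : lo e v (e w) = 0 := by
  unfold lo; rw [if_neg (fun hh => h (he hh))]

include hirr he in
lemma hi_self (v : V) : hi far e v (e v) = 1 := by
  unfold hi
  rw [if_neg, if_neg]
  · rintro ⟨w, hw, hf, -⟩
    rw [he hw] at hf
    exact hirr v hf
  · rintro ⟨w, hw, hne, -⟩
    exact hne (he hw)

lemma hi_near {v w : V} (h : w ≠ v) (hf : ¬ far v w) : hi far e v (e w) = 1/2 := by
  unfold hi
  rw [if_pos ⟨w, rfl, h, hf⟩]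

include he in
lemma hi_far {v w : V} (hf : far v w) (hlt : e w < e v) : hi far e v (e w) = 1/4 := by
  unfold hi
  rw [if_neg, if_pos ⟨w, rfl, hf, hlt⟩]
  rintro ⟨w', hw', -, hf'⟩
  rw [he hw'] at hf'
  exact hf' hf

include hirr he in
lemma lo_lt_hi (v : V) (i : ℕ) : lo e v i < hi far e v i := by
  by_cases h : i = e v
  · subst h
    rw [lo_self, hi_self hirr he]; norm_num
  · unfold lo
    rw [if_neg h]
    unfold hi
    split_ifs <;> norm_num

lemma lo_mem (v : V) (i : ℕ) : lo e v i = 0 ∨ lo e v i = 1/2 := by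
  unfold lo; split_ifs <;> simp

lemma hi_mem (v : V) (i : ℕ) : hi far e v i = 1 ∨ hi far e v i = 1/2 ∨ hi far e v i = 1/4 := by
  unfold hi; split_ifs <;> simp

include hlf in
lemma restricted_finite (v : V) : {i | lo e v i ≠ 0 ∨ hi far e v i ≠ 1}.Finite := by
  refine ((Set.finite_singleton (e v)).union (((hlf v).image e).union
    (Set.finite_Iio (e v)))).subset ?_
  intro i hi'
  by_cases h1 : i = e v
  · exact Or.inl h1
  · right
    rcases hi' with h | h
    · exfalso; apply h; unfold lo; rw [if_neg h1]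
    · unfold hi at h
      split_ifs at h with h2 h3
      · obtain ⟨w, hw, -, hf⟩ := h2
        exact Or.inl ⟨w, hf, hw⟩
      · obtain ⟨w, hw, -, hf⟩ := h3
        exact Or.inr (hw ▸ hf)
      · exact absurd rfl h

include hs hirr he in
lemma BX_disj (u v : V) (h : far u v) (x : ℕ → I) (hx : x ∈ BX far e u) : x ∉ BX far e v := by
  have hne : u ≠ v := fun hh => hirr v (hh ▸ h)
  intro hv
  rcases lt_or_gt_of_ne (fun hh => hne (he hh) : e u ≠ e v) with hlt | hlt
  · have h1 := (hx (e u)).1
    have h2 := (hv (e u)).2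
    rw [lo_self] at h1
    rw [hi_far he (hs _ _ h) hlt] at h2
    linarith
  · have h1 := (hv (e v)).1
    have h2 := (hx (e v)).2
    rw [lo_self] at h1
    rw [hi_far he h hlt] at h2
    linarith

open Classical in
/-- lower sides of the intersections -/
def loc (e : V → ℕ) (σ : Finset V) (i : ℕ) : ℝ := if i ∈ σ.image e then 1/2 else 0

open Classical in
/-- upper sides of the intersections -/
def hic (far : V → V → Prop) (e : V → ℕ) (σ : Finset V) (i : ℕ) : ℝ :=
  if ∃ v ∈ σ, hi far e v i = 1/4 then 1/4 else if ∃ v ∈ σ, hi far e v i = 1/2 then 1/2 else 1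

lemma cell_eq_bx (σ : Finset V) (_hσ : σ.Nonempty) :
    cell (BX far e) σ = bx (loc e σ) (hic far e σ) := by
  classical
  ext x
  constructor
  · intro hx i
    constructor
    · unfold loc
      split_ifs with h
      · obtain ⟨v, hv, rfl⟩ := Finset.mem_image.mp h
        have := (hx v hv (e v)).1
        rwa [lo_self] at this
      · exact (x i).2.1
    · unfold hic
      split_ifs with h1 h2
      · obtain ⟨v, hv, h⟩ := h1
        exact h ▸ (hx v hv i).2
      · obtain ⟨v, hv, h⟩ := h2
        exact h ▸ (hx v hv i).2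
      · exact (x i).2.2
  · intro hx v hv i
    have h1 := hx i
    constructor
    · refine le_trans ?_ h1.1
      unfold lo
      split_ifs with h
      · unfold loc
        rw [if_pos (Finset.mem_image.mpr ⟨v, hv, h.symm⟩)]
      · unfold loc; split_ifs <;> norm_num
    · refine h1.2.trans ?_
      unfold hic
      rcases hi_mem (far := far) (e := e) v i with h | h | h
      · rw [h]; split_ifs <;> norm_num
      · rw [h]
        split_ifs with h2 h3
        · norm_num
        · norm_num
        · exact absurd ⟨v, hv, h⟩ h3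
      · rw [h, if_pos ⟨v, hv, h⟩]

include hs hirr hlf he in
theorem BX_tame (σ : Finset V) (hσ : Clq far σ) :
    ∃ (φ : cell (BX far e) σ ≃ₜ (ℕ → I)) (F : Finset ℕ),
      ∀ x : cell (BX far e) σ, ∀ w, w ∉ σ → (x : ℕ → I) ∈ BX far e w →
        ∃ i ∈ F, (φ x i : ℝ) = 0 := by
  classical
  -- the upper sides at the coordinates of members of σ
  have hq : ∀ v ∈ σ, ∀ u ∈ σ, hi far e u (e v) ≠ 1/4 := by
    intro v hv u hu
    by_cases h : v = u
    · subst h; rw [hi_self hirr he]; norm_num
    · rw [hi_near h (hσ.2 u hu v hv)]; norm_num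
  have hle : ∀ i, loc e σ i ≤ hic far e σ i := by
    intro i
    unfold loc
    split_ifs with h
    · obtain ⟨v, hv, rfl⟩ := Finset.mem_image.mp h
      unfold hic
      rw [if_neg (by rintro ⟨u, hu, h⟩; exact hq v hv u hu h)]
      split_ifs <;> norm_num
    · unfold hic; split_ifs <;> norm_num
  have hfin : {i | loc e σ i = hic far e σ i}.Finite := by
    refine (σ.image e).finite_toSet.subset ?_
    intro i hi'
    by_contra h
    have h' : i ∉ σ.image e := h
    have : loc e σ i = hic far e σ i := hi'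
    unfold loc at this
    rw [if_neg h'] at this
    unfold hic at this
    split_ifs at this <;> norm_num at this
  obtain ⟨φ, hφ⟩ := exists_bx_homeo (a := loc e σ) (b := hic far e σ)
    (fun i => by unfold loc; split_ifs <;> norm_num) hle
    (fun i => by unfold hic; split_ifs <;> norm_num) hfin
  have hLfin := Lks_finite (far := far) hlf hσ.1
  have hw : ∀ w ∈ Lks far σ, loc e σ (e w) = 0 ∧ hic far e σ (e w) = 1/2 := by
    intro w hw
    constructor
    · unfold loc
      rw [if_neg]
      intro h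
      obtain ⟨v, hv, h⟩ := Finset.mem_image.mp h
      exact hw.1 (he h ▸ hv)
    · unfold hic
      obtain ⟨v, hv⟩ := hσ.1
      have h1 : ∀ v ∈ σ, hi far e v (e w) = 1/2 := fun v hv =>
        hi_near (fun h => hw.1 (h ▸ hv)) (hw.2 v hv)
      rw [if_neg, if_pos ⟨v, hv, h1 v hv⟩]
      rintro ⟨u, hu, h⟩
      rw [h1 u hu] at h; norm_num at h
  choose n hn using fun w : Lks far σ => hφ (e w) (by rw [(hw w w.2).1, (hw w w.2).2]; norm_num)
  have : Fintype (Lks far σ) := hLfin.fintype
  rw [cell_eq_bx (far := far) (e := e) σ hσ.1]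
  refine ⟨φ, Finset.univ.image n, ?_⟩
  intro x w hwσ hxw
  have hxc : (x : ℕ → I) ∈ cell (BX far e) σ := by
    rw [cell_eq_bx (far := far) (e := e) σ hσ.1]; exact x.2
  have hwL : w ∈ Lks far σ := ⟨hwσ, fun v hv hf => BX_disj hs hirr he v w hf x (hxc v hv) hxw⟩
  refine ⟨n ⟨w, hwL⟩, Finset.mem_image.mpr ⟨_, Finset.mem_univ _, rfl⟩, hn ⟨w, hwL⟩ x ?_⟩
  have h1 := (x.2 (e w)).2
  have h2 := (hxw (e w)).1
  rw [lo_self] at h2
  simp only
  rw [(hw w hwL).2] at h1 ⊢
  exact le_antisymm h1 h2

include hs hirr hlf he in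
theorem BX_sys : Sys far (BX far e) where
  closed := fun _ => isClosed_bx _ _
  compact := fun _ => (isClosed_bx _ _).isCompact
  disj := BX_disj hs hirr he
  tame := BX_tame hs hirr hlf he

include hs hirr hlf he in
lemma BX_locfin (y : ℕ → I) (v : V) (hy : y ∈ BX far e v) :
    ∃ O : Set (ℕ → I), IsOpen O ∧ y ∈ O ∧ {u | (BX far e u ∩ O).Nonempty}.Finite := by
  refine ⟨{x | 1/4 < (x (e v) : ℝ)}, isOpen_lt continuous_const (continuous_coord _), ?_, ?_⟩
  · have := (hy (e v)).1
    rw [lo_self] at this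
    simp only [mem_ofPred_eq]
    linarith
  · refine ((hlf v).union ((Set.finite_Iio (e v)).preimage he.injOn)).subset ?_
    rintro u ⟨x, hxu, hxv⟩
    by_cases hf : far v u
    · right
      simp only [mem_preimage, mem_Iio]
      by_contra hlt
      push Not at hlt
      rcases hlt.lt_or_eq with h | h
      · have h1 := (hxu (e v)).2
        rw [hi_far he (hs _ _ hf) h] at h1
        have h2 : 1/4 < (x (e v) : ℝ) := hxv
        linarith
      · have h1 := (hxu (e v)).1
        have h2 : v = u := he h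
        subst h2
        exact absurd hf (hirr v)
    · exact Or.inl hf

end

end

end Pool.Agent.H236_QM
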