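import Pool.Agent.H236_QM.Glue2

/-!
# Regular systems of boxes
-/

set_option autoImplicit false
set_option linter.unusedSectionVars false

namespace Pool.Agent.H236_QM.G2

open Set Filter Topology

noncomputable section

/-- the box with the given sides -/
def bx (a b : ℕ → ℝ) : Set (ℕ → I) := {x | ∀ i, a i ≤ (x i : ℝ) ∧ (x i : ℝ) ≤ b i}

lemma continuous_coord (i : ℕ) : Continuous fun x : ℕ → I => (x i : ℝ) :=
  continuous_subtype_val.comp (continuous_apply i)

lemma isClosed_bx (a b : ℕ → ℝ) : IsClosed (bx a b) := by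
  have : bx a b = ⋂ i, {x | a i ≤ (x i : ℝ)} ∩ {x | (x i : ℝ) ≤ b i} := by
    ext x; simp [bx]
  rw [this]
  exact isClosed_iInter fun i => (isClosed_le continuous_const (continuous_coord i)).inter
    (isClosed_le (continuous_coord i) continuous_const)

/-- a box with infinitely many nondegenerate sides is a Hilbert cube, by a homeomorphism taking
each face to a face -/
lemma exists_bx_homeo {a b : ℕ → ℝ} (ha : ∀ i, 0 ≤ a i) (hab : ∀ i, a i ≤ b i)
    (hb : ∀ i, b i ≤ 1) (hfin : {i | a i = b i}.Finite) :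
    ∃ φ : bx a b ≃ₜ (ℕ → I), ∀ i, a i < b i → ∃ n, ∀ x : bx a b,
      ((x.1 i : ℝ) = b i → (φ x n : ℝ) = 0) ∧ ((x.1 i : ℝ) = a i → (φ x n : ℝ) = 1) := by
  classical
  have hinf : {i | a i < b i}.Infinite := by
    intro h
    refine Set.infinite_univ (h.union hfin |>.subset ?_)
    intro i _
    exact (hab i).lt_or_eq
  have : Infinite {i | a i < b i} := hinf.to_subtype
  obtain ⟨hden⟩ := nonempty_denumerable {i | a i < b i}
  let e : ℕ ≃ {i | a i < b i} := (Denumerable.eqv _).symm
  have hpos : ∀ n, 0 < b (e n) - a (e n) := fun n => sub_pos.mpr (e n).2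
  let φ0 : bx a b → (ℕ → I) := fun x n =>
    ⟨(b (e n) - x.1 (e n)) / (b (e n) - a (e n)), by
      have h1 := (x.2 (e n)).1
      have h2 := (x.2 (e n)).2
      constructor
      · exact div_nonneg (by linarith) (hpos n).le
      · rw [div_le_one (hpos n)]; linarith⟩
  have hφc : Continuous φ0 := by
    refine continuous_pi fun n => Continuous.subtype_mk ?_ _
    exact (continuous_const.sub ((continuous_coord _).comp continuous_subtype_val)).div_const _
  have hinj : Function.Injective φ0 := by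
    intro x y hxy
    apply Subtype.ext
    funext i
    apply Subtype.ext
    rcases (hab i).lt_or_eq with h | h
    · have := congrArg Subtype.val (congrFun hxy (e.symm ⟨i, h⟩))
      simp only [φ0, Equiv.apply_symm_apply] at this
      have hp : b i - a i ≠ 0 := (sub_pos.mpr h).ne'
      rw [div_left_inj' hp] at this
      linarith
    · have h1 := x.2 i
      have h2 := y.2 i
      have h3 : (x.1 i : ℝ) = b i := le_antisymm h1.2 (h ▸ h1.1)
      have h4 : (y.1 i : ℝ) = b i := le_antisymm h2.2 (h ▸ h2.1)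
      exact h3.trans h4.symm
  have hsurj : Function.Surjective φ0 := by
    intro t
    have hmem : ∀ i (h : a i < b i), b i - (b i - a i) * t (e.symm ⟨i, h⟩) ∈ Icc (a i) (b i) := by
      intro i h
      have h1 := (t (e.symm ⟨i, h⟩)).2.1
      have h2 := (t (e.symm ⟨i, h⟩)).2.2
      constructor <;> nlinarith
    let x : ℕ → I := fun i => if h : a i < b i then
      ⟨b i - (b i - a i) * t (e.symm ⟨i, h⟩), (ha i).trans (hmem i h).1, (hmem i h).2.trans (hb i)⟩
      else ⟨b i, (ha i).trans (hab i), hb i⟩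
    have hx1 : ∀ i (h : a i < b i), (x i : ℝ) = b i - (b i - a i) * t (e.symm ⟨i, h⟩) :=
      fun i h => by simp only [x]; rw [dif_pos h]
    have hx2 : ∀ i (_ : ¬ a i < b i), (x i : ℝ) = b i := fun i h => by
      simp only [x]; rw [dif_neg h]
    have hx : x ∈ bx a b := by
      intro i
      by_cases h : a i < b i
      · rw [hx1 i h]; exact hmem i h
      · rw [hx2 i h]; exact ⟨hab i, le_rfl⟩
    refine ⟨⟨x, hx⟩, ?_⟩
    funext n
    apply Subtype.ext
    simp only [φ0]
    rw [hx1 (e n) (e n).2]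
    have : e.symm ⟨(e n : ℕ), (e n).2⟩ = n := e.symm_apply_apply n
    rw [this]
    field_simp [(hpos n).ne']
    ring
  have : CompactSpace (bx a b) := isCompact_iff_compactSpace.mp (isClosed_bx a b).isCompact
  refine ⟨Continuous.homeoOfEquivCompactToT2 (f := Equiv.ofBijective φ0 ⟨hinj, hsurj⟩) hφc, ?_⟩
  intro i hi
  refine ⟨e.symm ⟨i, hi⟩, fun x => ⟨fun hx => ?_, fun hx => ?_⟩⟩
  · change (b (e (e.symm ⟨i, hi⟩)) - x.1 (e (e.symm ⟨i, hi⟩))) / (b (e (e.symm ⟨i, hi⟩)) -
      a (e (e.symm ⟨i, hi⟩))) = (0 : ℝ)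
    rw [Equiv.apply_symm_apply]
    simp [hx]
  · change (b (e (e.symm ⟨i, hi⟩)) - x.1 (e (e.symm ⟨i, hi⟩))) / (b (e (e.symm ⟨i, hi⟩)) -
      a (e (e.symm ⟨i, hi⟩))) = (1 : ℝ)
    rw [Equiv.apply_symm_apply]
    simp only [hx]
    exact div_self (sub_pos.mpr hi).ne'

section

variable {V : Type*} (lo hi : V → ℕ → ℝ)

/-- the restricted coordinates of a finite set of boxes -/
def rst (σ : Finset V) : Set ℕ := {i | ∃ v ∈ σ, lo v i ≠ 0 ∨ hi v i ≠ 1}

variable {lo hi} {far : V → V → Prop}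

lemma rst_finite (hres : ∀ v, {i | lo v i ≠ 0 ∨ hi v i ≠ 1}.Finite) (σ : Finset V) :
    (rst lo hi σ).Finite := by
  have : rst lo hi σ = ⋃ v ∈ (σ : Set V), {i | lo v i ≠ 0 ∨ hi v i ≠ 1} := by
    ext i; simp [rst]
  rw [this]
  exact σ.finite_toSet.biUnion fun v _ => hres v

/-- **Regular systems of boxes.** -/
theorem box_sys (h0 : ∀ v i, 0 ≤ lo v i) (h1 : ∀ v i, hi v i ≤ 1)
    (hres : ∀ v, {i | lo v i ≠ 0 ∨ hi v i ≠ 1}.Finite)
    (hdisj : ∀ u v, far u v → ∀ x, x ∈ bx (lo u) (hi u) → x ∉ bx (lo v) (hi v))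
    (hmeet : ∀ σ, Clq far σ → ∀ i, ∀ u ∈ σ, ∀ v ∈ σ, lo u i ≤ hi v i)
    (hface : ∀ σ, Clq far σ → ∀ w, w ∉ σ → ∀ x, (∀ v ∈ σ, x ∈ bx (lo v) (hi v)) →
      x ∈ bx (lo w) (hi w) → ∃ i ∈ rst lo hi σ, (∀ u ∈ σ, ∀ v ∈ σ, lo u i < hi v i) ∧
        ((∃ v ∈ σ, (x i : ℝ) = lo v i) ∨ (∃ v ∈ σ, (x i : ℝ) = hi v i))) :
    Sys far (fun v => bx (lo v) (hi v)) where
  closed v := isClosed_bx _ _
  compact v := (isClosed_bx _ _).isCompact
  disj := hdisj
  tame := by
    classical
    intro σ hσ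
    let L : ℕ → ℝ := fun i => σ.sup' hσ.1 fun v => lo v i
    let U : ℕ → ℝ := fun i => σ.inf' hσ.1 fun v => hi v i
    have hcell : cell (fun v => bx (lo v) (hi v)) σ = bx L U := by
      ext x
      constructor
      · intro hx i
        exact ⟨Finset.sup'_le _ _ fun v hv => (hx v hv i).1,
          Finset.le_inf' _ _ fun v hv => (hx v hv i).2⟩
      · intro hx v hv i
        exact ⟨(Finset.le_sup' (fun v => lo v i) hv).trans (hx i).1,
          (hx i).2.trans (Finset.inf'_le (fun v => hi v i) hv)⟩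
    have hL0 : ∀ i, 0 ≤ L i := by
      intro i
      obtain ⟨v, hv⟩ := hσ.1
      exact (h0 v i).trans (Finset.le_sup' (fun v => lo v i) hv)
    have hU1 : ∀ i, U i ≤ 1 := by
      intro i
      obtain ⟨v, hv⟩ := hσ.1
      exact (Finset.inf'_le (fun v => hi v i) hv).trans (h1 v i)
    have hLU : ∀ i, L i ≤ U i := by
      intro i
      refine Finset.sup'_le _ _ fun u hu => Finset.le_inf' _ _ fun v hv => ?_
      exact hmeet σ hσ i u hu v hv
    have hLU' : ∀ i, (∀ u ∈ σ, ∀ v ∈ σ, lo u i < hi v i) → L i < U i := by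
      intro i h
      rw [Finset.sup'_lt_iff]
      intro u hu
      rw [Finset.lt_inf'_iff]
      intro v hv
      exact h u hu v hv
    have hfin : {i | L i = U i}.Finite := by
      refine (rst_finite hres σ).subset ?_
      intro i hi'
      by_contra hcon
      have h2 : ∀ v ∈ σ, lo v i = 0 ∧ hi v i = 1 := by
        intro v hv
        by_contra h3
        apply hcon
        refine ⟨v, hv, ?_⟩
        by_contra h4
        push Not at h4
        exact h3 h4
      have h3 : L i < U i := hLU' i fun u hu v hv => by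
        rw [(h2 u hu).1, (h2 v hv).2]; norm_num
      exact h3.ne hi'
    obtain ⟨φ, hφ⟩ := exists_bx_homeo hL0 hLU hU1 hfin
    have hfr := rst_finite hres σ
    choose! n hn using hφ
    rw [hcell]
    refine ⟨φ, hfr.toFinset.image n, ?_⟩
    intro x w hw hxw
    have hxc : ∀ v ∈ σ, (x : ℕ → I) ∈ bx (lo v) (hi v) := by
      have : (x : ℕ → I) ∈ cell (fun v => bx (lo v) (hi v)) σ := by rw [hcell]; exact x.2
      exact this
    obtain ⟨i, hi1, hi2, hi3⟩ := hface σ hσ w hw x hxc hxw
    refine ⟨n i, Finset.mem_image.mpr ⟨i, hfr.mem_toFinset.mpr hi1, rfl⟩, ?_⟩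
    have hlt := hLU' i hi2
    rcases hi3 with ⟨v, hv, h⟩ | ⟨v, hv, h⟩
    · right
      refine (hn i hlt x).2 (le_antisymm ?_ (x.2 i).1)
      rw [h]
      exact Finset.le_sup' (fun v => lo v i) hv
    · left
      refine (hn i hlt x).1 (le_antisymm (x.2 i).2 ?_)
      rw [h]
      exact Finset.inf'_le (fun v => hi v i) hv

end

/-- restriction of a system to a subspace containing it -/
theorem Sys.restrict {V M : Type*} [TopologicalSpace M] {far : V → V → Prop} {C : V → Set M}
    (hC : Sys far C) (Ω : Set M) (hΩ : ∀ v, C v ⊆ Ω) :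
    Sys far (fun v => ((↑) ⁻¹' C v : Set Ω)) where
  closed v := (hC.closed v).preimage continuous_subtype_val
  compact v := by
    refine Subtype.isCompact_iff.mpr ?_
    rw [Subtype.image_preimage_coe, inter_eq_right.mpr (hΩ v)]
    exact hC.compact v
  disj u v h x hx := hC.disj u v h x hx
  tame := by
    intro σ hσ
    obtain ⟨φ, F, hφ⟩ := hC.tame σ hσ
    obtain ⟨v0, hv0⟩ := hσ.1
    let ψ : cell (fun v => ((↑) ⁻¹' C v : Set Ω)) σ ≃ₜ cell C σ :=
      { toFun := fun x => ⟨x.1.1, fun v hv => x.2 v hv⟩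
        invFun := fun x => ⟨⟨x.1, hΩ v0 (x.2 v0 hv0)⟩, fun v hv => x.2 v hv⟩
        left_inv := fun x => rfl
        right_inv := fun x => rfl
        continuous_toFun := by fun_prop
        continuous_invFun := by fun_prop }
    refine ⟨ψ.trans φ, F, fun x w hw hxw => ?_⟩
    exact hφ (ψ x) w hw hxw

end

end Pool.Agent.H236_QM.G2
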