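import Mathlib

/-!
# Locally finite simplicial complexes and their polyhedra
-/

set_option autoImplicit false

namespace Pool.Agent.H236_QM

/-- A locally finite abstract simplicial complex with vertices in `V`: a family of nonempty finite
sets, the faces, closed under taking nonempty subsets, such that each vertex lies in only finitely
many faces. -/
structure Cx (V : Type) where
  /-- the faces -/
  faces : Set (Finset V)
  nonempty : ∀ σ ∈ faces, σ.Nonempty
  down : ∀ σ ∈ faces, ∀ τ, τ ⊆ σ → τ.Nonempty → τ ∈ faces
  locfin : ∀ v, {σ | σ ∈ faces ∧ v ∈ σ}.Finite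

/-- The polyhedron of a complex in barycentric coordinates, topologised as a subspace of the
product `V → ℝ`. -/
def Cx.poly {V : Type} (K : Cx V) : Set (V → ℝ) :=
  {p | (∀ v, 0 ≤ p v) ∧ ∃ σ ∈ K.faces, (∀ v, v ∉ σ → p v = 0) ∧ ∑ v ∈ σ, p v = 1}

end Pool.Agent.H236_QM
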