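import Pool.Agent.H236_QM.GMap

/-!
# Finite unions of faces of the cube can be moved into the interior
-/

set_option autoImplicit false

namespace Pool.Agent.H236_QM

open Set Filter Topology

noncomputable section

/-- the affine flip `f ↦ (1 - f) / 2` of `[-1,1]` onto `[0,1]` -/
def flip1 : J ≃ₜ I where
  toFun f := ⟨(1 - (f:ℝ)) / 2, by have := f.2; constructor <;> linarith [this.1, this.2]⟩
  invFun z := ⟨1 - 2 * (z:ℝ), by have := z.2; constructor <;> linarith [this.1, this.2]⟩
  left_inv f := by ext; simp; ring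
  right_inv z := by ext; simp
  continuous_toFun := by fun_prop
  continuous_invFun := by fun_prop

/-- the coordinatewise flip -/
def flipN : (ℕ → J) ≃ₜ (ℕ → I) := Homeomorph.piCongrRight fun _ => flip1

lemma flipN_coe (f : ℕ → J) (k : ℕ) : (flipN f k : ℝ) = (1 - (f k : ℝ)) / 2 := rfl

/-- the planar homeomorphism applied to the coordinates `0` and `i` -/
def betaFun (i : ℕ) (t : ℕ → I) : ℕ → I := fun k =>
  if k = 0 then ⟨xF (t 0) (t i), xF_mem (t 0).2 (t i).2⟩
  else if k = i then ⟨(1 + fF (t 0) (t i)) / 2, by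
    have := fF_mem (t 0).2 (t i).2
    constructor <;> linarith [this.1, this.2]⟩
  else t k

/-- the inverse of `betaFun` -/
def betaInv (i : ℕ) (u : ℕ → I) : ℕ → I := fun k =>
  if k = 0 then ⟨cH (2 * u i - 1) (u 0), cH_mem
    (by have := (u i).2; constructor <;> linarith [this.1, this.2]) (u 0).2⟩
  else if k = i then ⟨yH (2 * u i - 1) (u 0), yH_mem
    (by have := (u i).2; constructor <;> linarith [this.1, this.2]) (u 0).2⟩
  else u k

lemma continuous_betaFun (i : ℕ) : Continuous (betaFun i) := by
  refine continuous_pi fun k => ?_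
  unfold betaFun
  by_cases h0 : k = 0
  · simp only [h0, if_true]
    refine Continuous.subtype_mk ?_ _
    unfold xF
    fun_prop
  · by_cases hi : k = i
    · simp only [h0, hi, if_false, if_true]
      have : ¬ i = 0 := hi ▸ h0
      simp only [this, if_false]
      refine Continuous.subtype_mk ?_ _
      unfold fF
      fun_prop
    · simp only [h0, hi, if_false]
      exact continuous_apply k

/-- `betaFun` as a homeomorphism -/
def beta (i : ℕ) (hi : i ≠ 0) : (ℕ → I) ≃ₜ (ℕ → I) :=
  Continuous.homeoOfEquivCompactToT2 (f :=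
    { toFun := betaFun i
      invFun := betaInv i
      left_inv := by
        intro t
        funext k
        unfold betaInv betaFun
        by_cases h0 : k = 0
        · subst h0
          ext
          simp only [if_true, hi, if_false]
          rw [show 2 * ((1 + fF (t 0) (t i)) / 2) - 1 = fF (t 0) (t i) by ring]
          exact cH_fF (t 0).2.1 (t i).2.1
        · by_cases hk : k = i
          · subst hk
            ext
            simp only [if_true, hi, if_false]
            rw [show 2 * ((1 + fF (t 0) (t k)) / 2) - 1 = fF (t 0) (t k) by ring]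
            exact yH_fF (t 0).2.1 (t k).2.1
          · simp [h0, hk]
      right_inv := by
        intro u
        funext k
        unfold betaInv betaFun
        by_cases h0 : k = 0
        · subst h0
          ext
          simp only [if_true, hi, if_false]
          exact xF_cH (u 0).2.1
        · by_cases hk : k = i
          · subst hk
            ext
            simp only [if_true, hi, if_false]
            rw [fF_cH (u 0).2.1]
            ring
          · simp [h0, hk] })
    (continuous_betaFun i)

lemma beta_zero {i : ℕ} (hi : i ≠ 0) {t : ℕ → I} (h : (t 0 : ℝ) = 0 ∨ (t i : ℝ) = 0) :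
    (beta i hi t 0 : ℝ) = 0 := by
  change (xF (t 0) (t i) : ℝ) = 0
  unfold xF
  rcases h with h | h
  · rw [h, mul_zero]; exact min_eq_right (t i).2.1
  · rw [h]; exact min_eq_left (by have := (t 0).2.1; linarith)

lemma beta_other {i : ℕ} (hi : i ≠ 0) (t : ℕ → I) {k : ℕ} (h0 : k ≠ 0) (hk : k ≠ i) :
    beta i hi t k = t k := by
  change betaFun i t k = t k
  simp [betaFun, h0, hk]

lemma exists_union_face (F : Finset ℕ) : ∃ Ψ : (ℕ → I) ≃ₜ (ℕ → I),
    (∀ t, ((t 0 : ℝ) = 0 ∨ ∃ i ∈ F, (t i : ℝ) = 0) → (Ψ t 0 : ℝ) = 0) ∧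
    (∀ t, ∀ k, k ≠ 0 → k ∉ F → Ψ t k = t k) := by
  classical
  induction F using Finset.induction_on with
  | empty =>
    refine ⟨Homeomorph.refl _, fun t ht => ?_, fun _ _ _ _ => rfl⟩
    rcases ht with h | ⟨i, hi, _⟩
    · exact h
    · simp at hi
  | insert i F hiF ih =>
    obtain ⟨Ψ, h1, h2⟩ := ih
    by_cases h0 : i = 0
    · refine ⟨Ψ, fun t ht => ?_, fun t k hk hkF => h2 t k hk (fun h => hkF (Finset.mem_insert_of_mem h))⟩
      apply h1
      rcases ht with h | ⟨j, hj, hj0⟩
      · exact Or.inl h
      · rcases Finset.mem_insert.mp hj with rfl | hj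
        · exact Or.inl (h0 ▸ hj0)
        · exact Or.inr ⟨j, hj, hj0⟩
    · refine ⟨Ψ.trans (beta i h0), fun t ht => ?_, fun t k hk hkF => ?_⟩
      · rw [Homeomorph.trans_apply]
        apply beta_zero
        rcases ht with h | ⟨j, hj, hj0⟩
        · exact Or.inl (h1 t (Or.inl h))
        · rcases Finset.mem_insert.mp hj with rfl | hj
          · exact Or.inr (by rw [h2 t j h0 hiF]; exact hj0)
          · exact Or.inl (h1 t (Or.inr ⟨j, hj, hj0⟩))
      · rw [Homeomorph.trans_apply, beta_other h0 _ hk (fun h => hkF (h ▸ Finset.mem_insert_self _ _))]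
        exact h2 t k hk (fun h => hkF (Finset.mem_insert_of_mem h))

/-- A finite union of faces of the cube can be moved into the middle part of the cube. -/
theorem exists_faces_interior (F : Finset ℕ) : ∃ Φ : (ℕ → I) ≃ₜ (ℕ → J),
    ∀ t, (∃ i ∈ F, (t i : ℝ) = 0) → ∀ k, (Φ t k : ℝ) ∈ Icc (-(1/2) : ℝ) (1/2) := by
  obtain ⟨Ψ, h1, -⟩ := exists_union_face F
  refine ⟨((Ψ.trans G).trans flipN).trans G, fun t ht k => ?_⟩
  have h0 : (Ψ t 0 : ℝ) = 0 := h1 t (Or.inr ht)
  simp only [Homeomorph.trans_apply]
  rw [G_coe]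
  refine Gr_bound (r := 1/2) (fun n => ?_) k
  rw [flipN_coe, G_face h0 n]
  have := (Ψ t (n+1)).2
  constructor <;> linarith [this.1, this.2]

end

end Pool.Agent.H236_QM
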