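import Pool.Agent.H236_QM.Klee

/-!
# Two-sided faces
-/

set_option autoImplicit false

namespace Pool.Agent.H236_QM

open Set Filter Topology

noncomputable section

/-- the planar homeomorphism applied to the coordinates `j` and `i` -/
def gamFun (j i : ℕ) (t : ℕ → I) : ℕ → I := fun k =>
  if k = j then ⟨xF (t j) (t i), xF_mem (t j).2 (t i).2⟩
  else if k = i then ⟨(1 + fF (t j) (t i)) / 2, by
    have := fF_mem (t j).2 (t i).2
    constructor <;> linarith [this.1, this.2]⟩
  else t k

/-- the inverse of `gamFun` -/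
def gamInv (j i : ℕ) (u : ℕ → I) : ℕ → I := fun k =>
  if k = j then ⟨cH (2 * u i - 1) (u j), cH_mem
    (by have := (u i).2; constructor <;> linarith [this.1, this.2]) (u j).2⟩
  else if k = i then ⟨yH (2 * u i - 1) (u j), yH_mem
    (by have := (u i).2; constructor <;> linarith [this.1, this.2]) (u j).2⟩
  else u k

lemma continuous_gamFun (j i : ℕ) : Continuous (gamFun j i) := by
  refine continuous_pi fun k => ?_
  unfold gamFun
  by_cases h0 : k = j
  · simp only [h0, if_true]
    refine Continuous.subtype_mk ?_ _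
    unfold xF
    fun_prop
  · by_cases hi : k = i
    · simp only [h0, hi, if_false, if_true]
      have : ¬ i = j := hi ▸ h0
      simp only [this, if_false]
      refine Continuous.subtype_mk ?_ _
      unfold fF
      fun_prop
    · simp only [h0, hi, if_false]
      exact continuous_apply k

/-- `gamFun` as a homeomorphism -/
def gam (j i : ℕ) (hi : i ≠ j) : (ℕ → I) ≃ₜ (ℕ → I) :=
  Continuous.homeoOfEquivCompactToT2 (f :=
    { toFun := gamFun j i
      invFun := gamInv j i
      left_inv := by
        intro t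
        funext k
        unfold gamInv gamFun
        by_cases h0 : k = j
        · subst h0
          ext
          simp only [if_true, hi, if_false]
          rw [show 2 * ((1 + fF (t k) (t i)) / 2) - 1 = fF (t k) (t i) by ring]
          exact cH_fF (t k).2.1 (t i).2.1
        · by_cases hk : k = i
          · subst hk
            ext
            simp only [if_true, hi, if_false]
            rw [show 2 * ((1 + fF (t j) (t k)) / 2) - 1 = fF (t j) (t k) by ring]
            exact yH_fF (t j).2.1 (t k).2.1
          · simp [h0, hk]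
      right_inv := by
        intro u
        funext k
        unfold gamInv gamFun
        by_cases h0 : k = j
        · subst h0
          ext
          simp only [if_true, hi, if_false]
          exact xF_cH (u k).2.1
        · by_cases hk : k = i
          · subst hk
            ext
            simp only [if_true, hi, if_false]
            rw [fF_cH (u j).2.1]
            ring
          · simp [h0, hk] })
    (continuous_gamFun j i)

lemma gam_zero {j i : ℕ} (hi : i ≠ j) {t : ℕ → I} (h : (t j : ℝ) = 0) :
    (gam j i hi t j : ℝ) = 0 := by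
  change (gamFun j i t j : ℝ) = 0
  unfold gamFun
  rw [if_pos rfl]
  simp only
  unfold xF
  rw [h, mul_zero]; exact min_eq_right (t i).2.1

lemma gam_one {j i : ℕ} (hi : i ≠ j) {t : ℕ → I} (h : (t j : ℝ) = 1) :
    (gam j i hi t i : ℝ) = 0 := by
  change (gamFun j i t i : ℝ) = 0
  unfold gamFun
  rw [if_neg hi, if_pos rfl]
  simp only
  unfold fF
  have h1 := (t i).2.1
  have h2 := (t i).2.2
  rw [h, max_eq_right (by linarith), min_eq_right (by linarith)]
  norm_num

lemma gam_other {j i : ℕ} (hi : i ≠ j) (t : ℕ → I) {k : ℕ} (h0 : k ≠ j) (hk : k ≠ i) :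
    gam j i hi t k = t k := by
  change gamFun j i t k = t k
  simp [gamFun, h0, hk]

lemma exists_two_sided (F : Finset ℕ) : ∀ A : Finset ℕ, Disjoint A F →
    ∃ (Ψ : (ℕ → I) ≃ₜ (ℕ → I)) (F' : Finset ℕ),
      (∀ t, (∃ i ∈ F, (t i : ℝ) = 0 ∨ (t i : ℝ) = 1) → ∃ i ∈ F', (Ψ t i : ℝ) = 0) ∧
      ∀ t, ∀ k ∈ A, Ψ t k = t k := by
  classical
  induction F using Finset.induction_on with
  | empty =>
    intro A _
    exact ⟨Homeomorph.refl _, ∅, fun t ht => by simp at ht, fun _ _ _ => rfl⟩
  | insert j F hjF ih =>
    intro A hA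
    rw [Finset.disjoint_insert_right] at hA
    obtain ⟨Ψ, F', h1, h2⟩ := ih (insert j A) (by
      rw [Finset.disjoint_insert_left]; exact ⟨hjF, hA.2⟩)
    obtain ⟨i, hi⟩ := Infinite.exists_notMem_finset (insert j (A ∪ F'))
    simp only [Finset.mem_insert, Finset.mem_union, not_or] at hi
    refine ⟨Ψ.trans (gam j i hi.1), insert j (insert i F'), fun t ht => ?_, fun t k hk => ?_⟩
    · obtain ⟨l, hl, hl0⟩ := ht
      rcases Finset.mem_insert.mp hl with rfl | hl
      · have hΨ : Ψ t l = t l := h2 t l (Finset.mem_insert_self _ _)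
        rcases hl0 with h | h
        · have h' : (Ψ t l : ℝ) = 0 := by rw [hΨ]; exact h
          exact ⟨l, Finset.mem_insert_self _ _, gam_zero hi.1 h'⟩
        · have h' : (Ψ t l : ℝ) = 1 := by rw [hΨ]; exact h
          exact ⟨i, by simp, gam_one hi.1 h'⟩
      · obtain ⟨m, hm, hm0⟩ := h1 t ⟨l, hl, hl0⟩
        by_cases hmj : m = j
        · subst hmj
          exact ⟨m, Finset.mem_insert_self _ _, gam_zero hi.1 hm0⟩
        · refine ⟨m, by simp [hm], ?_⟩
          rw [Homeomorph.trans_apply, gam_other hi.1 _ hmj (fun h => hi.2.2 (h ▸ hm))]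
          exact hm0
    · rw [Homeomorph.trans_apply, gam_other hi.1 _ (fun h => hA.1 (h ▸ hk))
        (fun h => hi.2.1 (h ▸ hk))]
      exact h2 t k (Finset.mem_insert_of_mem hk)

/-- **Extension of homeomorphisms between closed subsets of finite unions of faces, two-sided
version.** -/
theorem extend_faces2 {A : Type*} [TopologicalSpace A] [CompactSpace A] (i j : A → (ℕ → I))
    (hi : Continuous i) (hj : Continuous j) (hii : Function.Injective i)
    (hji : Function.Injective j) (F F' : Finset ℕ)
    (hF : ∀ a, ∃ n ∈ F, (i a n : ℝ) = 0 ∨ (i a n : ℝ) = 1)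
    (hF' : ∀ a, ∃ n ∈ F', (j a n : ℝ) = 0 ∨ (j a n : ℝ) = 1) :
    ∃ H : (ℕ → I) ≃ₜ (ℕ → I), ∀ a, H (i a) = j a := by
  obtain ⟨Ψ, G, h1, -⟩ := exists_two_sided F ∅ (Finset.disjoint_empty_left _)
  obtain ⟨Ψ', G', h1', -⟩ := exists_two_sided F' ∅ (Finset.disjoint_empty_left _)
  obtain ⟨H, hH⟩ := extend_faces (fun a => Ψ (i a)) (fun a => Ψ' (j a))
    (Ψ.continuous.comp hi) (Ψ'.continuous.comp hj) (Ψ.injective.comp hii)
    (Ψ'.injective.comp hji) G G' (fun a => h1 _ (hF a)) (fun a => h1' _ (hF' a))
  refine ⟨(Ψ.trans H).trans Ψ'.symm, fun a => ?_⟩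
  simp only [Homeomorph.trans_apply]
  rw [hH a, Homeomorph.symm_apply_apply]

end

end Pool.Agent.H236_QM
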