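import Mathlib

/-!
# An explicit homeomorphism of the cube

`G : [0,1]^ℕ → [-1,1]^ℕ` is a homeomorphism which maps the face `t 0 = 0` onto the sub-cube
`[0,1]^ℕ` by a shift of the coordinates.
-/

set_option autoImplicit false

namespace Pool.Agent.H236_QM

open Set Filter Topology

noncomputable section

/-- the unit interval -/
abbrev I : Type := Set.Icc (0 : ℝ) 1
/-- the interval `[-1,1]` -/
abbrev J : Type := Set.Icc (-1 : ℝ) 1

/-! ## The planar homeomorphism -/

/-- first component of `[0,1]² → [-1,1] × [0,1]` -/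
def fF (c y : ℝ) : ℝ := min y (max (3 * y - 4 * c) (-c))
/-- second component of `[0,1]² → [-1,1] × [0,1]` -/
def xF (c y : ℝ) : ℝ := min y (2 * c)
/-- first component of the inverse -/
def cH (f x : ℝ) : ℝ := max (x / 2) (max ((3 * x - f) / 4) (-f))
/-- second component of the inverse -/
def yH (f x : ℝ) : ℝ := max f x

lemma fF_mem {c y : ℝ} (hc : c ∈ Icc (0:ℝ) 1) (hy : y ∈ Icc (0:ℝ) 1) : fF c y ∈ Icc (-1:ℝ) 1 := by
  obtain ⟨h1, h2⟩ := hc
  obtain ⟨h3, h4⟩ := hy
  unfold fF
  constructor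
  · exact le_min (by linarith) (le_max_of_le_right (by linarith))
  · exact (min_le_left _ _).trans h4

lemma xF_mem {c y : ℝ} (hc : c ∈ Icc (0:ℝ) 1) (hy : y ∈ Icc (0:ℝ) 1) : xF c y ∈ Icc (0:ℝ) 1 := by
  obtain ⟨h1, h2⟩ := hc
  obtain ⟨h3, h4⟩ := hy
  unfold xF
  exact ⟨le_min h3 (by linarith), (min_le_left _ _).trans h4⟩

lemma cH_mem {f x : ℝ} (hf : f ∈ Icc (-1:ℝ) 1) (hx : x ∈ Icc (0:ℝ) 1) : cH f x ∈ Icc (0:ℝ) 1 := by
  obtain ⟨h1, h2⟩ := hf
  obtain ⟨h3, h4⟩ := hx
  unfold cH
  constructor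
  · exact le_max_of_le_left (by linarith)
  · exact max_le (by linarith) (max_le (by linarith) (by linarith))

lemma yH_mem {f x : ℝ} (hf : f ∈ Icc (-1:ℝ) 1) (hx : x ∈ Icc (0:ℝ) 1) : yH f x ∈ Icc (0:ℝ) 1 := by
  obtain ⟨h1, h2⟩ := hf
  obtain ⟨h3, h4⟩ := hx
  unfold yH
  exact ⟨le_max_of_le_right h3, max_le h2 h4⟩

lemma cH_fF {c y : ℝ} (hc : 0 ≤ c) (hy : 0 ≤ y) : cH (fF c y) (xF c y) = c := by
  unfold cH fF xF
  rcases le_total (3 * y - 4 * c) (-c) with h1 | h1 <;>
  rcases le_total y (2 * c) with h2 | h2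
  · rw [max_eq_right h1, min_eq_left h2, min_eq_right (by linarith : -c ≤ y),
      max_eq_right (by linarith : (3 * y - -c) / 4 ≤ - -c), max_eq_right (by linarith)]
    ring
  · have : c = 0 := by linarith
    subst this
    have : y = 0 := by linarith
    subst this
    simp
  · rw [max_eq_left h1, min_eq_left h2, min_eq_right (by linarith : 3 * y - 4 * c ≤ y),
      max_eq_left (by linarith : -(3 * y - 4 * c) ≤ (3 * y - (3 * y - 4 * c)) / 4),
      max_eq_right (by linarith)]
    ring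
  · rw [max_eq_left h1, min_eq_right h2, min_eq_left (by linarith : y ≤ 3 * y - 4 * c),
      max_eq_left (by linarith : -y ≤ (3 * (2 * c) - y) / 4), max_eq_left (by linarith)]
    ring

lemma yH_fF {c y : ℝ} (hc : 0 ≤ c) (hy : 0 ≤ y) : yH (fF c y) (xF c y) = y := by
  unfold yH fF xF
  rcases le_total (3 * y - 4 * c) (-c) with h1 | h1 <;>
  rcases le_total y (2 * c) with h2 | h2
  · rw [max_eq_right h1, min_eq_left h2, min_eq_right (by linarith : -c ≤ y),
      max_eq_right (by linarith)]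
  · have : c = 0 := by linarith
    subst this
    have : y = 0 := by linarith
    subst this
    simp
  · rw [max_eq_left h1, min_eq_left h2, min_eq_right (by linarith : 3 * y - 4 * c ≤ y),
      max_eq_right (by linarith)]
  · rw [max_eq_left h1, min_eq_right h2, min_eq_left (by linarith : y ≤ 3 * y - 4 * c),
      max_eq_left (by linarith)]

lemma fF_cH {f x : ℝ} (hx : 0 ≤ x) : fF (cH f x) (yH f x) = f := by
  unfold cH fF yH
  rcases le_total f x with h1 | h1
  · rcases le_total f (-x) with h2 | h2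
    · rw [max_eq_right h1, max_eq_right (by linarith : (3 * x - f) / 4 ≤ -f),
        max_eq_right (by linarith : x / 2 ≤ - f), max_eq_right (by linarith),
        min_eq_right (by linarith)]
      ring
    · rw [max_eq_right h1, max_eq_left (by linarith : -f ≤ (3 * x - f) / 4),
        max_eq_right (by linarith : x / 2 ≤ (3 * x - f) / 4), max_eq_left (by linarith),
        min_eq_right (by linarith)]
      ring
  · rw [max_eq_left h1, max_eq_left (by linarith : -f ≤ (3 * x - f) / 4),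
        max_eq_left (by linarith : (3 * x - f) / 4 ≤ x / 2), max_eq_left (by linarith),
        min_eq_left (by linarith)]

lemma xF_cH {f x : ℝ} (hx : 0 ≤ x) : xF (cH f x) (yH f x) = x := by
  unfold cH xF yH
  rcases le_total f x with h1 | h1
  · rcases le_total f (-x) with h2 | h2
    · rw [max_eq_right h1, max_eq_right (by linarith : (3 * x - f) / 4 ≤ -f),
        max_eq_right (by linarith : x / 2 ≤ - f), min_eq_left (by linarith)]
    · rw [max_eq_right h1, max_eq_left (by linarith : -f ≤ (3 * x - f) / 4),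
        max_eq_right (by linarith : x / 2 ≤ (3 * x - f) / 4), min_eq_left (by linarith)]
  · rw [max_eq_left h1, max_eq_left (by linarith : -f ≤ (3 * x - f) / 4),
        max_eq_left (by linarith : (3 * x - f) / 4 ≤ x / 2), min_eq_right (by linarith)]
    ring

lemma abs_max_sub_max_le' {a b c d r : ℝ} (h1 : |a - c| ≤ r) (h2 : |b - d| ≤ r) :
    |max a b - max c d| ≤ r :=
  (abs_max_sub_max_le_max a b c d).trans (max_le h1 h2)

lemma cH_lip (f x x' : ℝ) : |cH f x - cH f x'| ≤ 3 / 4 * |x - x'| := by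
  unfold cH
  have h0 := abs_nonneg (x - x')
  refine abs_max_sub_max_le' ?_ (abs_max_sub_max_le' ?_ ?_)
  · rw [show x / 2 - x' / 2 = (1 / 2) * (x - x') by ring, abs_mul, abs_of_pos (by norm_num : (0:ℝ) < 1/2)]
    linarith
  · rw [show (3 * x - f) / 4 - (3 * x' - f) / 4 = (3 / 4) * (x - x') by ring, abs_mul,
      abs_of_pos (by norm_num : (0:ℝ) < 3/4)]
  · simp

/-! ## The transducer -/

/-- one step of the transducer on real sequences -/
def S (t : ℕ → ℝ) : ℕ → ℝ := fun k => Nat.casesOn k (xF (t 0) (t 1)) (fun k => t (k + 2))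

@[simp] lemma S_zero (t : ℕ → ℝ) : S t 0 = xF (t 0) (t 1) := rfl
@[simp] lemma S_succ (t : ℕ → ℝ) (k : ℕ) : S t (k + 1) = t (k + 2) := rfl

lemma S_iter_succ (n : ℕ) (t : ℕ → ℝ) (k : ℕ) : S^[n] t (k + 1) = t (n + k + 1) := by
  induction n generalizing t k with
  | zero => simp
  | succ n ih =>
    rw [Function.iterate_succ_apply, ih, show n + k + 1 = (n + k) + 1 from rfl, S_succ]
    congr 1
    omega

/-- the transducer on real sequences -/
def Gr (t : ℕ → ℝ) (k : ℕ) : ℝ := fF (S^[k] t 0) (S^[k] t 1)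

lemma Gr_zero (t : ℕ → ℝ) : Gr t 0 = fF (t 0) (t 1) := rfl
lemma Gr_succ (t : ℕ → ℝ) (k : ℕ) : Gr t (k + 1) = Gr (S t) k := by
  simp [Gr, Function.iterate_succ_apply]

lemma S_mem {t : ℕ → ℝ} (ht : ∀ k, t k ∈ Icc (0:ℝ) 1) (k : ℕ) : S t k ∈ Icc (0:ℝ) 1 := by
  cases k with
  | zero => exact xF_mem (ht 0) (ht 1)
  | succ k => exact ht _

lemma S_iter_mem {t : ℕ → ℝ} (ht : ∀ k, t k ∈ Icc (0:ℝ) 1) (n k : ℕ) :
    S^[n] t k ∈ Icc (0:ℝ) 1 := by
  induction n generalizing t k with
  | zero => exact ht k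
  | succ n ih => rw [Function.iterate_succ_apply]; exact ih (S_mem ht) k

lemma Gr_mem {t : ℕ → ℝ} (ht : ∀ k, t k ∈ Icc (0:ℝ) 1) (k : ℕ) : Gr t k ∈ Icc (-1:ℝ) 1 :=
  fF_mem (S_iter_mem ht k 0) (S_iter_mem ht k 1)

lemma continuous_fF : Continuous fun p : ℝ × ℝ => fF p.1 p.2 := by
  unfold fF; fun_prop

lemma continuous_xF : Continuous fun p : ℝ × ℝ => xF p.1 p.2 := by
  unfold xF; fun_prop

lemma continuous_S : Continuous S := by
  refine continuous_pi fun k => ?_
  cases k with
  | zero =>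
    exact continuous_xF.comp ((continuous_apply (A := fun _ : ℕ => ℝ) 0).prodMk
      (continuous_apply (A := fun _ : ℕ => ℝ) 1))
  | succ k => exact continuous_apply _

lemma continuous_S_iter (n : ℕ) : Continuous (S^[n]) := continuous_S.iterate n

lemma continuous_Gr (k : ℕ) : Continuous fun t => Gr t k :=
  continuous_fF.comp (((continuous_apply 0).comp (continuous_S_iter k)).prodMk
    ((continuous_apply 1).comp (continuous_S_iter k)))

/-- the state of the transducer -/
lemma state_eq {t : ℕ → ℝ} (ht : ∀ k, t k ∈ Icc (0:ℝ) 1) (n : ℕ) :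
    S^[n] t 0 = cH (Gr t n) (S^[n+1] t 0) := by
  rw [Function.iterate_succ_apply', S_zero, Gr, cH_fF (S_iter_mem ht n 0).1 (S_iter_mem ht n 1).1]

lemma state_eq' {t : ℕ → ℝ} (ht : ∀ k, t k ∈ Icc (0:ℝ) 1) (n : ℕ) :
    t (n + 1) = yH (Gr t n) (S^[n+1] t 0) := by
  rw [Function.iterate_succ_apply', S_zero, Gr, yH_fF (S_iter_mem ht n 0).1 (S_iter_mem ht n 1).1]
  rw [show (1:ℕ) = 0 + 1 from rfl, S_iter_succ]

lemma Gr_inj {t t' : ℕ → ℝ} (ht : ∀ k, t k ∈ Icc (0:ℝ) 1) (ht' : ∀ k, t' k ∈ Icc (0:ℝ) 1)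
    (h : ∀ k, Gr t k = Gr t' k) : t = t' := by
  have key : ∀ m n : ℕ, |S^[n] t 0 - S^[n] t' 0| ≤ (3/4 : ℝ) ^ m := by
    intro m
    induction m with
    | zero =>
      intro n
      have h1 := S_iter_mem ht n 0
      have h2 := S_iter_mem ht' n 0
      rw [pow_zero, abs_le]
      constructor <;> linarith [h1.1, h1.2, h2.1, h2.2]
    | succ m ih =>
      intro n
      rw [state_eq ht n, state_eq ht' n, h n]
      refine (cH_lip _ _ _).trans ?_
      rw [pow_succ]
      nlinarith [ih (n + 1)]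
  have hst : ∀ n, S^[n] t 0 = S^[n] t' 0 := by
    intro n
    have hlim : Tendsto (fun m : ℕ => (3/4 : ℝ) ^ m) atTop (𝓝 0) :=
      tendsto_pow_atTop_nhds_zero_of_lt_one (by norm_num) (by norm_num)
    have : |S^[n] t 0 - S^[n] t' 0| ≤ 0 := ge_of_tendsto' hlim (fun m => key m n)
    exact sub_eq_zero.mp (abs_nonpos_iff.mp this)
  funext k
  cases k with
  | zero => exact hst 0
  | succ k => rw [state_eq' ht k, state_eq' ht' k, h k, hst (k+1)]

lemma Gr_surj_fin (n : ℕ) : ∀ f : ℕ → ℝ, (∀ k, f k ∈ Icc (-1:ℝ) 1) →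
    ∃ t : ℕ → ℝ, (∀ k, t k ∈ Icc (0:ℝ) 1) ∧ ∀ k < n, Gr t k = f k := by
  induction n with
  | zero => intro f _; exact ⟨fun _ => 0, fun _ => by simp, fun k hk => absurd hk (by omega)⟩
  | succ n ih =>
    intro f hf
    obtain ⟨t, ht, htf⟩ := ih (fun k => f (k + 1)) (fun k => hf _)
    let t' : ℕ → ℝ := fun k => Nat.casesOn k (cH (f 0) (t 0))
      (fun k => Nat.casesOn k (yH (f 0) (t 0)) (fun k => t (k + 1)))
    have hS : S t' = t := by
      funext k
      cases k with
      | zero => exact xF_cH (ht 0).1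
      | succ k => rfl
    refine ⟨t', ?_, ?_⟩
    · intro k
      match k with
      | 0 => exact cH_mem (hf 0) (ht 0)
      | 1 => exact yH_mem (hf 0) (ht 0)
      | (k+2) => exact ht _
    · intro k hk
      cases k with
      | zero => exact fF_cH (ht 0).1
      | succ k => rw [Gr_succ, hS]; exact htf k (by omega)

/-- the transducer as a map of cubes -/
def Gc (t : ℕ → I) : ℕ → J := fun k => ⟨Gr (fun n => (t n : ℝ)) k, Gr_mem (fun n => (t n).2) k⟩

lemma Gc_coe (t : ℕ → I) (k : ℕ) : (Gc t k : ℝ) = Gr (fun n => (t n : ℝ)) k := rfl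

lemma continuous_Gc : Continuous Gc := by
  refine continuous_pi fun k => ?_
  refine Continuous.subtype_mk ?_ _
  exact (continuous_Gr k).comp (continuous_pi fun n => continuous_subtype_val.comp (continuous_apply n))

lemma Gc_injective : Function.Injective Gc := by
  intro t t' h
  have := Gr_inj (t := fun n => (t n : ℝ)) (t' := fun n => (t' n : ℝ)) (fun n => (t n).2)
    (fun n => (t' n).2) (fun k => congrArg Subtype.val (congrFun h k))
  funext n
  exact Subtype.ext (congrFun this n)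

lemma Gc_surjective : Function.Surjective Gc := by
  intro f
  have hcl : IsClosed (range Gc) := (isCompact_range continuous_Gc).isClosed
  choose t ht htf using fun n => Gr_surj_fin n (fun k => (f k : ℝ)) (fun k => (f k).2)
  have : f ∈ range Gc := by
    refine hcl.mem_of_tendsto (f := fun n => Gc (fun k => ⟨t n k, ht n k⟩)) (b := atTop) ?_
      (Eventually.of_forall fun n => mem_range_self _)
    rw [tendsto_pi_nhds]
    intro k
    refine tendsto_const_nhds.congr' ?_
    filter_upwards [eventually_gt_atTop k] with n hn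
    exact Subtype.ext (htf n k hn).symm
  exact this

/-- The homeomorphism `G : [0,1]^ℕ ≃ₜ [-1,1]^ℕ`. -/
def G : (ℕ → I) ≃ₜ (ℕ → J) :=
  Continuous.homeoOfEquivCompactToT2 (f := Equiv.ofBijective Gc ⟨Gc_injective, Gc_surjective⟩)
    continuous_Gc

lemma G_apply (t : ℕ → I) : G t = Gc t := rfl

lemma G_coe (t : ℕ → I) (k : ℕ) : (G t k : ℝ) = Gr (fun n => (t n : ℝ)) k := rfl

/-- on the face `t 0 = 0` the homeomorphism is the shift -/
lemma Gr_face {t : ℕ → ℝ} (ht : ∀ k, t k ∈ Icc (0:ℝ) 1) (h0 : t 0 = 0) (k : ℕ) :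
    Gr t k = t (k + 1) := by
  have hst : ∀ n, S^[n] t 0 = 0 := by
    intro n
    induction n with
    | zero => exact h0
    | succ n ih =>
      rw [Function.iterate_succ_apply', S_zero, xF, ih, mul_zero]
      exact min_eq_right (S_iter_mem ht n 1).1
  rw [Gr, hst k, show (1:ℕ) = 0 + 1 from rfl, S_iter_succ, fF]
  have := (ht (k + 0 + 1)).1
  rw [show k + 0 + 1 = k + 1 from rfl] at *
  rw [mul_zero, neg_zero, sub_zero, max_eq_left (by linarith), min_eq_left (by linarith)]

lemma G_face {t : ℕ → I} (h0 : (t 0 : ℝ) = 0) (k : ℕ) : (G t k : ℝ) = t (k + 1) := by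
  rw [G_coe]; exact Gr_face (fun n => (t n).2) h0 k

/-- if all entries of the image are nonnegative then the initial state is `0` -/
lemma Gr_nonneg_imp {t : ℕ → ℝ} (ht : ∀ k, t k ∈ Icc (0:ℝ) 1) (h : ∀ k, 0 ≤ Gr t k) : t 0 = 0 := by
  let t' : ℕ → ℝ := fun k => Nat.casesOn k 0 (fun k => Gr t k)
  have ht' : ∀ k, t' k ∈ Icc (0:ℝ) 1 := by
    intro k
    cases k with
    | zero => simp [t']
    | succ k => exact ⟨h k, (Gr_mem ht k).2⟩
  have : t = t' := Gr_inj ht ht' (fun k => (Gr_face ht' rfl k).symm)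
  rw [this]
  rfl

/-- bounds: the image of `[0,r]^ℕ` lies in `[-r,r]^ℕ` -/
lemma Gr_bound {t : ℕ → ℝ} {r : ℝ} (ht : ∀ k, t k ∈ Icc (0:ℝ) r) (k : ℕ) :
    Gr t k ∈ Icc (-r) r := by
  have hst : ∀ n, S^[n] t 0 ∈ Icc (0:ℝ) r := by
    intro n
    induction n with
    | zero => exact ht 0
    | succ n ih =>
      rw [Function.iterate_succ_apply', S_zero, xF, show (1:ℕ) = 0 + 1 from rfl, S_iter_succ]
      exact ⟨le_min (ht _).1 (by linarith [ih.1]), (min_le_left _ _).trans (ht _).2⟩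
  have h1 := hst k
  rw [Gr, show (1:ℕ) = 0 + 1 from rfl, S_iter_succ, fF]
  have h2 := ht (k + 0 + 1)
  constructor
  · exact le_min (by linarith [h2.1, h1.1, h1.2]) (le_max_of_le_right (by linarith [h1.2]))
  · exact (min_le_left _ _).trans h2.2

lemma Gr_one {t : ℕ → ℝ} (ht : ∀ k, t k ∈ Icc (0:ℝ) 1) (h1 : t 0 = 1) : Gr t 0 = -1 := by
  rw [Gr_zero, fF, h1]
  have := ht 1
  rw [max_eq_right (by linarith [this.2]), min_eq_right (by linarith [this.1])]

end

end Pool.Agent.H236_QM
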