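import Pool.Agent.H236_QM.Klee

/-!
# Gluing along regular covers by Hilbert cubes
-/

set_option autoImplicit false
set_option linter.unusedSectionVars false

namespace Pool.Agent.H236_QM

open Set Filter Topology

noncomputable section

/-- the intersection of the members of a cover indexed by `σ` -/
def cell {V M : Type*} (C : V → Set M) (σ : Finset V) : Set M := {x | ∀ v ∈ σ, x ∈ C v}

/-- no two members of `σ` are far -/
def Clq {V : Type*} (far : V → V → Prop) (σ : Finset V) : Prop :=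
  σ.Nonempty ∧ ∀ u ∈ σ, ∀ v ∈ σ, ¬ far u v

/-- the vertices of the link -/
def Lks {V : Type*} (far : V → V → Prop) (σ : Finset V) : Set V :=
  {w | w ∉ σ ∧ ∀ v ∈ σ, ¬ far v w}

/-- A regular system of Hilbert cubes: closed compact sets `C v`, far ones disjoint, and all the
nonempty intersections are Hilbert cubes in which the smaller intersections lie in finitely many
faces. -/
structure Sys {V M : Type*} [TopologicalSpace M] (far : V → V → Prop) (C : V → Set M) : Prop where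
  closed : ∀ v, IsClosed (C v)
  compact : ∀ v, IsCompact (C v)
  disj : ∀ u v, far u v → ∀ x, x ∈ C u → x ∉ C v
  tame : ∀ σ, Clq far σ → ∃ (φ : cell C σ ≃ₜ (ℕ → I)) (F : Finset ℕ),
    ∀ x : cell C σ, ∀ w, w ∉ σ → (x : M) ∈ C w → ∃ i ∈ F, (φ x i : ℝ) = 0

section

variable {V M M' : Type*} [TopologicalSpace M] [TopologicalSpace M'] {far : V → V → Prop}
  {C : V → Set M} {B : V → Set M'}

lemma cell_mono {σ τ : Finset V} (h : σ ⊆ τ) : cell C τ ⊆ cell C σ := fun _ hx v hv => hx v (h hv)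

lemma Sys.isClosed_cell (hC : Sys far C) (σ : Finset V) : IsClosed (cell C σ) := by
  have : cell C σ = ⋂ v ∈ σ, C v := by ext x; simp [cell]
  rw [this]
  exact isClosed_biInter fun v _ => hC.closed v

lemma Sys.clq_of_mem (hC : Sys far C) {σ : Finset V} (hσ : σ.Nonempty) {x : M}
    (hx : x ∈ cell C σ) : Clq far σ :=
  ⟨hσ, fun u hu v hv h => hC.disj u v h x (hx u hu) (hx v hv)⟩

lemma cell_union [DecidableEq V] {σ τ : Finset V} {x : M} (h1 : x ∈ cell C σ)
    (h2 : x ∈ cell C τ) : x ∈ cell C (σ ∪ τ) := fun v hv =>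
  (Finset.mem_union.mp hv).elim (h1 v) (h2 v)

lemma Sys.isCompact_cell (hC : Sys far C) {σ : Finset V} (hσ : σ.Nonempty) :
    IsCompact (cell C σ) := by
  obtain ⟨v, hv⟩ := hσ
  exact (hC.compact v).of_isClosed_subset (hC.isClosed_cell σ) fun x hx => hx v hv

/-- `g` maps the cell of `M` bijectively onto the cell of `M'` -/
def Good (C : V → Set M) (B : V → Set M') (σ : Finset V) (g : M → M') : Prop :=
  ContinuousOn g (cell C σ) ∧ BijOn g (cell C σ) (cell B σ)

variable (hC : Sys far C) (hB : Sys far B) (hlf : ∀ v, {w | ¬ far v w}.Finite)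

include hlf in
lemma Lks_finite {σ : Finset V} (hσ : σ.Nonempty) : (Lks far σ).Finite := by
  obtain ⟨v, hv⟩ := hσ
  exact (hlf v).subset fun w hw => hw.2 v hv

/-- the set of the properties of the family above `σ` -/
def Above (far : V → V → Prop) (C : V → Set M) (B : V → Set M') (h : Finset V → M → M')
    (σ : Finset V) : Prop :=
  Good C B σ (h σ) ∧ ∀ τ, Clq far τ → σ ⊂ τ → EqOn (h σ) (h τ) (cell C τ)

include hC hB in
lemma inj_aux {h : Finset V → M → M'} {P : Finset V → Prop} (hP : ∀ σ τ, P σ → σ ⊆ τ → P τ)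
    (hh : ∀ σ, Clq far σ → P σ → Above far C B h σ) {σ τ : Finset V} (hσ : Clq far σ)
    (hτ : Clq far τ) (pσ : P σ) (pτ : P τ) {x y : M} (hx : x ∈ cell C σ) (hy : y ∈ cell C τ)
    (hxy : h σ x = h τ y) : x = y := by
  classical
  have hz1 : h σ x ∈ cell B σ := (hh σ hσ pσ).1.2.mapsTo hx
  have hz2 : h σ x ∈ cell B τ := hxy ▸ (hh τ hτ pτ).1.2.mapsTo hy
  have hz : h σ x ∈ cell B (σ ∪ τ) := cell_union hz1 hz2
  have hρ : Clq far (σ ∪ τ) := hB.clq_of_mem (hσ.1.mono Finset.subset_union_left) hz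
  have pρ : P (σ ∪ τ) := hP σ _ pσ Finset.subset_union_left
  obtain ⟨x', hx', hxe⟩ := (hh _ hρ pρ).1.2.surjOn hz
  have key : ∀ ρ' , Clq far ρ' → P ρ' → ρ' ⊆ σ ∪ τ → h ρ' x' = h σ x := by
    intro ρ' h1 h2 h3
    rcases h3.eq_or_ssubset with h4 | h4
    · rw [h4, hxe]
    · rw [(hh ρ' h1 h2).2 _ hρ h4 hx', hxe]
  have e1 : x' = x := (hh σ hσ pσ).1.2.injOn (cell_mono Finset.subset_union_left hx') hx
    (key σ hσ pσ Finset.subset_union_left)
  have e2 : x' = y := (hh τ hτ pτ).1.2.injOn (cell_mono Finset.subset_union_right hx') hy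
    ((key τ hτ pτ Finset.subset_union_right).trans hxy)
  exact e1.symm.trans e2

include hC in
lemma eq_aux {h : Finset V → M → M'} {P : Finset V → Prop} (hP : ∀ σ τ, P σ → σ ⊆ τ → P τ)
    (hh : ∀ σ, Clq far σ → P σ → Above far C B h σ) {σ τ : Finset V} (hσ : Clq far σ)
    (hτ : Clq far τ) (pσ : P σ) (pτ : P τ) {x : M} (hx : x ∈ cell C σ) (hy : x ∈ cell C τ) :
    h σ x = h τ x := by
  classical
  have hz : x ∈ cell C (σ ∪ τ) := cell_union hx hy
  have hρ : Clq far (σ ∪ τ) := hC.clq_of_mem (hσ.1.mono Finset.subset_union_left) hz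
  have key : ∀ ρ' , Clq far ρ' → P ρ' → ρ' ⊆ σ ∪ τ → h ρ' x = h (σ ∪ τ) x := by
    intro ρ' h1 h2 h3
    rcases h3.eq_or_ssubset with h4 | h4
    · rw [h4]
    · rw [(hh ρ' h1 h2).2 _ hρ h4 hz]
  rw [key σ hσ pσ Finset.subset_union_left, key τ hτ pτ Finset.subset_union_right]

include hC hB hlf in
/-- the extension step -/
lemma extend_step [Nonempty M'] (h : Finset V → M → M') {σ : Finset V} (hσ : Clq far σ)
    (hh : ∀ τ, Clq far τ → σ ⊂ τ → Above far C B h τ) :
    ∃ g : M → M', Good C B σ g ∧ ∀ τ, Clq far τ → σ ⊂ τ → EqOn g (h τ) (cell C τ) := by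
  classical
  have hP : ∀ ρ τ : Finset V, σ ⊂ ρ → ρ ⊆ τ → σ ⊂ τ := fun ρ τ h1 h2 => h1.trans_subset h2
  set D : Set M := {x | x ∈ cell C σ ∧ ∃ w, w ∉ σ ∧ x ∈ C w} with hD
  have hins : ∀ x ∈ D, ∀ w, w ∉ σ → x ∈ C w → x ∈ cell C (insert w σ) ∧ Clq far (insert w σ) ∧
      σ ⊂ insert w σ := by
    intro x hx w hw hxw
    have h1 : x ∈ cell C (insert w σ) := by
      intro v hv
      rcases Finset.mem_insert.mp hv with rfl | hv
      · exact hxw
      · exact hx.1 v hv
    exact ⟨h1, hC.clq_of_mem (Finset.insert_nonempty _ _) h1, Finset.ssubset_insert hw⟩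
  let g0 : M → M' := fun x => if hx : x ∈ D then h (insert (Classical.choose hx.2) σ) x
    else Classical.arbitrary M'
  have hg0 : ∀ τ, Clq far τ → σ ⊂ τ → ∀ x ∈ cell C τ, x ∈ D ∧ g0 x = h τ x := by
    intro τ hτ hστ x hx
    obtain ⟨w, hw, hwσ⟩ := Finset.exists_of_ssubset hστ
    have hxD : x ∈ D := ⟨cell_mono hστ.subset hx, w, hwσ, hx w hw⟩
    refine ⟨hxD, ?_⟩
    have hch := Classical.choose_spec hxD.2
    obtain ⟨h1, h2, h3⟩ := hins x hxD _ hch.1 hch.2
    simp only [g0, dif_pos hxD]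
    exact eq_aux hC hP hh h2 hτ h3 hστ h1 hx
  have hDcl : ∀ x ∈ D, ∃ w ∈ Lks far σ, x ∈ cell C (insert w σ) ∧ Clq far (insert w σ) ∧
      σ ⊂ insert w σ := by
    intro x hx
    obtain ⟨w, hw, hxw⟩ := hx.2
    obtain ⟨h1, h2, h3⟩ := hins x hx w hw hxw
    exact ⟨w, ⟨hw, fun v hv => h2.2 v (Finset.mem_insert_of_mem hv) w (Finset.mem_insert_self _ _)⟩,
      h1, h2, h3⟩
  have hLfin := Lks_finite (far := far) hlf hσ.1
  have hDeq : D = ⋃ w : Lks far σ, cell C (insert (w : V) σ) := by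
    ext x
    simp only [mem_iUnion]
    constructor
    · intro hx
      obtain ⟨w, hw, h1, -, -⟩ := hDcl x hx
      exact ⟨⟨w, hw⟩, h1⟩
    · rintro ⟨⟨w, hw⟩, hx⟩
      exact ⟨cell_mono (Finset.subset_insert _ _) hx, w, hw.1, hx w (Finset.mem_insert_self _ _)⟩
  have hfin : Finite (Lks far σ) := hLfin
  have hDclosed : IsClosed D := by
    rw [hDeq]
    exact isClosed_iUnion_of_finite fun w => hC.isClosed_cell _
  have hg0c : ContinuousOn g0 D := by
    rw [hDeq]
    refine (locallyFinite_of_finite _).continuousOn_iUnion (fun w => hC.isClosed_cell _) fun w => ?_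
    by_cases hcl : Clq far (insert (w : V) σ)
    · have h3 : σ ⊂ insert (w : V) σ := Finset.ssubset_insert w.2.1
      exact (hh _ hcl h3).1.1.congr fun x hx => (hg0 _ hcl h3 x hx).2
    · have : cell C (insert (w : V) σ) = ∅ := by
        ext x
        simp only [mem_empty_iff_false, iff_false]
        intro hx
        exact hcl (hC.clq_of_mem (Finset.insert_nonempty _ _) hx)
      rw [this]
      exact continuousOn_empty _
  have hg0i : ∀ x ∈ D, ∀ y ∈ D, g0 x = g0 y → x = y := by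
    intro x hx y hy hxy
    obtain ⟨w, -, h1, h2, h3⟩ := hDcl x hx
    obtain ⟨w', -, h1', h2', h3'⟩ := hDcl y hy
    rw [(hg0 _ h2 h3 x h1).2, (hg0 _ h2' h3' y h1').2] at hxy
    exact inj_aux hC hB hP hh h2 h2' h3 h3' h1 h1' hxy
  have hg0B : ∀ x ∈ D, g0 x ∈ cell B σ ∧ ∃ w, w ∉ σ ∧ g0 x ∈ B w := by
    intro x hx
    obtain ⟨w, hw, h1, h2, h3⟩ := hDcl x hx
    rw [(hg0 _ h2 h3 x h1).2]
    have := (hh _ h2 h3).1.2.mapsTo h1
    exact ⟨cell_mono (Finset.subset_insert _ _) this, w, hw.1, this w (Finset.mem_insert_self _ _)⟩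
  obtain ⟨φ, F, hφ⟩ := hC.tame σ hσ
  obtain ⟨φ', F', hφ'⟩ := hB.tame σ hσ
  have hDcomp : IsCompact D := (hC.isCompact_cell hσ.1).of_isClosed_subset hDclosed fun x hx => hx.1
  have : CompactSpace D := isCompact_iff_compactSpace.mp hDcomp
  let i : D → (ℕ → I) := fun x => φ ⟨x, x.2.1⟩
  let j : D → (ℕ → I) := fun x => φ' ⟨g0 x, (hg0B x x.2).1⟩
  have hi : Continuous i := φ.continuous.comp (Continuous.subtype_mk continuous_subtype_val _)
  have hj : Continuous j := φ'.continuous.comp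
    (Continuous.subtype_mk (continuousOn_iff_continuous_domRestrict.mp hg0c) _)
  have hii : Function.Injective i := by
    intro x y hxy
    have := φ.injective hxy
    have h2 : (x : M) = y := congrArg (Subtype.val : cell C σ → M) this
    exact Subtype.ext h2
  have hji : Function.Injective j := by
    intro x y hxy
    have := φ'.injective hxy
    have h2 : g0 x = g0 y := congrArg (Subtype.val : cell B σ → M') this
    exact Subtype.ext (hg0i x x.2 y y.2 h2)
  obtain ⟨H, hH⟩ := extend_faces i j hi hj hii hji F F'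
    (fun x => by obtain ⟨w, hw, hxw⟩ := x.2.2; exact hφ _ w hw hxw)
    (fun x => by obtain ⟨-, w, hw, hxw⟩ := hg0B x x.2; exact hφ' _ w hw hxw)
  let Γ : cell C σ ≃ₜ cell B σ := (φ.trans H).trans φ'.symm
  let g : M → M' := fun x => if hx : x ∈ cell C σ then (Γ ⟨x, hx⟩ : M') else Classical.arbitrary M'
  have hgΓ : ∀ x (hx : x ∈ cell C σ), g x = Γ ⟨x, hx⟩ := fun x hx => dif_pos hx
  have hgc : ContinuousOn g (cell C σ) := by
    rw [continuousOn_iff_continuous_domRestrict]
    have : (cell C σ).domRestrict g = fun x => (Γ x : M') := by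
      funext x; exact hgΓ x x.2
    rw [this]
    exact continuous_subtype_val.comp Γ.continuous
  have hgb : BijOn g (cell C σ) (cell B σ) := by
    refine ⟨fun x hx => ?_, fun x hx y hy hxy => ?_, fun z hz => ?_⟩
    · rw [hgΓ x hx]; exact (Γ _).2
    · rw [hgΓ x hx, hgΓ y hy] at hxy
      exact congrArg Subtype.val (Γ.injective (Subtype.ext hxy))
    · refine ⟨Γ.symm ⟨z, hz⟩, (Γ.symm ⟨z, hz⟩).2, ?_⟩
      rw [hgΓ _ (Γ.symm ⟨z, hz⟩).2]
      have : (⟨(Γ.symm ⟨z, hz⟩ : cell C σ), (Γ.symm ⟨z, hz⟩).2⟩ : cell C σ) = Γ.symm ⟨z, hz⟩ := rfl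
      rw [this, Homeomorph.apply_symm_apply]
  refine ⟨g, ⟨hgc, hgb⟩, fun τ hτ hστ x hx => ?_⟩
  obtain ⟨hxD, hxg⟩ := hg0 τ hτ hστ x hx
  rw [hgΓ x hxD.1, ← hxg]
  have e1 : H (φ ⟨x, hxD.1⟩) = φ' ⟨g0 x, (hg0B x hxD).1⟩ := hH ⟨x, hxD⟩
  change ((φ'.symm (H (φ ⟨x, hxD.1⟩)) : cell B σ) : M') = g0 x
  rw [e1, Homeomorph.symm_apply_apply]

include hC hB hlf in
/-- the compatible family -/
lemma exists_family [Nonempty M'] :
    ∃ h : Finset V → M → M', ∀ σ, Clq far σ → Above far C B h σ := by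
  classical
  let m : Finset V → ℕ := fun σ => (Lks far σ).ncard
  have hm : ∀ σ τ, Clq far σ → Clq far τ → σ ⊂ τ → m τ < m σ := by
    intro σ τ hσ hτ hστ
    refine Set.ncard_lt_ncard ?_ (Lks_finite (far := far) hlf hσ.1)
    refine ⟨fun w hw => ⟨fun h => hw.1 (hστ.subset h), fun v hv => hw.2 v (hστ.subset hv)⟩, ?_⟩
    intro hsub
    obtain ⟨w, hw, hwσ⟩ := Finset.exists_of_ssubset hστ
    have : w ∈ Lks far σ := ⟨hwσ, fun v hv => hτ.2 v (hστ.subset hv) w hw⟩
    exact (hsub this).1 hw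
  let step : ∀ σ : Finset V, (∀ τ : Finset V, m τ < m σ → M → M') → M → M' := fun σ rec =>
    if H : ∃ g : M → M', Good C B σ g ∧ ∀ τ, Clq far τ → σ ⊂ τ →
        EqOn g ((fun τ => if h : m τ < m σ then rec τ h else fun _ => Classical.arbitrary M') τ)
          (cell C τ)
    then Classical.choose H else fun _ => Classical.arbitrary M'
  let h : Finset V → M → M' := (measure m).wf.fix (C := fun _ => M → M') step
  have hfix : ∀ σ, h σ = step σ (fun τ _ => h τ) := fun σ => WellFounded.fix_eq _ _ _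
  refine ⟨h, fun σ => ?_⟩
  induction' hn : m σ using Nat.strong_induction_on with n ih generalizing σ
  intro hσ
  have hh : ∀ τ, Clq far τ → σ ⊂ τ → Above far C B h τ := fun τ hτ hστ =>
    ih (m τ) (hn ▸ hm σ τ hσ hτ hστ) τ rfl hτ
  obtain ⟨g, hg1, hg2⟩ := extend_step hC hB hlf h hσ hh
  have H : ∃ g : M → M', Good C B σ g ∧ ∀ τ, Clq far τ → σ ⊂ τ →
      EqOn g ((fun τ => if _h : m τ < m σ then h τ else fun _ => Classical.arbitrary M') τ)
        (cell C τ) := by
    refine ⟨g, hg1, fun τ hτ hστ => ?_⟩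
    simp only [dif_pos (hm σ τ hσ hτ hστ)]
    exact hg2 τ hτ hστ
  have e : h σ = Classical.choose H := by
    rw [hfix σ]
    exact dif_pos H
  have hspec := Classical.choose_spec H
  rw [← e] at hspec
  refine ⟨hspec.1, fun τ hτ hστ => ?_⟩
  have := hspec.2 τ hτ hστ
  simp only [dif_pos (hm σ τ hσ hτ hστ)] at this
  exact this

include hC hB hlf in
/-- **The gluing theorem.** -/
theorem exists_embedding [Nonempty M'] [T2Space M'] (hirr : ∀ v, ¬ far v v)
    (hcov : ∀ x, ∃ v, x ∈ C v) (hCf : LocallyFinite C)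
    (hBf : ∀ y v, y ∈ B v → ∃ O : Set M', IsOpen O ∧ y ∈ O ∧ {u | (B u ∩ O).Nonempty}.Finite) :
    ∃ f : M → M', IsEmbedding f ∧ range f = ⋃ v, B v := by
  classical
  obtain ⟨h, hh⟩ := exists_family hC hB hlf
  have hsing : ∀ v, Clq far {v} := fun v => ⟨Finset.singleton_nonempty v, by
    intro a ha b hb
    rw [Finset.mem_singleton] at ha hb
    subst ha; subst hb
    exact hirr _⟩
  have hcell : ∀ v, cell C {v} = C v := fun v => by ext x; simp [cell]
  have hcellB : ∀ v, cell B {v} = B v := fun v => by ext x; simp [cell]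
  choose c hc using hcov
  let f : M → M' := fun x => h {c x} x
  have hP : ∀ σ τ : Finset V, (fun _ => True) σ → σ ⊆ τ → (fun _ => True) τ := fun _ _ _ _ => trivial
  have hh' : ∀ σ, Clq far σ → (fun _ : Finset V => True) σ → Above far C B h σ := fun σ hσ _ => hh σ hσ
  have hfv : ∀ v, ∀ x ∈ C v, f x = h {v} x := by
    intro v x hx
    exact eq_aux hC hP hh' (hsing _) (hsing v) trivial trivial
      (by rw [hcell]; exact hc x) (by rw [hcell]; exact hx)
  have hfB : ∀ v, ∀ x ∈ C v, f x ∈ B v := by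
    intro v x hx
    rw [hfv v x hx, ← hcellB v]
    exact (hh _ (hsing v)).1.2.mapsTo (by rw [hcell]; exact hx)
  have hinj : Function.Injective f := by
    intro x y hxy
    exact inj_aux hC hB hP hh' (hsing (c x)) (hsing (c y)) trivial trivial
      (by rw [hcell]; exact hc x) (by rw [hcell]; exact hc y) hxy
  have hfcv : ∀ v, ContinuousOn f (C v) := by
    intro v
    have := (hh _ (hsing v)).1.1
    rw [hcell] at this
    exact this.congr (hfv v)
  have hcont : Continuous f := by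
    refine hCf.continuous ?_ hC.closed hfcv
    ext x
    simp only [mem_iUnion, mem_univ, iff_true]
    exact ⟨c x, hc x⟩
  have hrange : range f = ⋃ v, B v := by
    ext y
    simp only [mem_range, mem_iUnion]
    constructor
    · rintro ⟨x, rfl⟩
      exact ⟨c x, hfB _ x (hc x)⟩
    · rintro ⟨v, hv⟩
      rw [← hcellB v] at hv
      obtain ⟨x, hx, hxy⟩ := (hh _ (hsing v)).1.2.surjOn hv
      rw [hcell] at hx
      exact ⟨x, (hfv v x hx).trans hxy⟩
  refine ⟨f, ⟨?_, hinj⟩, hrange⟩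
  rw [isInducing_iff_nhds]
  intro x
  refine le_antisymm hcont.continuousAt.tendsto.le_comap ?_
  intro U hU
  obtain ⟨U', hU'U, hU'o, hxU'⟩ := mem_nhds_iff.mp hU
  obtain ⟨O, hO, hfO, hOfin⟩ := hBf (f x) (c x) (hfB _ x (hc x))
  rw [mem_comap]
  let N : Set M' := O \ ⋃ v ∈ {u | (B u ∩ O).Nonempty}, f '' (C v \ U')
  have hNopen : IsOpen N := by
    refine hO.sdiff ?_
    refine hOfin.isClosed_biUnion fun v _ => ?_
    have : IsCompact (C v \ U') := (hC.compact v).diff hU'o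
    exact (this.image_of_continuousOn ((hfcv v).mono sdiff_subset)).isClosed
  refine ⟨N, hNopen.mem_nhds ⟨hfO, ?_⟩, ?_⟩
  · simp only [mem_iUnion, not_exists]
    rintro v _ ⟨y, hy, hyx⟩
    exact hy.2 (hinj hyx ▸ hxU')
  · intro y hy
    apply hU'U
    by_contra hyU
    apply hy.2
    simp only [mem_iUnion]
    exact ⟨c y, ⟨f y, hfB _ y (hc y), hy.1⟩, y, ⟨hc y, hyU⟩, rfl⟩

end

end

end Pool.Agent.H236_QM
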