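import Mathlib

/-!
# A triangular system
-/

set_option autoImplicit false

namespace Pool.Agent.H236_QM

open Set Filter Topology

noncomputable section

section fold

lemma continuous_fold_max {X ι : Type*} [TopologicalSpace X] [DecidableEq ι] (s : Finset ι) (b : ℝ)
    (w : X → ι → ℝ) (hw : ∀ i, Continuous fun x => w x i) :
    Continuous fun x => s.fold max b (w x) := by
  induction s using Finset.induction_on with
  | empty => simpa using continuous_const
  | insert i s hi ih =>
    simp only [Finset.fold_insert hi]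
    exact (hw i).max ih

lemma fold_max_le_iff {ι : Type*} (s : Finset ι) (b c : ℝ) (w : ι → ℝ) :
    s.fold max b w ≤ c ↔ b ≤ c ∧ ∀ i ∈ s, w i ≤ c := Finset.fold_max_le c

lemma le_fold_max_base {ι : Type*} (s : Finset ι) (b : ℝ) (w : ι → ℝ) :
    b ≤ s.fold max b w := ((fold_max_le_iff s b _ w).mp le_rfl).1

lemma le_fold_max_of_mem {ι : Type*} (s : Finset ι) (b : ℝ) (w : ι → ℝ) {i : ι} (hi : i ∈ s) :
    w i ≤ s.fold max b w := ((fold_max_le_iff s b _ w).mp le_rfl).2 i hi

lemma exists_of_lt_fold_max {ι : Type*} (s : Finset ι) (b c : ℝ) (w : ι → ℝ) (hb : b ≤ c)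
    (h : c < s.fold max b w) : ∃ i ∈ s, c < w i := by
  by_contra hcon
  push Not at hcon
  exact absurd ((fold_max_le_iff s b c w).mpr ⟨hb, hcon⟩) (not_le.mpr h)

end fold

variable {ι : Type*} (r : ι → ℕ) (hr : Function.Injective r) (R : ι → ι → Prop) (δ : ι → ℝ)

/-- the earlier related indices -/
def Tset (i : ι) : Finset ι := by
  classical
  exact ((Finset.range (r i)).preimage r hr.injOn).filter (fun j => R j i)

lemma mem_Tset {i j : ι} : j ∈ Tset r hr R i ↔ r j < r i ∧ R j i := by
  classical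
  simp [Tset]

/-- the lower bound -/
def low (f : ι → ℝ) (i : ι) : ℝ := (Tset r hr R i).fold max (-δ i) (fun j => - f j)

lemma low_congr {f g : ι → ℝ} {i : ι} (h : ∀ j, r j < r i → f j = g j) :
    low r hr R δ f i = low r hr R δ g i := by
  unfold low
  exact Finset.fold_congr fun j hj => by rw [h j (mem_Tset r hr R |>.mp hj).1]

lemma low_le_iff {f : ι → ℝ} {i : ι} {c : ℝ} :
    low r hr R δ f i ≤ c ↔ -δ i ≤ c ∧ ∀ j, r j < r i → R j i → - f j ≤ c := by
  unfold low
  rw [fold_max_le_iff]
  constructor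
  · rintro ⟨h1, h2⟩
    exact ⟨h1, fun j hj hR => h2 j ((mem_Tset r hr R).mpr ⟨hj, hR⟩)⟩
  · rintro ⟨h1, h2⟩
    exact ⟨h1, fun j hj => h2 j ((mem_Tset r hr R).mp hj).1 ((mem_Tset r hr R).mp hj).2⟩

lemma neg_le_low (f : ι → ℝ) (i : ι) : -δ i ≤ low r hr R δ f i := le_fold_max_base _ _ _

lemma neg_le_low_of {f : ι → ℝ} {i j : ι} (h : r j < r i) (hR : R j i) :
    - f j ≤ low r hr R δ f i :=
  le_fold_max_of_mem _ _ (fun j => - f j) ((mem_Tset r hr R).mpr ⟨h, hR⟩)

lemma continuous_low {X : Type*} [TopologicalSpace X] (f : X → ι → ℝ)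
    (hf : ∀ i, Continuous fun x => f x i) (i : ι) :
    Continuous fun x => low r hr R δ (f x) i := by
  classical
  exact continuous_fold_max _ _ (fun x j => - f x j) (fun j => (hf j).neg)

lemma exists_solution (t : ι → ℝ) : ∃ f : ι → ℝ, ∀ i,
    f i = low r hr R δ f i + (1 - low r hr R δ f i) * t i := by
  classical
  let step : ∀ i : ι, (∀ j : ι, r j < r i → ℝ) → ℝ := fun i rec =>
    low r hr R δ (fun j => if h : r j < r i then rec j h else 0) i +
      (1 - low r hr R δ (fun j => if h : r j < r i then rec j h else 0) i) * t i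
  let f : ι → ℝ := (measure r).wf.fix (C := fun _ => ℝ) step
  refine ⟨f, fun i => ?_⟩
  have h1 : f i = step i (fun j _ => f j) := WellFounded.fix_eq _ _ _
  have h2 : low r hr R δ (fun j => if r j < r i then f j else 0) i = low r hr R δ f i :=
    low_congr r hr R δ fun j hj => by simp [hj]
  rw [h1]
  simp only [step, dite_eq_ite]
  rw [h2]

lemma unique_solution (t : ι → ℝ) {f g : ι → ℝ}
    (hf : ∀ i, f i = low r hr R δ f i + (1 - low r hr R δ f i) * t i)
    (hg : ∀ i, g i = low r hr R δ g i + (1 - low r hr R δ g i) * t i) : f = g := by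
  funext i
  induction' h : r i using Nat.strong_induction_on with n ih generalizing i
  have : low r hr R δ f i = low r hr R δ g i :=
    low_congr r hr R δ fun j hj => ih (r j) (h ▸ hj) j rfl
  rw [hf i, hg i, this]

end

end Pool.Agent.H236_QM
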