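import Pool.Agent.H236_QM.Klee
import Pool.Agent.H236_QM.Tri

/-!
# Cubical cones over flag complexes times the Hilbert cube

For a finite set `L` with a symmetric irreflexive relation `far`, the space of all
`z : L → ℕ → [0,1]` such that far elements do not both have a nonzero `0`-th coordinate is
homeomorphic to the cube `L → ℕ → [0,1]`.
-/

set_option autoImplicit false

namespace Pool.Agent.H236_QM

open Set Filter Topology

noncomputable section

/-- the bound of the negative part of the coordinate `k` -/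
def bd (k : ℕ) : ℝ := (1/2 : ℝ) ^ (k + 1)

lemma bd_pos (k : ℕ) : 0 < bd k := by unfold bd; positivity
lemma bd_le (k : ℕ) : bd k ≤ 1/2 := by
  unfold bd
  calc (1/2 : ℝ) ^ (k + 1) ≤ (1/2 : ℝ) ^ 1 :=
        pow_le_pow_of_le_one (by norm_num) (by norm_num) (by omega)
    _ = 1/2 := by norm_num

/-- scaling of the negative part -/
def sc (k : ℕ) (x : ℝ) : ℝ := max x (bd k * x)

lemma sc_nonneg {k : ℕ} {x : ℝ} (hx : 0 ≤ x) : sc k x = x := by
  unfold sc
  exact max_eq_left (by nlinarith [bd_pos k, bd_le k])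

lemma sc_nonpos {k : ℕ} {x : ℝ} (hx : x ≤ 0) : sc k x = bd k * x := by
  unfold sc
  exact max_eq_right (by nlinarith [bd_pos k, bd_le k])

lemma sc_nonneg_iff {k : ℕ} {x : ℝ} : 0 ≤ sc k x ↔ 0 ≤ x := by
  constructor
  · intro h
    by_contra hx
    push Not at hx
    rw [sc_nonpos hx.le] at h
    nlinarith [bd_pos k]
  · intro h; rw [sc_nonneg h]; exact h

lemma sc_mem {k : ℕ} {x : ℝ} (hx : x ∈ Icc (-1:ℝ) 1) : sc k x ∈ Icc (-bd k) 1 := by
  unfold sc
  constructor
  · exact le_max_of_le_right (by nlinarith [bd_pos k, hx.1])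
  · exact max_le hx.2 (by nlinarith [bd_pos k, bd_le k, hx.2])

lemma sc_inj {k : ℕ} {x y : ℝ} (h : sc k x = sc k y) : x = y := by
  rcases le_total 0 x with hx | hx
  · have hy : 0 ≤ y := sc_nonneg_iff.mp (h ▸ sc_nonneg_iff.mpr hx)
    rwa [sc_nonneg hx, sc_nonneg hy] at h
  · rcases le_total 0 y with hy | hy
    · have hx' : 0 ≤ x := sc_nonneg_iff.mp (h.symm ▸ sc_nonneg_iff.mpr hy)
      rwa [sc_nonneg hx', sc_nonneg hy] at h
    · rw [sc_nonpos hx, sc_nonpos hy] at h
      exact mul_left_cancel₀ (bd_pos k).ne' h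

lemma sc_surj {k : ℕ} {g : ℝ} (hg : g ∈ Icc (-bd k) 1) : ∃ x ∈ Icc (-1:ℝ) 1, sc k x = g := by
  rcases le_total 0 g with h | h
  · exact ⟨g, ⟨by linarith, hg.2⟩, sc_nonneg h⟩
  · refine ⟨g / bd k, ⟨?_, ?_⟩, ?_⟩
    · rw [le_div_iff₀ (bd_pos k)]; linarith [hg.1]
    · rw [div_le_iff₀ (bd_pos k)]; linarith [bd_pos k]
    · rw [sc_nonpos (div_nonpos_of_nonpos_of_nonneg h (bd_pos k).le)]
      field_simp [(bd_pos k).ne']

/-- the size of the negative part of a sequence -/
def NN (g : ℕ → ℝ) : ℝ := ⨆ k, max (- g k) 0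

lemma NN_bdd {g : ℕ → ℝ} (hg : ∀ k, -bd k ≤ g k) : BddAbove (range fun k => max (- g k) 0) := by
  refine ⟨1/2, ?_⟩
  rintro _ ⟨k, rfl⟩
  exact max_le (by linarith [hg k, bd_le k]) (by norm_num)

lemma le_NN {g : ℕ → ℝ} (hg : ∀ k, -bd k ≤ g k) (k : ℕ) : - g k ≤ NN g :=
  (le_max_left _ _).trans (le_ciSup (NN_bdd hg) k)

lemma NN_nonneg {g : ℕ → ℝ} (hg : ∀ k, -bd k ≤ g k) : 0 ≤ NN g :=
  (le_max_right _ _).trans (le_ciSup (NN_bdd hg) 0)

lemma NN_le {g : ℕ → ℝ} {c : ℝ} (hc : 0 ≤ c) (h : ∀ k, - g k ≤ c) : NN g ≤ c :=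
  ciSup_le fun k => max_le (h k) hc

lemma NN_eq_zero {g : ℕ → ℝ} (h : ∀ k, 0 ≤ g k) : NN g = 0 := by
  unfold NN
  have : ∀ k, max (- g k) 0 = 0 := fun k => max_eq_right (by linarith [h k])
  simp [this]

lemma nonneg_of_NN_le {g : ℕ → ℝ} (hg : ∀ k, -bd k ≤ g k) (h : NN g ≤ 0) (k : ℕ) : 0 ≤ g k := by
  linarith [le_NN hg k]

lemma continuous_NN {X : Type*} [TopologicalSpace X] (g : X → ℕ → ℝ)
    (hg : ∀ k, Continuous fun x => g x k) (hb : ∀ x k, -bd k ≤ g x k) :
    Continuous fun x => NN (g x) := by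
  refine continuous_of_uniform_approx_of_continuous fun u hu => ?_
  obtain ⟨ε, hε, hu⟩ := Metric.mem_uniformity_dist.mp hu
  obtain ⟨n, hn⟩ := exists_pow_lt_of_lt_one hε (by norm_num : (1/2 : ℝ) < 1)
  refine ⟨fun x => (Finset.range n).fold max 0 (fun k => - g x k), ?_, fun x => hu ?_⟩
  · exact continuous_fold_max _ _ (fun x k => - g x k) (fun k => (hg k).neg)
  · have h1 : (Finset.range n).fold max 0 (fun k => - g x k) ≤ NN (g x) := by
      rw [fold_max_le_iff]
      exact ⟨NN_nonneg (hb x), fun k _ => le_NN (hb x) k⟩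
    have h0 : 0 ≤ (Finset.range n).fold max 0 (fun k => - g x k) := le_fold_max_base _ _ _
    have h2 : NN (g x) ≤ (Finset.range n).fold max 0 (fun k => - g x k) + (1/2 : ℝ) ^ n := by
      refine NN_le (by positivity) fun k => ?_
      rcases lt_or_ge k n with hk | hk
      · have := le_fold_max_of_mem (Finset.range n) 0 (fun k => - g x k) (Finset.mem_range.mpr hk)
        have h3 : (0:ℝ) ≤ (1/2 : ℝ) ^ n := by positivity
        linarith
      · have h3 : bd k ≤ (1/2 : ℝ) ^ n := by
          unfold bd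
          exact pow_le_pow_of_le_one (by norm_num) (by norm_num) (by omega)
        linarith [hb x k]
    rw [dist_comm, Real.dist_eq, abs_lt]
    constructor <;> linarith

section

variable {L : Type} [Fintype L] (far : L → L → Prop)

/-- the lower bound caused by the negative parts of far elements -/
def nu (g : L × ℕ → ℝ) (v : L) : ℝ := by
  classical
  exact (Finset.univ.filter (fun u => far u v)).fold max 0 (fun u => NN (fun k => g (u, k)))

lemma nu_nonneg (g : L × ℕ → ℝ) (v : L) : 0 ≤ nu far g v := by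
  classical
  exact le_fold_max_base _ _ _

lemma le_nu (g : L × ℕ → ℝ) {u v : L} (h : far u v) : NN (fun k => g (u, k)) ≤ nu far g v := by
  classical
  exact le_fold_max_of_mem _ _ (fun u => NN (fun k => g (u, k)))
    (Finset.mem_filter.mpr ⟨Finset.mem_univ _, h⟩)

lemma nu_le (g : L × ℕ → ℝ) {v : L} {c : ℝ} (hc : 0 ≤ c)
    (h : ∀ u, far u v → NN (fun k => g (u, k)) ≤ c) : nu far g v ≤ c := by
  classical
  unfold nu
  rw [fold_max_le_iff]
  exact ⟨hc, fun u hu => h u (Finset.mem_filter.mp hu).2⟩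

lemma exists_of_nu_pos (g : L × ℕ → ℝ) {v : L} (h : 0 < nu far g v) :
    ∃ u, far u v ∧ 0 < NN (fun k => g (u, k)) := by
  classical
  obtain ⟨u, hu, h2⟩ := exists_of_lt_fold_max _ _ _ _ le_rfl h
  exact ⟨u, (Finset.mem_filter.mp hu).2, h2⟩

lemma nu_congr {g f : L × ℕ → ℝ} (h : ∀ u, NN (fun k => g (u, k)) = NN (fun k => f (u, k)))
    (v : L) : nu far g v = nu far f v := by
  classical
  exact Finset.fold_congr fun u _ => h u

/-- the conditions on `g` -/
def GD (g : L × ℕ → ℝ) : Prop :=
  (∀ v k, g (v, k) ∈ Icc (-bd k) 1) ∧ ∀ u v, far u v → (∀ k, 0 ≤ g (u, k)) ∨ ∀ k, 0 ≤ g (v, k)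

/-- the conditions on `f` -/
def GE (f : L × ℕ → ℝ) : Prop :=
  (∀ v k, f (v, k) ∈ Icc (-bd k) 1) ∧ ∀ u v, far u v → ∀ j k, 0 ≤ f (u, j) + f (v, k)

/-- from `g` to `f` -/
def toF (g : L × ℕ → ℝ) : L × ℕ → ℝ := fun p => nu far g p.1 + (1 - nu far g p.1) * g p

/-- from `f` to `g` -/
def toG (f : L × ℕ → ℝ) : L × ℕ → ℝ := fun p => (f p - nu far f p.1) / (1 - nu far f p.1)

variable {far}

lemma nu_le_half {g : L × ℕ → ℝ} (hg : ∀ v k, -bd k ≤ g (v, k)) (v : L) : nu far g v ≤ 1/2 :=
  nu_le far g (by norm_num) fun u _ => NN_le (by norm_num) fun k => by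
    have := hg u k; have := bd_le k; linarith

lemma GD.nonneg_of_nu_pos (hs : ∀ u v, far u v → far v u) {g : L × ℕ → ℝ} (hg : GD far g)
    {v : L} (h : 0 < nu far g v) (k : ℕ) : 0 ≤ g (v, k) := by
  obtain ⟨u, hu, h2⟩ := exists_of_nu_pos far g h
  rcases hg.2 u v hu with h3 | h3
  · exact absurd (NN_eq_zero h3) h2.ne'
  · exact h3 k

lemma GE.nu_le (hs : ∀ u v, far u v → far v u) {f : L × ℕ → ℝ} (hf : GE far f)
    {v : L} (h : 0 < nu far f v) (k : ℕ) : nu far f v ≤ f (v, k) := by
  obtain ⟨u, hu, h2⟩ := exists_of_nu_pos far f h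
  have h0 : 0 ≤ f (v, k) := by
    by_contra hcon
    push Not at hcon
    have : NN (fun k => f (u, k)) = 0 := NN_eq_zero fun j => by
      have := hf.2 u v hu j k; linarith
    linarith
  refine Pool.Agent.H236_QM.nu_le far f h0 fun w hw => NN_le h0 fun j => ?_
  have := hf.2 w v hw j k
  linarith

lemma NN_toF (hs : ∀ u v, far u v → far v u) {g : L × ℕ → ℝ} (hg : GD far g) (u : L) :
    NN (fun k => toF far g (u, k)) = NN (fun k => g (u, k)) := by
  rcases (nu_nonneg far g u).eq_or_lt with h | h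
  · have : (fun k => toF far g (u, k)) = fun k => g (u, k) := by
      funext k
      simp [toF, ← h]
    rw [this]
  · have h1 := hg.nonneg_of_nu_pos hs h
    have h3 : nu far g u ≤ 1/2 := nu_le_half (fun v k => (hg.1 v k).1) u
    rw [NN_eq_zero h1, NN_eq_zero]
    intro k
    have := h1 k
    unfold toF
    simp only
    nlinarith

lemma nu_toF (hs : ∀ u v, far u v → far v u) {g : L × ℕ → ℝ} (hg : GD far g) (v : L) :
    nu far (toF far g) v = nu far g v := nu_congr far (NN_toF hs hg) v

lemma NN_toG (hs : ∀ u v, far u v → far v u) {f : L × ℕ → ℝ} (hf : GE far f) (u : L) :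
    NN (fun k => toG far f (u, k)) = NN (fun k => f (u, k)) := by
  rcases (nu_nonneg far f u).eq_or_lt with h | h
  · have : (fun k => toG far f (u, k)) = fun k => f (u, k) := by
      funext k
      simp [toG, ← h]
    rw [this]
  · have h1 := hf.nu_le hs h
    have h3 : nu far f u ≤ 1/2 := nu_le_half (fun v k => (hf.1 v k).1) u
    rw [NN_eq_zero, NN_eq_zero]
    · intro k; linarith [h1 k]
    · intro k
      unfold toG
      apply div_nonneg
      · simpa using h1 k
      · simp only; linarith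

lemma nu_toG (hs : ∀ u v, far u v → far v u) {f : L × ℕ → ℝ} (hf : GE far f) (v : L) :
    nu far (toG far f) v = nu far f v := nu_congr far (NN_toG hs hf) v

lemma toF_toG (hs : ∀ u v, far u v → far v u) {f : L × ℕ → ℝ} (hf : GE far f) :
    toF far (toG far f) = f := by
  funext p
  obtain ⟨v, k⟩ := p
  have h3 : nu far f v ≤ 1/2 := nu_le_half (fun v k => (hf.1 v k).1) v
  unfold toF
  rw [nu_toG hs hf]
  simp only [toG]
  have : (1 - nu far f v) ≠ 0 := by linarith
  field_simp
  ring

lemma toG_toF (hs : ∀ u v, far u v → far v u) {g : L × ℕ → ℝ} (hg : GD far g) :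
    toG far (toF far g) = g := by
  funext p
  obtain ⟨v, k⟩ := p
  have h3 : nu far g v ≤ 1/2 := nu_le_half (fun v k => (hg.1 v k).1) v
  unfold toG
  rw [nu_toF hs hg]
  simp only [toF]
  have : (1 - nu far g v) ≠ 0 := by linarith
  field_simp
  ring

lemma GD.toF (hs : ∀ u v, far u v → far v u) {g : L × ℕ → ℝ} (hg : GD far g) :
    GE far (toF far g) := by
  have hh : ∀ v, nu far g v ≤ 1/2 := nu_le_half (fun v k => (hg.1 v k).1)
  constructor
  · intro v k
    have h1 := hg.1 v k
    have h2 := nu_nonneg far g v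
    have h3 := hh v
    unfold Pool.Agent.H236_QM.toF
    simp only
    constructor
    · rcases h2.eq_or_lt with h | h
      · rw [← h]; linarith [h1.1]
      · have := hg.nonneg_of_nu_pos hs h k
        nlinarith [bd_pos k]
    · nlinarith [h1.2]
  · intro u v huv j k
    -- by symmetry assume `g u ≥ 0`
    have main : ∀ u v, far u v → (∀ k, 0 ≤ g (u, k)) → ∀ j k,
        0 ≤ Pool.Agent.H236_QM.toF far g (u, j) + Pool.Agent.H236_QM.toF far g (v, k) := by
      intro u v huv h0 j k
      unfold Pool.Agent.H236_QM.toF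
      simp only
      have hu := h0 j
      have h2 := nu_nonneg far g v
      have h3 := hh v
      have h2' := nu_nonneg far g u
      have h3' := hh u
      rcases h2.eq_or_lt with h | h
      · rw [← h]
        have h4 : NN (fun k => g (v, k)) ≤ nu far g u := le_nu far g (hs _ _ huv)
        have h5 := le_NN (fun k => (hg.1 v k).1) k
        nlinarith
      · have h6 := hg.nonneg_of_nu_pos hs h k
        nlinarith
    rcases hg.2 u v huv with h | h
    · exact main u v huv h j k
    · have := main v u (hs _ _ huv) h k j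
      linarith

lemma GE.toG (hs : ∀ u v, far u v → far v u) {f : L × ℕ → ℝ} (hf : GE far f) :
    GD far (toG far f) := by
  have hh : ∀ v, nu far f v ≤ 1/2 := nu_le_half (fun v k => (hf.1 v k).1)
  constructor
  · intro v k
    have h1 := hf.1 v k
    have h2 := nu_nonneg far f v
    have h3 := hh v
    unfold Pool.Agent.H236_QM.toG
    simp only
    have h4 : 0 < 1 - nu far f v := by linarith
    constructor
    · rcases h2.eq_or_lt with h | h
      · rw [← h]; simpa using h1.1
      · have := hf.nu_le hs h k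
        rw [le_div_iff₀ h4]
        nlinarith [bd_pos k]
    · rw [div_le_iff₀ h4]; linarith [h1.2]
  · intro u v huv
    by_contra hcon
    push Not at hcon
    obtain ⟨⟨j, hj⟩, ⟨k, hk⟩⟩ := hcon
    have main : ∀ v k, Pool.Agent.H236_QM.toG far f (v, k) < 0 → f (v, k) < 0 := by
      intro v k hk
      unfold Pool.Agent.H236_QM.toG at hk
      simp only at hk
      have h4 : 0 < 1 - nu far f v := by linarith [hh v]
      rw [div_lt_iff₀ h4, zero_mul] at hk
      rcases (nu_nonneg far f v).eq_or_lt with h | h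
      · linarith
      · have := hf.nu_le hs h k
        linarith
    have := hf.2 u v huv j k
    linarith [main u j hj, main v k hk]

end

section main

variable {L : Type} [Fintype L] {far : L → L → Prop}

/-- the space of the sequences -/
def ZL (far : L → L → Prop) : Type :=
  {z : L → ℕ → I // ∀ u v, far u v → (z u 0 : ℝ) = 0 ∨ (z v 0 : ℝ) = 0}

instance : TopologicalSpace (ZL far) := instTopologicalSpaceSubtype

/-- the `g`-coordinates -/
def gz (z : L → ℕ → I) : L × ℕ → ℝ := fun p => sc p.2 (Gr (fun n => (z p.1 n : ℝ)) p.2)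

omit [Fintype L] in
lemma gz_mem (z : L → ℕ → I) (v : L) (k : ℕ) : gz z (v, k) ∈ Icc (-bd k) 1 :=
  sc_mem (Gr_mem (fun n => (z v n).2) k)

omit [Fintype L] in
lemma gz_nonneg_iff (z : L → ℕ → I) (v : L) : (∀ k, 0 ≤ gz z (v, k)) ↔ (z v 0 : ℝ) = 0 := by
  constructor
  · intro h
    exact Gr_nonneg_imp (fun n => (z v n).2) fun k => sc_nonneg_iff.mp (h k)
  · intro h k
    refine sc_nonneg_iff.mpr ?_
    simp only
    rw [Gr_face (fun n => (z v n).2) h k]
    exact (z v (k+1)).2.1

omit [Fintype L] in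
lemma gz_GD (z : ZL far) : GD far (gz z.1) := by
  refine ⟨gz_mem z.1, fun u v huv => ?_⟩
  rcases z.2 u v huv with h | h
  · exact Or.inl ((gz_nonneg_iff z.1 u).mpr h)
  · exact Or.inr ((gz_nonneg_iff z.1 v).mpr h)

omit [Fintype L] in
lemma gz_inj {z z' : L → ℕ → I} (h : gz z = gz z') : z = z' := by
  funext v
  have := Gr_inj (t := fun n => (z v n : ℝ)) (t' := fun n => (z' v n : ℝ)) (fun n => (z v n).2)
    (fun n => (z' v n).2) (fun k => sc_inj (congrFun h (v, k)))
  funext n
  exact Subtype.ext (congrFun this n)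

omit [Fintype L] in
lemma gz_surj {g : L × ℕ → ℝ} (hg : GD far g) : ∃ z : ZL far, gz z.1 = g := by
  choose x hx hxg using fun v k => sc_surj (hg.1 v k)
  let z : L → ℕ → I := fun v => G.symm (fun k => ⟨x v k, hx v k⟩)
  have hz : gz z = g := by
    funext p
    obtain ⟨v, k⟩ := p
    have : Gr (fun n => (z v n : ℝ)) k = x v k := by
      rw [← G_coe, Homeomorph.apply_symm_apply]
    simp only [gz]
    rw [this, hxg]
  refine ⟨⟨z, fun u v huv => ?_⟩, hz⟩
  rcases hg.2 u v huv with h | h
  · exact Or.inl ((gz_nonneg_iff z u).mp (by rw [hz]; exact h))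
  · exact Or.inr ((gz_nonneg_iff z v).mp (by rw [hz]; exact h))

omit [Fintype L] in
lemma continuous_gz (p : L × ℕ) : Continuous fun z : L → ℕ → I => gz z p := by
  unfold gz sc
  have h1 : Continuous fun z : L → ℕ → I => Gr (fun n => (z p.1 n : ℝ)) p.2 :=
    (continuous_Gr p.2).comp (continuous_pi fun n => continuous_subtype_val.comp
      ((continuous_apply n).comp (continuous_apply p.1)))
  exact h1.max (continuous_const.mul h1)

lemma continuous_nu {X : Type*} [TopologicalSpace X] (g : X → L × ℕ → ℝ)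
    (hg : ∀ p, Continuous fun x => g x p) (hb : ∀ x v k, -bd k ≤ g x (v, k)) (v : L) :
    Continuous fun x => nu far (g x) v := by
  classical
  exact continuous_fold_max _ _ (fun x u => NN (fun k => g x (u, k)))
    (fun u => continuous_NN (fun x k => g x (u, k)) (fun k => hg (u, k)) (fun x k => hb x u k))

variable (hs : ∀ u v, far u v → far v u) (hirr : ∀ u, ¬ far u u)
  (r : L × ℕ → ℕ) (hr : Function.Injective r)

/-- the bound attached to an index -/
def dl (p : L × ℕ) : ℝ := bd p.2

/-- the relation between indices -/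
def RR (far : L → L → Prop) (p q : L × ℕ) : Prop := far p.1 q.1

include hs in
omit [Fintype L] in
lemma GE_of_bounds (hirr : ∀ u, ¬ far u u) {f : L × ℕ → ℝ}
    (h : ∀ p, low r hr (RR far) dl f p ≤ f p) (h1 : ∀ p, f p ≤ 1) : GE far f := by
  refine ⟨fun v k => ⟨(neg_le_low r hr (RR far) dl f (v, k)).trans (h _), h1 _⟩, fun u v huv j k => ?_⟩
  have hne : (u, j) ≠ (v, k) := fun heq => hirr u (by rw [Prod.mk.injEq] at heq; rw [← heq.1] at huv; exact huv)
  rcases lt_or_gt_of_ne (fun heq => hne (hr heq) : r (u, j) ≠ r (v, k)) with hlt | hlt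
  · have := neg_le_low_of r hr (RR far) dl (f := f) hlt (show RR far (u, j) (v, k) from huv)
    linarith [h (v, k)]
  · have := neg_le_low_of r hr (RR far) dl (f := f) hlt (show RR far (v, k) (u, j) from hs _ _ huv)
    linarith [h (u, j)]

omit [Fintype L] in
lemma GE.low_le {f : L × ℕ → ℝ} (hf : GE far f) (p : L × ℕ) :
    low r hr (RR far) dl f p ≤ f p := by
  rw [low_le_iff]
  refine ⟨(hf.1 p.1 p.2).1, fun q _ hq => ?_⟩
  have := hf.2 q.1 p.1 hq q.2 p.2
  linarith

omit [Fintype L] in
lemma low_le_half {f : L × ℕ → ℝ} (hf : ∀ v k, -bd k ≤ f (v, k)) (p : L × ℕ) :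
    low r hr (RR far) dl f p ≤ 1/2 := by
  rw [low_le_iff]
  refine ⟨by unfold dl; linarith [bd_pos p.2], fun q _ _ => ?_⟩
  have := hf q.1 q.2
  have := bd_le q.2
  linarith

/-- the final coordinates -/
def toT (r : L × ℕ → ℕ) (hr : Function.Injective r) (far : L → L → Prop) (f : L × ℕ → ℝ) :
    L × ℕ → ℝ := fun p =>
  (f p - low r hr (RR far) dl f p) / (1 - low r hr (RR far) dl f p)

omit [Fintype L] in
lemma toT_mem {f : L × ℕ → ℝ} (hf : GE far f) (p : L × ℕ) : toT r hr far f p ∈ Icc (0:ℝ) 1 := by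
  have h1 := hf.low_le r hr p
  have h2 := low_le_half (far := far) r hr (fun v k => (hf.1 v k).1) p
  have h3 := (hf.1 p.1 p.2).2
  have h4 : 0 < 1 - low r hr (RR far) dl f p := by linarith
  unfold toT
  refine ⟨div_nonneg (by linarith) h4.le, ?_⟩
  rw [div_le_iff₀ h4]
  linarith

/-- the map of the main lemma -/
def kmap (z : ZL far) : L → ℕ → I := fun v k =>
  ⟨toT r hr far (toF far (gz z.1)) (v, k), toT_mem r hr ((gz_GD z).toF hs) (v, k)⟩

lemma continuous_kmap : Continuous (kmap (far := far) hs r hr) := by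
  have hg : ∀ p, Continuous fun z : ZL far => gz z.1 p := fun p =>
    (continuous_gz p).comp continuous_subtype_val
  have hF : ∀ p, Continuous fun z : ZL far => toF far (gz z.1) p := by
    intro p
    have h1 := continuous_nu (far := far) (fun z : ZL far => gz z.1) hg
      (fun z v k => (gz_mem z.1 v k).1) p.1
    unfold toF
    exact h1.add ((continuous_const.sub h1).mul (hg p))
  refine continuous_pi fun v => continuous_pi fun k => Continuous.subtype_mk ?_ _
  have hl := continuous_low r hr (RR far) dl (fun z : ZL far => toF far (gz z.1)) hF (v, k)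
  unfold toT
  refine Continuous.div ((hF _).sub hl) (continuous_const.sub hl) fun z => ?_
  have := low_le_half (far := far) r hr (fun v k => (((gz_GD z).toF hs).1 v k).1) (v, k)
  linarith

omit [Fintype L] in
lemma sol_of_toT {f : L × ℕ → ℝ} (hf : GE far f) (p : L × ℕ) :
    f p = low r hr (RR far) dl f p + (1 - low r hr (RR far) dl f p) * toT r hr far f p := by
  have h2 := low_le_half (far := far) r hr (fun v k => (hf.1 v k).1) p
  have h4 : (1 - low r hr (RR far) dl f p) ≠ 0 := by linarith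
  unfold toT
  field_simp
  ring

lemma kmap_injective : Function.Injective (kmap (far := far) hs r hr) := by
  intro z z' h
  have h1 : ∀ p, toT r hr far (toF far (gz z.1)) p = toT r hr far (toF far (gz z'.1)) p :=
    fun p => congrArg Subtype.val (congrFun (congrFun h p.1) p.2)
  have h2 : toF far (gz z.1) = toF far (gz z'.1) := by
    refine unique_solution r hr (RR far) dl (toT r hr far (toF far (gz z.1)))
      (sol_of_toT r hr ((gz_GD z).toF hs)) (fun p => ?_)
    rw [h1 p]
    exact sol_of_toT r hr ((gz_GD z').toF hs) p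
  have h3 : gz z.1 = gz z'.1 := by
    rw [← toG_toF hs (gz_GD z), ← toG_toF hs (gz_GD z'), h2]
  exact Subtype.ext (gz_inj h3)

lemma kmap_surjective (hirr : ∀ u, ¬ far u u) : Function.Surjective (kmap (far := far) hs r hr) := by
  intro t
  obtain ⟨f, hf⟩ := exists_solution r hr (RR far) dl (fun p => (t p.1 p.2 : ℝ))
  have hb : ∀ n : ℕ, ∀ p, r p = n → low r hr (RR far) dl f p ≤ 1/2 ∧
      low r hr (RR far) dl f p ≤ f p ∧ f p ≤ 1 := by
    intro n
    induction' n using Nat.strong_induction_on with n ih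
    intro p hp
    have h1 : low r hr (RR far) dl f p ≤ 1/2 := by
      rw [low_le_iff]
      refine ⟨by unfold dl; linarith [bd_pos p.2], fun q hq _ => ?_⟩
      have h2 := (ih (r q) (hp ▸ hq) q rfl).2.1
      have h3 := neg_le_low r hr (RR far) dl f q
      have h4 := bd_le q.2
      unfold dl at h3 h2
      linarith
    have ht := (t p.1 p.2).2
    refine ⟨h1, ?_, ?_⟩
    · have := hf p
      nlinarith [ht.1, ht.2]
    · have := hf p
      nlinarith [ht.1, ht.2]
  have hGE : GE far f := GE_of_bounds hs r hr hirr (fun p => (hb _ p rfl).2.1)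
    (fun p => (hb _ p rfl).2.2)
  obtain ⟨z, hz⟩ := gz_surj (hGE.toG hs)
  refine ⟨z, ?_⟩
  funext v k
  apply Subtype.ext
  change toT r hr far (toF far (gz z.1)) (v, k) = t v k
  rw [hz, toF_toG hs hGE]
  have h1 := hf (v, k)
  have h4 : (0:ℝ) < (1 - low r hr (RR far) dl f (v, k)) := by linarith [(hb _ (v, k) rfl).1]
  unfold toT
  rw [div_eq_iff h4.ne']
  linarith

lemma kmap_one {z : ZL far} {w : L} (hw : (z.1 w 0 : ℝ) = 1) :
    (kmap (far := far) hs r hr z w 0 : ℝ) = 0 := by
  change toT r hr far (toF far (gz z.1)) (w, 0) = 0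
  have hGE := (gz_GD z).toF hs
  have hg : gz z.1 (w, 0) = -bd 0 := by
    simp only [gz]
    rw [Gr_one (fun n => (z.1 w n).2) hw, sc_nonpos (by norm_num)]
    ring
  have hnu : nu far (gz z.1) w = 0 := by
    refine le_antisymm ?_ (nu_nonneg _ _ _)
    by_contra hcon
    push Not at hcon
    have := (gz_GD z).nonneg_of_nu_pos hs hcon 0
    rw [hg] at this
    linarith [bd_pos 0]
  have hf : toF far (gz z.1) (w, 0) = -bd 0 := by
    simp only [toF]
    rw [hnu, hg]; ring
  have h1 := hGE.low_le r hr (w, 0)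
  have h2 := neg_le_low r hr (RR far) dl (toF far (gz z.1)) (w, 0)
  have h3 : low r hr (RR far) dl (toF far (gz z.1)) (w, 0) = -bd 0 :=
    le_antisymm (hf ▸ h1) h2
  unfold toT
  rw [hf, h3]
  simp

instance : T2Space (ZL far) := inferInstanceAs (T2Space (Subtype _))

omit [Fintype L] in
lemma isClosed_ZL : IsClosed {z : L → ℕ → I | ∀ u v, far u v → (z u 0 : ℝ) = 0 ∨ (z v 0 : ℝ) = 0} := by
  simp only [ofPred_forall]
  refine isClosed_iInter fun u => isClosed_iInter fun v => isClosed_iInter fun _ => ?_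
  rw [ofPred_or]
  have : ∀ w : L, Continuous fun z : L → ℕ → I => (z w 0 : ℝ) := fun w =>
    continuous_subtype_val.comp ((continuous_apply 0).comp (continuous_apply w))
  exact (isClosed_eq (this u) continuous_const).union (isClosed_eq (this v) continuous_const)

instance : CompactSpace (ZL far) := by
  have := (isClosed_ZL (far := far)).isCompact
  exact isCompact_iff_compactSpace.mp this

/-- **The main lemma.** -/
theorem exists_khomeo (hs : ∀ u v, far u v → far v u) (hirr : ∀ u, ¬ far u u) :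
    ∃ Θ : ZL far ≃ₜ (L → ℕ → I), ∀ z w, (z.1 w 0 : ℝ) = 1 → (Θ z w 0 : ℝ) = 0 := by
  have : Encodable L := Encodable.ofCountable L
  let r : L × ℕ → ℕ := Encodable.encode
  have hr : Function.Injective r := Encodable.encode_injective
  let Θ : ZL far ≃ₜ (L → ℕ → I) := Continuous.homeoOfEquivCompactToT2
    (f := Equiv.ofBijective _ ⟨kmap_injective hs r hr, kmap_surjective hs r hr hirr⟩)
    (continuous_kmap hs r hr)
  exact ⟨Θ, fun z w hw => kmap_one hs r hr hw⟩

end main

end

end Pool.Agent.H236_QM
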