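import Pool.Agent.H236_QM.Faces

/-!
# Extending homeomorphisms between compact subsets of the middle part of the cube

Klee's trick with an explicit shear.
-/

set_option autoImplicit false

namespace Pool.Agent.H236_QM

open Set Filter Topology

noncomputable section

/-- the interval `[-3/4,3/4]` -/
abbrev K34 : Type := Set.Icc (-(3/4) : ℝ) (3/4)

/-- the cube as the half of the coordinates -/
abbrev P : Type := ℕ → J

/-- moving the point `0` of `[-1,1]` to the point `u` -/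
def mv (u s : ℝ) : ℝ := s + u * (1 - |s|)

/-- the inverse of `mv` -/
def mvInv (u r : ℝ) : ℝ := (r - u + u * |r - u|) / (1 - u ^ 2)

lemma mv_mem {u s : ℝ} (hu : u ∈ Icc (-(3/4) : ℝ) (3/4)) (hs : s ∈ Icc (-1:ℝ) 1) :
    mv u s ∈ Icc (-1:ℝ) 1 := by
  have h1 : |s| ≤ 1 := abs_le.mpr ⟨hs.1, hs.2⟩
  have h2 := neg_abs_le s
  have h3 := le_abs_self s
  unfold mv
  constructor <;> nlinarith [hu.1, hu.2]

lemma mvInv_mv {u s : ℝ} (hu : u ∈ Icc (-(3/4) : ℝ) (3/4)) : mvInv u (mv u s) = s := by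
  have h1 : (0:ℝ) < 1 - u ^ 2 := by nlinarith [hu.1, hu.2]
  unfold mvInv mv
  rw [div_eq_iff h1.ne']
  have e : s + u * (1 - |s|) - u = s - u * |s| := by ring
  rw [e]
  rcases le_total 0 s with h | h
  · have : 0 ≤ s - u * |s| := by rw [abs_of_nonneg h]; nlinarith [hu.1, hu.2]
    rw [abs_of_nonneg this, abs_of_nonneg h]
    ring
  · have : s - u * |s| ≤ 0 := by rw [abs_of_nonpos h]; nlinarith [hu.1, hu.2]
    rw [abs_of_nonpos this, abs_of_nonpos h]
    ring

lemma mv_mvInv {u r : ℝ} (hu : u ∈ Icc (-(3/4) : ℝ) (3/4)) : mv u (mvInv u r) = r := by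
  have h1 : (0:ℝ) < 1 - u ^ 2 := by nlinarith [hu.1, hu.2]
  unfold mvInv mv
  set d := r - u with hd
  have hr : r = d + u := by rw [hd]; ring
  rcases le_total 0 d with h | h
  · rw [abs_of_nonneg h]
    have : 0 ≤ (d + u * d) / (1 - u ^ 2) := by
      apply div_nonneg _ h1.le
      nlinarith [hu.1, hu.2]
    rw [abs_of_nonneg this, hr]
    field_simp
    ring
  · rw [abs_of_nonpos h]
    have : (d + u * -d) / (1 - u ^ 2) ≤ 0 := by
      apply div_nonpos_of_nonpos_of_nonneg _ h1.le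
      nlinarith [hu.1, hu.2]
    rw [abs_of_nonpos this, hr]
    field_simp
    ring

lemma mvInv_mem {u r : ℝ} (hu : u ∈ Icc (-(3/4) : ℝ) (3/4)) (hr : r ∈ Icc (-1:ℝ) 1) :
    mvInv u r ∈ Icc (-1:ℝ) 1 := by
  have h1 : (0:ℝ) < 1 - u ^ 2 := by nlinarith [hu.1, hu.2]
  unfold mvInv
  rcases le_total 0 (r - u) with h | h
  · rw [abs_of_nonneg h]
    constructor
    · rw [le_div_iff₀ h1]; nlinarith [hu.1, hu.2, hr.1, hr.2]
    · rw [div_le_iff₀ h1]; nlinarith [hu.1, hu.2, hr.1, hr.2]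
  · rw [abs_of_nonpos h]
    constructor
    · rw [le_div_iff₀ h1]; nlinarith [hu.1, hu.2, hr.1, hr.2]
    · rw [div_le_iff₀ h1]; nlinarith [hu.1, hu.2, hr.1, hr.2]

/-- the fibrewise motion `(p,q) ↦ (p, mv (φ p) q)` -/
def move (φ : C(P, ℕ → K34)) : P × P ≃ₜ P × P where
  toFun x := (x.1, fun k => ⟨mv (φ x.1 k) (x.2 k), mv_mem (φ x.1 k).2 (x.2 k).2⟩)
  invFun x := (x.1, fun k => ⟨mvInv (φ x.1 k) (x.2 k), mvInv_mem (φ x.1 k).2 (x.2 k).2⟩)
  left_inv x := by
    ext k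
    · rfl
    · exact mvInv_mv (φ x.1 k).2
  right_inv x := by
    ext k
    · rfl
    · exact mv_mvInv (φ x.1 k).2
  continuous_toFun := by
    refine continuous_fst.prodMk (continuous_pi fun k => Continuous.subtype_mk ?_ _)
    have h1 : Continuous fun x : P × P => ((φ x.1 k : K34) : ℝ) :=
      continuous_subtype_val.comp ((continuous_apply k).comp (φ.continuous.comp continuous_fst))
    have h2 : Continuous fun x : P × P => ((x.2 k : J) : ℝ) :=
      continuous_subtype_val.comp ((continuous_apply k).comp continuous_snd)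
    unfold mv
    exact h2.add (h1.mul (continuous_const.sub h2.abs))
  continuous_invFun := by
    refine continuous_fst.prodMk (continuous_pi fun k => Continuous.subtype_mk ?_ _)
    have h1 : Continuous fun x : P × P => ((φ x.1 k : K34) : ℝ) :=
      continuous_subtype_val.comp ((continuous_apply k).comp (φ.continuous.comp continuous_fst))
    have h2 : Continuous fun x : P × P => ((x.2 k : J) : ℝ) :=
      continuous_subtype_val.comp ((continuous_apply k).comp continuous_snd)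
    unfold mvInv
    refine Continuous.div ((h2.sub h1).add (h1.mul (h2.sub h1).abs))
      (continuous_const.sub (h1.pow 2)) fun x => ?_
    have hu := (φ x.1 k).2
    have : (0:ℝ) < 1 - ((φ x.1 k : K34) : ℝ) ^ 2 := by nlinarith [hu.1, hu.2]
    exact this.ne'

/-- the centre of the cube -/
def zeroP : P := fun _ => ⟨0, by norm_num⟩

lemma move_zero (φ : C(P, ℕ → K34)) (p q : P) (h : ∀ k, (φ p k : ℝ) = q k) :
    move φ (p, zeroP) = (p, q) := by
  refine Prod.ext rfl (funext fun k => Subtype.ext ?_)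
  change mv (φ p k) 0 = q k
  simp [mv, h k]

lemma move_symm_zero (φ : C(P, ℕ → K34)) (p q : P) (h : ∀ k, (φ p k : ℝ) = q k) :
    (move φ).symm (p, q) = (p, zeroP) := by
  rw [← move_zero φ p q h, Homeomorph.symm_apply_apply]

/-- odd powers as homeomorphisms of `[-1,1]` -/
lemma pw_bijective (n : ℕ) : Function.Bijective
    (fun s : J => (⟨(s:ℝ) ^ (2 * n + 1), by
      have h : |(s:ℝ)| ≤ 1 := abs_le.mpr ⟨s.2.1, s.2.2⟩
      have h2 : |(s:ℝ) ^ (2 * n + 1)| ≤ 1 := by rw [abs_pow]; exact pow_le_one₀ (abs_nonneg _) h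
      exact abs_le.mp h2⟩ : J)) := by
  constructor
  · intro s t h
    exact Subtype.ext ((Odd.strictMono_pow ⟨n, rfl⟩).injective (congrArg Subtype.val h))
  · intro r
    have hc : ContinuousOn (fun x : ℝ => x ^ (2 * n + 1)) (Icc (-1) 1) := by fun_prop
    have := intermediate_value_Icc (by norm_num : (-1:ℝ) ≤ 1) hc
    have h1 : (-1:ℝ) ^ (2 * n + 1) = -1 := by rw [pow_succ, pow_mul]; norm_num
    rw [h1, one_pow] at this
    obtain ⟨x, hx, hxr⟩ := this r.2
    exact ⟨⟨x, hx⟩, Subtype.ext hxr⟩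

/-- odd powers as homeomorphisms of `[-1,1]` -/
def pw (n : ℕ) : J ≃ₜ J :=
  Continuous.homeoOfEquivCompactToT2 (f := Equiv.ofBijective _ (pw_bijective n))
    (by
      change Continuous (fun s : J => (⟨(s:ℝ) ^ (2 * n + 1), _⟩ : J))
      fun_prop)

lemma pw_coe (n : ℕ) (s : J) : (pw n s : ℝ) = (s:ℝ) ^ (2 * n + 1) := rfl

/-- the shear parameters -/
def shφ : C(P, ℕ → K34) where
  toFun q k := ⟨(q (Nat.unpair k).1 : ℝ) / 2, by
    have := (q (Nat.unpair k).1).2
    constructor <;> linarith [this.1, this.2]⟩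
  continuous_toFun := by fun_prop

/-- the shear: `(p,q) ↦ (p',q)`, `p'_k = mv (q_{j(k)}/2) (p_k^{2k+1})` -/
def shear : P × P ≃ₜ P × P :=
  (((Homeomorph.prodCongr (Homeomorph.piCongrRight pw) (Homeomorph.refl P)).trans
    (Homeomorph.prodComm P P)).trans (move shφ)).trans (Homeomorph.prodComm P P)

lemma shear_fst (p q : P) (k : ℕ) :
    ((shear (p, q)).1 k : ℝ) = mv ((q (Nat.unpair k).1 : ℝ) / 2) ((p k : ℝ) ^ (2 * k + 1)) := rfl

lemma shear_snd (p q : P) : (shear (p, q)).2 = q := rfl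

lemma abs_pow_half {s : ℝ} (hs : s ∈ Icc (-(1/2) : ℝ) (1/2)) (k : ℕ) :
    |s ^ (2 * k + 1)| ≤ (1/2 : ℝ) ^ (2 * k + 1) := by
  rw [abs_pow]
  exact pow_le_pow_left₀ (abs_nonneg _) (abs_le.mpr ⟨hs.1, hs.2⟩) _

lemma shear_close (p q : P) (hp : ∀ k, (p k : ℝ) ∈ Icc (-(1/2) : ℝ) (1/2)) (k : ℕ) :
    |((shear (p, q)).1 k : ℝ) - (q (Nat.unpair k).1 : ℝ) / 2| ≤ 2 * (1/2 : ℝ) ^ (2 * k + 1) := by
  rw [shear_fst, mv]
  have h1 := abs_pow_half (hp k) k
  set s := (p k : ℝ) ^ (2 * k + 1)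
  have hq := (q (Nat.unpair k).1).2
  set u := (q (Nat.unpair k).1 : ℝ) / 2 with hu
  have hu1 : |u| ≤ 1 := abs_le.mpr ⟨by linarith [hq.1], by linarith [hq.2]⟩
  have : s + u * (1 - |s|) - u = s - u * |s| := by ring
  rw [this]
  calc abs (s - u * abs s) ≤ abs s + abs (u * abs s) := abs_sub _ _
    _ = abs s + abs u * abs s := by rw [abs_mul, abs_abs]
    _ ≤ abs s + 1 * abs s := by gcongr
    _ ≤ 2 * (1/2 : ℝ) ^ (2 * k + 1) := by linarith

lemma shear_fst_mem (p q : P) (hp : ∀ k, (p k : ℝ) ∈ Icc (-(1/2) : ℝ) (1/2))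
    (hq : ∀ k, (q k : ℝ) ∈ Icc (-(1/2) : ℝ) (1/2)) (k : ℕ) :
    ((shear (p, q)).1 k : ℝ) ∈ Icc (-(3/4) : ℝ) (3/4) := by
  rw [shear_fst, mv]
  have h1 := abs_pow_half (hp k) k
  have h2 : (1/2 : ℝ) ^ (2 * k + 1) ≤ 1/2 := by
    calc (1/2 : ℝ) ^ (2 * k + 1) ≤ (1/2 : ℝ) ^ 1 :=
          pow_le_pow_of_le_one (by norm_num) (by norm_num) (by omega)
      _ = 1/2 := by norm_num
  set s := (p k : ℝ) ^ (2 * k + 1)
  have hqk := hq (Nat.unpair k).1
  set u := (q (Nat.unpair k).1 : ℝ) / 2 with hu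
  have hu1 : |u| ≤ 1/4 := abs_le.mpr ⟨by linarith [hqk.1], by linarith [hqk.2]⟩
  have h3 : |s| ≤ 1/2 := h1.trans h2
  have h4 := abs_nonneg s
  have h5 := abs_le.mp hu1
  have h6 := neg_abs_le s
  have h7 := le_abs_self s
  constructor <;> nlinarith

lemma shear_fst_inj {p q p' q' : P} (hp : ∀ k, (p k : ℝ) ∈ Icc (-(1/2) : ℝ) (1/2))
    (hp' : ∀ k, (p' k : ℝ) ∈ Icc (-(1/2) : ℝ) (1/2))
    (h : (shear (p, q)).1 = (shear (p', q')).1) : (p, q) = (p', q') := by
  have hq : q = q' := by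
    funext j
    have key : ∀ n : ℕ, |(q j : ℝ) / 2 - (q' j : ℝ) / 2| ≤ 4 * (1/2 : ℝ) ^ n := by
      intro n
      have h1 := shear_close p q hp (Nat.pair j n)
      have h2 := shear_close p' q' hp' (Nat.pair j n)
      rw [Nat.unpair_pair] at h1 h2
      rw [← h] at h2
      simp only at h1 h2
      have h3 : (1/2 : ℝ) ^ (2 * Nat.pair j n + 1) ≤ (1/2 : ℝ) ^ n :=
        pow_le_pow_of_le_one (by norm_num) (by norm_num)
          (by have := Nat.right_le_pair j n; omega)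
      rw [abs_le] at *
      constructor <;> linarith [h1.1, h1.2, h2.1, h2.2]
    have hlim : Tendsto (fun n : ℕ => 4 * (1/2 : ℝ) ^ n) atTop (𝓝 0) := by
      have := (tendsto_pow_atTop_nhds_zero_of_lt_one (by norm_num : (0:ℝ) ≤ 1/2)
        (by norm_num)).const_mul 4
      simpa using this
    have h0 : |(q j : ℝ) / 2 - (q' j : ℝ) / 2| ≤ 0 := ge_of_tendsto' hlim key
    have := sub_eq_zero.mp (abs_nonpos_iff.mp h0)
    exact Subtype.ext (by linarith)
  subst hq
  apply shear.injective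
  exact Prod.ext h rfl

/-- splitting the coordinates -/
def sp : (ℕ → J) ≃ₜ P × P :=
  (Homeomorph.piCongrLeft (Y := fun _ => J) Equiv.natSumNatEquivNat).symm.trans
    Homeomorph.sumArrowHomeomorphProdArrow

lemma sp_fst_mem (x : ℕ → J) {a b : ℝ} (hx : ∀ k, (x k : ℝ) ∈ Icc a b) (k : ℕ) :
    ((sp x).1 k : ℝ) ∈ Icc a b := hx _

lemma sp_snd_mem (x : ℕ → J) {a b : ℝ} (hx : ∀ k, (x k : ℝ) ∈ Icc a b) (k : ℕ) :
    ((sp x).2 k : ℝ) ∈ Icc a b := hx _

instance instTietzeK34 : TietzeExtension K34 :=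
  TietzeExtension.of_retract (Y := K34) (Z := ℝ) ⟨Subtype.val, continuous_subtype_val⟩
    ⟨Set.projIcc (-(3/4) : ℝ) (3/4) (by norm_num), continuous_projIcc⟩
    (by ext x; simp [Set.projIcc_val])

lemma exists_phi {A : Type*} [TopologicalSpace A] [CompactSpace A] (α γ : A → P)
    (hα : Continuous α) (hαi : Function.Injective α) (hγ : Continuous γ)
    (hγm : ∀ a k, (γ a k : ℝ) ∈ Icc (-(3/4) : ℝ) (3/4)) :
    ∃ φ : C(P, ℕ → K34), ∀ a k, (φ (α a) k : ℝ) = γ a k := by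
  have he : IsClosedEmbedding α := hα.isClosedEmbedding hαi
  let f : C(A, ℕ → K34) := ⟨fun a k => ⟨γ a k, hγm a k⟩, by
    refine continuous_pi fun k => Continuous.subtype_mk ?_ _
    exact continuous_subtype_val.comp ((continuous_apply k).comp hγ)⟩
  obtain ⟨φ, hφ⟩ := ContinuousMap.exists_extension he f
  refine ⟨φ, fun a k => ?_⟩
  have := congrFun (ContinuousMap.congr_fun hφ a) k
  exact congrArg Subtype.val this

/-- **Extension of homeomorphisms in the middle part of the cube.** -/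
theorem extend_middle {A : Type*} [TopologicalSpace A] [CompactSpace A] (i j : A → (ℕ → J))
    (hi : Continuous i) (hj : Continuous j) (hii : Function.Injective i)
    (hji : Function.Injective j)
    (him : ∀ a k, (i a k : ℝ) ∈ Icc (-(1/2) : ℝ) (1/2))
    (hjm : ∀ a k, (j a k : ℝ) ∈ Icc (-(1/2) : ℝ) (1/2)) :
    ∃ H : (ℕ → J) ≃ₜ (ℕ → J), ∀ a, H (i a) = j a := by
  set i1 : A → P × P := fun a => shear (sp (i a)) with hi1
  set j1 : A → P × P := fun a => shear (sp (j a)) with hj1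
  have ci1 : Continuous i1 := shear.continuous.comp (sp.continuous.comp hi)
  have cj1 : Continuous j1 := shear.continuous.comp (sp.continuous.comp hj)
  have i1f : Function.Injective fun a => (i1 a).1 := by
    intro a b h
    have := shear_fst_inj (p := (sp (i a)).1) (q := (sp (i a)).2) (p' := (sp (i b)).1)
      (q' := (sp (i b)).2) (sp_fst_mem _ (him a)) (sp_fst_mem _ (him b)) h
    exact hii (sp.injective this)
  have j1f : Function.Injective fun a => (j1 a).1 := by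
    intro a b h
    have := shear_fst_inj (p := (sp (j a)).1) (q := (sp (j a)).2) (p' := (sp (j b)).1)
      (q' := (sp (j b)).2) (sp_fst_mem _ (hjm a)) (sp_fst_mem _ (hjm b)) h
    exact hji (sp.injective this)
  have mi1 : ∀ a k, ((i1 a).1 k : ℝ) ∈ Icc (-(3/4) : ℝ) (3/4) := fun a k =>
    shear_fst_mem _ _ (sp_fst_mem _ (him a)) (sp_snd_mem _ (him a)) k
  have mj1 : ∀ a k, ((j1 a).1 k : ℝ) ∈ Icc (-(3/4) : ℝ) (3/4) := fun a k =>
    shear_fst_mem _ _ (sp_fst_mem _ (hjm a)) (sp_snd_mem _ (hjm a)) k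
  have mi2 : ∀ a k, ((i1 a).2 k : ℝ) ∈ Icc (-(3/4) : ℝ) (3/4) := fun a k => by
    have := sp_snd_mem _ (him a) k
    exact ⟨by linarith [this.1, show ((i1 a).2 k : ℝ) = (sp (i a)).2 k from rfl],
      by linarith [this.2, show ((i1 a).2 k : ℝ) = (sp (i a)).2 k from rfl]⟩
  have mj2 : ∀ a k, ((j1 a).2 k : ℝ) ∈ Icc (-(3/4) : ℝ) (3/4) := fun a k => by
    have := sp_snd_mem _ (hjm a) k
    exact ⟨by linarith [this.1, show ((j1 a).2 k : ℝ) = (sp (j a)).2 k from rfl],
      by linarith [this.2, show ((j1 a).2 k : ℝ) = (sp (j a)).2 k from rfl]⟩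
  obtain ⟨φ1, h1⟩ := exists_phi (fun a => (i1 a).1) (fun a => (i1 a).2)
    (continuous_fst.comp ci1) i1f (continuous_snd.comp ci1) mi2
  obtain ⟨φ2, h2⟩ := exists_phi (fun a => (i1 a).1) (fun a => (j1 a).1)
    (continuous_fst.comp ci1) i1f (continuous_fst.comp cj1) mj1
  obtain ⟨φ3, h3⟩ := exists_phi (fun a => (j1 a).1) (fun a => (i1 a).1)
    (continuous_fst.comp cj1) j1f (continuous_fst.comp ci1) mi1
  obtain ⟨φ4, h4⟩ := exists_phi (fun a => (j1 a).1) (fun a => (j1 a).2)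
    (continuous_fst.comp cj1) j1f (continuous_snd.comp cj1) mj2
  refine ⟨((((((((sp.trans shear).trans (move φ1).symm).trans (move φ2)).trans
    (Homeomorph.prodComm P P)).trans (move φ3).symm).trans (move φ4))).trans shear.symm).trans
      sp.symm, fun a => ?_⟩
  simp only [Homeomorph.trans_apply]
  have e1 : shear (sp (i a)) = ((i1 a).1, (i1 a).2) := rfl
  rw [e1, move_symm_zero φ1 _ _ (h1 a), move_zero φ2 _ (j1 a).1 (h2 a)]
  have e2 : (Homeomorph.prodComm P P) ((i1 a).1, (j1 a).1) = ((j1 a).1, (i1 a).1) := rfl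
  rw [e2, move_symm_zero φ3 _ _ (h3 a), move_zero φ4 _ (j1 a).2 (h4 a)]
  have e3 : ((j1 a).1, (j1 a).2) = shear (sp (j a)) := rfl
  rw [e3, Homeomorph.symm_apply_apply, Homeomorph.symm_apply_apply]

/-- **Extension of homeomorphisms between closed subsets of finite unions of faces.** -/
theorem extend_faces {A : Type*} [TopologicalSpace A] [CompactSpace A] (i j : A → (ℕ → I))
    (hi : Continuous i) (hj : Continuous j) (hii : Function.Injective i)
    (hji : Function.Injective j) (F F' : Finset ℕ)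
    (hF : ∀ a, ∃ n ∈ F, (i a n : ℝ) = 0) (hF' : ∀ a, ∃ n ∈ F', (j a n : ℝ) = 0) :
    ∃ H : (ℕ → I) ≃ₜ (ℕ → I), ∀ a, H (i a) = j a := by
  obtain ⟨Φ, hΦ⟩ := exists_faces_interior F
  obtain ⟨Φ', hΦ'⟩ := exists_faces_interior F'
  obtain ⟨H, hH⟩ := extend_middle (fun a => Φ (i a)) (fun a => Φ' (j a))
    (Φ.continuous.comp hi) (Φ'.continuous.comp hj) (Φ.injective.comp hii)
    (Φ'.injective.comp hji) (fun a k => hΦ _ (hF a) k) (fun a k => hΦ' _ (hF' a) k)
  refine ⟨(Φ.trans H).trans Φ'.symm, fun a => ?_⟩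
  simp only [Homeomorph.trans_apply]
  rw [hH a, Homeomorph.symm_apply_apply]

end

end Pool.Agent.H236_QM
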