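import Pool.Agent.H236_QM.Box

/-!
# Relatively open subsets of unions of basic closed sets
-/

set_option autoImplicit false

namespace Pool.Agent.H236_QM

open Set Filter Topology

noncomputable section

/-- basic closed sets of the Hilbert cube -/
def IsBCS (B : Set (ℕ → I)) : Prop :=
  ∃ a b : ℕ → ℝ, (∀ i, 0 ≤ a i ∧ a i < b i ∧ b i ≤ 1) ∧ {i | a i ≠ 0 ∨ b i ≠ 1}.Finite ∧
    B = {x | ∀ i, a i ≤ (x i : ℝ) ∧ (x i : ℝ) ≤ b i}

/-- local finiteness at the points of the union -/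
def LF (𝒞 : Set (Set (ℕ → I))) : Prop :=
  ∀ x ∈ ⋃₀ 𝒞, ∃ O : Set (ℕ → I), IsOpen O ∧ x ∈ O ∧ {D | D ∈ 𝒞 ∧ (D ∩ O).Nonempty}.Finite

lemma IsBCS.isCompact {B : Set (ℕ → I)} (hB : IsBCS B) : IsCompact B := by
  obtain ⟨a, b, -, -, rfl⟩ := hB
  exact (isClosed_bx a b).isCompact

lemma IsBCS.nonempty {B : Set (ℕ → I)} (hB : IsBCS B) : B.Nonempty := by
  obtain ⟨a, b, h, -, rfl⟩ := hB
  exact ⟨fun i => ⟨a i, (h i).1, (h i).2.1.le.trans (h i).2.2⟩, fun i => ⟨le_rfl, (h i).2.1.le⟩⟩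

/-- small boxes around a point -/
lemma exists_small_box (x : ℕ → I) (U : Set (ℕ → I)) (hU : IsOpen U) (hx : x ∈ U) :
    ∃ (s : Finset ℕ) (ε : ℝ), 0 < ε ∧ {y : ℕ → I | ∀ i ∈ s, |(y i : ℝ) - x i| ≤ ε} ⊆ U := by
  obtain ⟨s, u, hu, hsub⟩ := isOpen_pi_iff.mp hU x hx
  have : ∀ i ∈ s, ∃ ε > 0, ∀ y : I, |(y:ℝ) - x i| < ε → y ∈ u i := by
    intro i hi
    obtain ⟨ε, hε, h⟩ := Metric.isOpen_iff.mp (hu i hi).1 (x i) (hu i hi).2
    exact ⟨ε, hε, fun y hy => h (by rw [Metric.mem_ball, Subtype.dist_eq, Real.dist_eq]; exact hy)⟩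
  choose! ε hε h using this
  by_cases hs : s.Nonempty
  · obtain ⟨j, hj, hmin⟩ := Finset.exists_min_image s ε hs
    refine ⟨s, ε j / 2, half_pos (hε j hj), fun y hy => hsub ?_⟩
    intro i hi
    refine h i hi _ ?_
    have := hy i hi
    have := hmin i hi
    have := hε j hj
    linarith
  · rw [Finset.not_nonempty_iff_eq_empty] at hs
    subst hs
    exact ⟨∅, 1, one_pos, fun y _ => hsub (by simp)⟩

/-- basis of the relative neighbourhoods consisting of basic closed sets -/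
lemma exists_rel_box {B : Set (ℕ → I)} (hB : IsBCS B) (x : ℕ → I) (hxB : x ∈ B)
    (s : Finset ℕ) (ε : ℝ) (hε : 0 < ε) :
    IsBCS (B ∩ {y : ℕ → I | ∀ i ∈ s, |(y i : ℝ) - x i| ≤ ε}) := by
  classical
  obtain ⟨a, b, h, hfin, rfl⟩ := hB
  refine ⟨fun i => if i ∈ s then max (a i) (x i - ε) else a i,
    fun i => if i ∈ s then min (b i) (x i + ε) else b i, fun i => ?_, ?_, ?_⟩
  · have h1 := h i
    have h2 := hxB i
    simp only
    split_ifs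
    · refine ⟨le_max_of_le_left h1.1, ?_, min_le_of_left_le h1.2.2⟩
      rw [lt_min_iff, max_lt_iff, max_lt_iff]
      refine ⟨⟨h1.2.1, ?_⟩, ?_, ?_⟩ <;> linarith
    · exact h1
  · refine (hfin.union s.finite_toSet).subset ?_
    intro i hi
    by_cases his : i ∈ s
    · exact Or.inr his
    · left
      simp only [mem_ofPred_eq, if_neg his] at hi
      exact hi
  · ext y
    simp only [mem_inter_iff, mem_ofPred_eq]
    constructor
    · rintro ⟨h1, h2⟩ i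
      split_ifs with his
      · have := abs_le.mp (h2 i his)
        exact ⟨max_le (h1 i).1 (by linarith), le_min (h1 i).2 (by linarith)⟩
      · exact h1 i
    · intro h1
      refine ⟨fun i => ?_, fun i hi => ?_⟩
      · have := h1 i
        split_ifs at this with his
        · exact ⟨(le_max_left _ _).trans this.1, this.2.trans (min_le_left _ _)⟩
        · exact this
      · have := h1 i
        rw [if_pos hi, if_pos hi] at this
        have h3 := (le_max_right _ _).trans this.1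
        have h4 := this.2.trans (min_le_right _ _)
        rw [abs_le]
        constructor <;> linarith

/-- an open subset of a basic closed set -/
lemma open_cover_bcs {B : Set (ℕ → I)} (hB : IsBCS B) (U : Set (ℕ → I)) (hU : IsOpen U) :
    ∃ 𝒞 : Set (Set (ℕ → I)), (∀ D ∈ 𝒞, IsBCS D) ∧ ⋃₀ 𝒞 = B ∩ U ∧ LF 𝒞 := by
  have hBc : IsCompact B := hB.isCompact
  have : LocallyCompactSpace (B ∩ U : Set (ℕ → I)) := by
    have h1 : IsLocallyClosed (B ∩ U) := hBc.isClosed.isLocallyClosed.inter hU.isLocallyClosed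
    exact h1.locallyCompactSpace
  have h2 : ∀ x ∈ (univ : Set (B ∩ U : Set (ℕ → I))), (𝓝 x).HasBasis
      (fun p : Finset ℕ × ℝ => 0 < p.2 ∧ {y : ℕ → I | ∀ i ∈ p.1, |(y i : ℝ) - x.1 i| ≤ p.2} ⊆ U)
      (fun p => {y | ∀ i ∈ p.1, |(y.1 i : ℝ) - x.1 i| ≤ p.2}) := by
    intro x _
    rw [hasBasis_iff]
    intro t
    constructor
    · intro ht
      obtain ⟨t', ht', hsub⟩ := mem_nhds_subtype _ _ _ |>.mp ht
      obtain ⟨t'', hsub', ho, hx''⟩ := mem_nhds_iff.mp ht'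
      obtain ⟨s, ε, hε, h⟩ := exists_small_box x (t'' ∩ U) (ho.inter hU) ⟨hx'', x.2.2⟩
      refine ⟨(s, ε), ⟨hε, h.trans inter_subset_right⟩, fun y hy => hsub ?_⟩
      exact hsub' (h hy).1
    · rintro ⟨⟨s, ε⟩, ⟨hε, -⟩, hsub⟩
      refine mem_of_superset ?_ hsub
      have : {y : (B ∩ U : Set (ℕ → I)) | ∀ i ∈ s, |(y.1 i : ℝ) - x.1 i| ≤ ε} =
          ⋂ i ∈ s, {y | |(y.1 i : ℝ) - x.1 i| ≤ ε} := by ext y; simp
      simp only
      rw [this]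
      refine (Filter.biInter_finset_mem s).mpr fun i _ => ?_
      have hcont : Continuous fun y : (B ∩ U : Set (ℕ → I)) => |(y.1 i : ℝ) - x.1 i| :=
        (((continuous_coord i).comp continuous_subtype_val).sub continuous_const).abs
      refine mem_of_superset ((isOpen_lt hcont continuous_const).mem_nhds
        (by simp [hε] : |(x.1 i : ℝ) - x.1 i| < ε)) ?_
      intro y hy
      have hy' : |(y.1 i : ℝ) - x.1 i| < ε := hy
      exact hy'.le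
  obtain ⟨α, c, r, hr, hcov, hlf⟩ := refinement_of_locallyCompact_sigmaCompact_of_nhds_basis_set
    (isClosed_univ) h2
  let D : α → Set (ℕ → I) := fun a => B ∩ {y | ∀ i ∈ (r a).1, |(y i : ℝ) - (c a).1 i| ≤ (r a).2}
  refine ⟨range D, ?_, ?_, ?_⟩
  · rintro _ ⟨a, rfl⟩
    exact exists_rel_box hB _ (c a).2.1 _ _ (hr a).2.1
  · ext x
    simp only [sUnion_range, mem_iUnion]
    constructor
    · rintro ⟨a, hx1, hx2⟩
      exact ⟨hx1, (hr a).2.2 hx2⟩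
    · rintro hx
      obtain ⟨a, ha⟩ := mem_iUnion.mp (hcov (mem_univ (⟨x, hx⟩ : (B ∩ U : Set (ℕ → I)))))
      exact ⟨a, hx.1, ha⟩
  · intro x hx
    simp only [sUnion_range, mem_iUnion] at hx
    obtain ⟨a, hx1, hx2⟩ := hx
    have hxU : x ∈ B ∩ U := ⟨hx1, (hr a).2.2 hx2⟩
    obtain ⟨t, ht, hfin⟩ := hlf ⟨x, hxU⟩
    obtain ⟨t', ht', hsub⟩ := mem_nhds_subtype _ _ _ |>.mp ht
    obtain ⟨O, hO', hO, hxO⟩ := mem_nhds_iff.mp ht'
    refine ⟨O, hO, hxO, (hfin.image D).subset ?_⟩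
    rintro _ ⟨⟨a', rfl⟩, y, hy1, hy2⟩
    refine ⟨a', ⟨⟨y, hy1.1, (hr a').2.2 hy1.2⟩, hy1.2, hsub (hO' hy2)⟩, rfl⟩

/-- local finiteness implies star-finiteness -/
lemma LF.star_finite {𝒞 : Set (Set (ℕ → I))} (h : LF 𝒞) (hB : ∀ B ∈ 𝒞, IsBCS B) :
    ∀ B ∈ 𝒞, {D | D ∈ 𝒞 ∧ (B ∩ D).Nonempty}.Finite := by
  intro B hBC
  choose! O hO hxO hfin using h
  obtain ⟨t, ht1, ht2⟩ := (hB B hBC).isCompact.elim_nhds_subcover O
    (fun x hx => (hO x ⟨B, hBC, hx⟩).mem_nhds (hxO x ⟨B, hBC, hx⟩))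
  refine (t.finite_toSet.biUnion (t := fun x => {D | D ∈ 𝒞 ∧ (D ∩ O x).Nonempty})
    fun x hx => hfin x ⟨B, hBC, ht1 x hx⟩).subset ?_
  rintro D ⟨hD, y, hy1, hy2⟩
  obtain ⟨x, hx, hyx⟩ := mem_iUnion₂.mp (ht2 hy1)
  exact mem_iUnion₂.mpr ⟨x, hx, hD, y, hy2, hyx⟩

/-- relatively open subsets of locally finite unions of basic closed sets are such unions -/
theorem open_cover {𝒞 : Set (Set (ℕ → I))} (hB : ∀ B ∈ 𝒞, IsBCS B) (h : LF 𝒞)
    (U : Set (ℕ → I)) (hU : IsOpen U) :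
    ∃ 𝒟 : Set (Set (ℕ → I)), (∀ D ∈ 𝒟, IsBCS D) ∧ ⋃₀ 𝒟 = ⋃₀ 𝒞 ∩ U ∧ LF 𝒟 := by
  have : ∀ B : 𝒞, ∃ 𝒟 : Set (Set (ℕ → I)), (∀ D ∈ 𝒟, IsBCS D) ∧ ⋃₀ 𝒟 = (B : Set (ℕ → I)) ∩ U ∧
      LF 𝒟 := fun B => open_cover_bcs (hB B B.2) U hU
  choose 𝒟 h1 h2 h3 using this
  refine ⟨⋃ B, 𝒟 B, ?_, ?_, ?_⟩
  · intro D hD
    obtain ⟨B, hD⟩ := mem_iUnion.mp hD
    exact h1 B D hD
  · ext x
    simp only [sUnion_iUnion, mem_iUnion, mem_inter_iff, mem_sUnion]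
    constructor
    · rintro ⟨B, hx⟩
      have hx : x ∈ ⋃₀ 𝒟 B := hx
      rw [h2 B] at hx
      exact ⟨⟨B, B.2, hx.1⟩, hx.2⟩
    · rintro ⟨⟨B, hBC, hx⟩, hxU⟩
      refine ⟨⟨B, hBC⟩, ?_⟩
      have : x ∈ ⋃₀ 𝒟 ⟨B, hBC⟩ := by rw [h2]; exact ⟨hx, hxU⟩
      exact this
  · intro x hx
    simp only [sUnion_iUnion, mem_iUnion] at hx
    obtain ⟨B0, hx0⟩ := hx
    rw [h2 B0] at hx0
    obtain ⟨O, hO, hxO, hfin⟩ := h x ⟨B0, B0.2, hx0.1⟩
    -- neighbourhoods for each of the finitely many members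
    have key : ∀ B : 𝒞, ∃ N : Set (ℕ → I), IsOpen N ∧ x ∈ N ∧
        {D | D ∈ 𝒟 B ∧ (D ∩ N).Nonempty}.Finite := by
      intro B
      by_cases hxB : x ∈ (B : Set (ℕ → I))
      · exact h3 B x (by rw [h2 B]; exact ⟨hxB, hx0.2⟩)
      · refine ⟨(B : Set (ℕ → I))ᶜ, (hB B B.2).isCompact.isClosed.isOpen_compl, hxB, ?_⟩
        convert Set.finite_empty
        ext D
        simp only [mem_ofPred_eq, mem_empty_iff_false, iff_false, not_and]
        rintro hD ⟨y, hy1, hy2⟩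
        apply hy2
        have : y ∈ ⋃₀ 𝒟 B := ⟨D, hD, hy1⟩
        rw [h2 B] at this
        exact this.1
    choose N hN hxN hNfin using key
    have hS : {B : 𝒞 | ((B : Set (ℕ → I)) ∩ O).Nonempty}.Finite := by
      refine (hfin.preimage (f := fun B : 𝒞 => (B : Set (ℕ → I)))
        Subtype.val_injective.injOn).subset ?_
      intro B hB'
      exact ⟨B.2, hB'⟩
    refine ⟨O ∩ ⋂ B ∈ {B : 𝒞 | ((B : Set (ℕ → I)) ∩ O).Nonempty}, N B,
      hO.inter (hS.isOpen_biInter fun B _ => hN B), ⟨hxO, mem_iInter₂.mpr fun B _ => hxN B⟩, ?_⟩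
    refine (hS.biUnion fun B _ => hNfin B).subset ?_
    rintro D ⟨hD, y, hy1, hy2, hy3⟩
    obtain ⟨B, hDB⟩ := mem_iUnion.mp hD
    have hyB : y ∈ (B : Set (ℕ → I)) ∩ U := by rw [← h2 B]; exact ⟨D, hDB, hy1⟩
    have hBS : B ∈ {B : 𝒞 | ((B : Set (ℕ → I)) ∩ O).Nonempty} := ⟨y, hyB.1, hy2⟩
    exact mem_iUnion₂.mpr ⟨B, hBS, hDB, y, hy1, mem_iInter₂.mp hy3 B hBS⟩

end

end Pool.Agent.H236_QM
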