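import Pool.Agent.H236_QM.SD
import Pool.Agent.H236_QM.Open

/-!
# Products of polyhedra with the Hilbert cube
-/

set_option autoImplicit false

namespace Pool.Agent.H236_QM

open Set Filter Topology

noncomputable section

/-- **The main theorem for products.** -/
theorem poly_embeds {V : Type} [Countable V] (K : Cx V) :
    ∃ f : K.poly × (ℕ → I) → (ℕ → I), IsEmbedding f ∧
      ∃ 𝒞 : Set (Set (ℕ → I)), (∀ B ∈ 𝒞, ∃ a b : ℕ → ℝ,
        (∀ i, (a i = 0 ∧ b i = 1) ∨ (a i = 0 ∧ b i = 1/2) ∨ (a i = 0 ∧ b i = 1/4) ∨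
          (a i = 1/2 ∧ b i = 1)) ∧ {i | a i ≠ 0 ∨ b i ≠ 1}.Finite ∧
        B = {x | ∀ i, a i ≤ (x i : ℝ) ∧ (x i : ℝ) ≤ b i}) ∧ LF 𝒞 ∧ range f = ⋃₀ 𝒞 := by
  classical
  rcases isEmpty_or_nonempty K.faces with hE | ⟨⟨σ0⟩⟩
  · have : IsEmpty K.poly := ⟨fun p => by
      obtain ⟨σ, hσ, -⟩ := p.2.2
      exact hE.false ⟨σ, hσ⟩⟩
    have hE2 : IsEmpty (K.poly × (ℕ → I)) := ⟨fun p => this.false p.1⟩
    refine ⟨fun x => (hE2.false x).elim, ⟨⟨?_⟩, fun x => (hE2.false x).elim⟩, ∅, by simp,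
      fun x hx => ?_, ?_⟩
    · exact Subsingleton.elim _ _
    · simp at hx
    · ext y
      simp only [mem_range, sUnion_empty, mem_empty_iff_false, iff_false, not_exists]
      intro x
      exact (hE2.false x).elim
  · obtain ⟨e, -⟩ := exists_enum σ0
    have : Encodable K.faces := Encodable.ofCountable _
    let r : K.faces → ℕ := Encodable.encode
    have hr : Function.Injective r := Encodable.encode_injective
    have hs := fr_symm K
    have hirr := fr_irrefl K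
    have hlf := near_finite K
    obtain ⟨f, hf, hfr⟩ := exists_embedding (C := CX (fr K)) (B := BX (fr K) r)
      (CX_sys hs hirr hlf) (BX_sys hs hirr hlf hr) hlf hirr CX_cover (CX_locallyFinite hlf)
      (fun y v hy => BX_locfin hs hirr hlf hr y v hy)
    let h : K.poly × (ℕ → I) ≃ₜ ZX (fr K) :=
      ((sdHomeo K).symm.prodCongr (Homeomorph.refl _)).trans (XIhomeo e)
    refine ⟨f ∘ h, hf.comp h.isEmbedding, range (BX (fr K) r), ?_, ?_, ?_⟩
    · rintro _ ⟨v, rfl⟩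
      refine ⟨lo r v, hi (fr K) r v, fun i => ?_, restricted_finite hlf v, rfl⟩
      have hlt := lo_lt_hi hirr hr v i
      rcases lo_mem (e := r) v i with h1 | h1 <;>
        rcases hi_mem (far := fr K) (e := r) v i with h2 | h2 | h2 <;>
        rw [h1, h2] at hlt ⊢ <;> norm_num <;> norm_num at hlt
    · intro x hx
      obtain ⟨B, ⟨v, rfl⟩, hxv⟩ := hx
      obtain ⟨O, hO, hxO, hfin⟩ := BX_locfin hs hirr hlf hr x v hxv
      refine ⟨O, hO, hxO, (hfin.image (BX (fr K) r)).subset ?_⟩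
      rintro D ⟨⟨u, rfl⟩, hne⟩
      exact ⟨u, hne, rfl⟩
    · rw [range_comp, h.surjective.range_eq, image_univ, hfr, sUnion_range]

lemma isBCS_of_sides {B : Set (ℕ → I)} (h : ∃ a b : ℕ → ℝ,
    (∀ i, (a i = 0 ∧ b i = 1) ∨ (a i = 0 ∧ b i = 1/2) ∨ (a i = 0 ∧ b i = 1/4) ∨
      (a i = 1/2 ∧ b i = 1)) ∧ {i | a i ≠ 0 ∨ b i ≠ 1}.Finite ∧
    B = {x | ∀ i, a i ≤ (x i : ℝ) ∧ (x i : ℝ) ≤ b i}) : IsBCS B := by
  obtain ⟨a, b, h1, h2, h3⟩ := h
  refine ⟨a, b, fun i => ?_, h2, h3⟩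
  rcases h1 i with ⟨h, h'⟩ | ⟨h, h'⟩ | ⟨h, h'⟩ | ⟨h, h'⟩ <;> rw [h, h'] <;> norm_num

/-- **Open subsets of products.** -/
theorem open_embeds {V : Type} [Countable V] (K : Cx V) (M : Type*) [TopologicalSpace M]
    (U : Set (K.poly × (ℕ → I))) (hU : IsOpen U) (h : M ≃ₜ U) :
    ∃ f : M → (ℕ → I), IsEmbedding f ∧
      ∃ 𝒞 : Set (Set (ℕ → I)), (∀ B ∈ 𝒞, IsBCS B) ∧ LF 𝒞 ∧ range f = ⋃₀ 𝒞 := by
  obtain ⟨f, hf, 𝒞, hB, hLF, hr⟩ := poly_embeds K
  obtain ⟨U', hU', rfl⟩ := hf.isInducing.isOpen_iff.mp hU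
  obtain ⟨𝒟, h1, h2, h3⟩ := open_cover (fun B hB' => isBCS_of_sides (hB B hB')) hLF U' hU'
  refine ⟨f ∘ Subtype.val ∘ h, hf.comp (IsEmbedding.subtypeVal.comp h.isEmbedding), 𝒟, h1, h3, ?_⟩
  rw [h2, ← hr, range_comp, range_comp, h.surjective.range_eq, image_univ, Subtype.range_val,
    image_preimage_eq_inter_range, inter_comm]

end

end Pool.Agent.H236_QM
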