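import Pool.Agent.H236_QM.KTrick
import Pool.Agent.H236_QM.Glue

/-!
# The regular cover of `X × Q` for the cubical model `X` of a locally finite flag complex
-/

set_option autoImplicit false

namespace Pool.Agent.H236_QM

open Set Filter Topology

noncomputable section

/-- the space `X × Q` in sequence form -/
def ZX {V : Type} (far : V → V → Prop) : Type :=
  {z : V → ℕ → I // (∃ v, (z v 0 : ℝ) = 1) ∧ ∀ u v, far u v → (z u 0 : ℝ) = 0 ∨ (z v 0 : ℝ) = 0}

instance {V : Type} (far : V → V → Prop) : TopologicalSpace (ZX far) := instTopologicalSpaceSubtype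
instance {V : Type} (far : V → V → Prop) : T2Space (ZX far) := inferInstanceAs (T2Space (Subtype _))

/-- the members of the cover -/
def CX {V : Type} (far : V → V → Prop) (v : V) : Set (ZX far) := {z | (z.1 v 0 : ℝ) = 1}

section

variable {V : Type} {far : V → V → Prop}

lemma continuous_zv (v : V) (k : ℕ) : Continuous fun z : V → ℕ → I => (z v k : ℝ) :=
  continuous_subtype_val.comp ((continuous_apply k).comp (continuous_apply v))

lemma continuous_ZXv (v : V) (k : ℕ) : Continuous fun z : ZX far => z.1 v k :=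
  (continuous_apply k).comp ((continuous_apply v).comp continuous_subtype_val)

lemma isClosed_CX (v : V) : IsClosed (CX far v) :=
  isClosed_eq ((continuous_zv v 0).comp continuous_subtype_val) continuous_const

lemma isCompact_CX (v : V) : IsCompact (CX far v) := by
  have h1 : IsClosed {z : V → ℕ → I | (z v 0 : ℝ) = 1 ∧
      ∀ u w, far u w → (z u 0 : ℝ) = 0 ∨ (z w 0 : ℝ) = 0} := by
    rw [ofPred_and]
    refine (isClosed_eq (continuous_zv v 0) continuous_const).inter ?_
    simp only [ofPred_forall]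
    refine isClosed_iInter fun u => isClosed_iInter fun v => isClosed_iInter fun _ => ?_
    rw [ofPred_or]
    exact (isClosed_eq (continuous_zv u 0) continuous_const).union
      (isClosed_eq (continuous_zv v 0) continuous_const)
  have h2 : IsCompact ((Subtype.val : ZX far → (V → ℕ → I)) '' (CX far v)) := by
    convert h1.isCompact using 1
    ext z
    constructor
    · rintro ⟨z, hz, rfl⟩
      exact ⟨hz, z.2.2⟩
    · rintro ⟨hz1, hz2⟩
      exact ⟨⟨z, ⟨v, hz1⟩, hz2⟩, hz1, rfl⟩
  exact Subtype.isCompact_iff.mpr h2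

lemma CX_disj (u v : V) (h : far u v) (x : ZX far) (hx : x ∈ CX far u) : x ∉ CX far v := by
  intro hv
  have h1 : (x.1 u 0 : ℝ) = 1 := hx
  have h2 : (x.1 v 0 : ℝ) = 1 := hv
  rcases x.2.2 u v h with h3 | h3
  · rw [h1] at h3; norm_num at h3
  · rw [h2] at h3; norm_num at h3

lemma exists_enum [Countable V] (v : V) : ∃ _e : ℕ ≃ V × ℕ, True := by
  have : Nonempty V := ⟨v⟩
  obtain ⟨h⟩ := nonempty_denumerable (V × ℕ)
  exact ⟨(Denumerable.eqv _).symm, trivial⟩

lemma CX_tame [Countable V] (hs : ∀ u v, far u v → far v u) (hirr : ∀ u, ¬ far u u)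
    (hlf : ∀ v, {w | ¬ far v w}.Finite) (σ : Finset V) (hσ : Clq far σ) :
    ∃ (φ : cell (CX far) σ ≃ₜ (ℕ → I)) (F : Finset ℕ),
      ∀ x : cell (CX far) σ, ∀ w, w ∉ σ → (x : ZX far) ∈ CX far w →
        ∃ i ∈ F, (φ x i : ℝ) = 0 := by
  classical
  obtain ⟨v0, hv0⟩ := hσ.1
  obtain ⟨e, -⟩ := exists_enum v0
  have hLfin := Lks_finite (far := far) hlf hσ.1
  have : Fintype (Lks far σ) := hLfin.fintype
  obtain ⟨Θ, hΘ⟩ := exists_khomeo (far := fun a b : Lks far σ => far a b)
    (fun u v h => hs _ _ h) (fun u => hirr _)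
  let res : cell (CX far) σ → ZL (fun a b : Lks far σ => far a b) := fun x =>
    ⟨fun w => x.1.1 w, fun u v h => x.1.2.2 _ _ h⟩
  have hres : Continuous res := by
    refine Continuous.subtype_mk (continuous_pi fun w => continuous_pi fun k => ?_) _
    exact (continuous_ZXv (w : V) k).comp continuous_subtype_val
  let φ0 : cell (CX far) σ → (ℕ → I) := fun x n =>
    if h : (e n).1 ∈ Lks far σ then Θ (res x) ⟨(e n).1, h⟩ (e n).2
    else x.1.1 (e n).1 ((e n).2 + 1)
  have hφ1 : ∀ x (w : Lks far σ) k, φ0 x (e.symm ((w : V), k)) = Θ (res x) w k := by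
    intro x w k
    simp only [φ0]
    rw [dif_pos (by rw [Equiv.apply_symm_apply]; exact w.2)]
    simp [Equiv.apply_symm_apply]
  have hφ2 : ∀ x (w : V) (_ : w ∉ Lks far σ) k, φ0 x (e.symm (w, k)) = x.1.1 w (k + 1) := by
    intro x w hw k
    simp only [φ0]
    rw [dif_neg (by rw [Equiv.apply_symm_apply]; exact hw)]
    simp [Equiv.apply_symm_apply]
  have hφc : Continuous φ0 := by
    refine continuous_pi fun n => ?_
    by_cases h : (e n).1 ∈ Lks far σ
    · have : (fun x => φ0 x n) = fun x => Θ (res x) ⟨(e n).1, h⟩ (e n).2 := by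
        funext x; simp only [φ0]; rw [dif_pos h]
      rw [this]
      exact (continuous_apply _).comp ((continuous_apply _).comp (Θ.continuous.comp hres))
    · have : (fun x => φ0 x n) = fun x : cell (CX far) σ => x.1.1 (e n).1 ((e n).2 + 1) := by
        funext x; simp only [φ0]; rw [dif_neg h]
      rw [this]
      exact (continuous_ZXv _ _).comp continuous_subtype_val
  -- values at the vertices outside the link
  have hout : ∀ x : cell (CX far) σ, ∀ w, w ∉ Lks far σ → w ∉ σ → (x.1.1 w 0 : ℝ) = 0 := by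
    intro x w h1 h2
    have : ∃ v ∈ σ, far v w := by
      by_contra h
      push Not at h
      exact h1 ⟨h2, h⟩
    obtain ⟨v, hv, hvw⟩ := this
    have hx1 : (x.1.1 v 0 : ℝ) = 1 := x.2 v hv
    rcases x.1.2.2 v w hvw with h | h
    · rw [hx1] at h; norm_num at h
    · exact h
  have hinj : Function.Injective φ0 := by
    intro x y hxy
    have h1 : res x = res y := by
      apply Θ.injective
      funext w k
      rw [← hφ1, ← hφ1, hxy]
    apply Subtype.ext
    apply Subtype.ext
    funext w k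
    by_cases hw : w ∈ Lks far σ
    · exact congrFun (congrFun (congrArg Subtype.val h1) ⟨w, hw⟩) k
    · rcases k with _ | k
      · by_cases hwσ : w ∈ σ
        · have hx1 : (x.1.1 w 0 : ℝ) = 1 := x.2 w hwσ
          have hy1 : (y.1.1 w 0 : ℝ) = 1 := y.2 w hwσ
          exact Subtype.ext (hx1.trans hy1.symm)
        · exact Subtype.ext ((hout x w hw hwσ).trans (hout y w hw hwσ).symm)
      · rw [← hφ2 x w hw, ← hφ2 y w hw, hxy]
  have hsurj : Function.Surjective φ0 := by
    intro t
    let zL := Θ.symm (fun w k => t (e.symm ((w : V), k)))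
    let z : V → ℕ → I := fun w => if h : w ∈ Lks far σ then zL.1 ⟨w, h⟩ else
      fun k => Nat.casesOn k (if w ∈ σ then 1 else 0) (fun k => t (e.symm (w, k)))
    have hz1 : ∀ w (h : w ∈ Lks far σ), z w = zL.1 ⟨w, h⟩ := fun w h => dif_pos h
    have hz2 : ∀ w (_ : w ∉ Lks far σ) k, z w (k + 1) = t (e.symm (w, k)) := fun w h k => by
      simp only [z]; rw [dif_neg h]
    have hz3 : ∀ w ∈ σ, (z w 0 : ℝ) = 1 := fun w h => by
      have : w ∉ Lks far σ := fun hw => hw.1 h
      simp only [z]; rw [dif_neg this]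
      simp [h]
    have hz4 : ∀ w, w ∉ Lks far σ → w ∉ σ → (z w 0 : ℝ) = 0 := fun w h1 h2 => by
      simp only [z]; rw [dif_neg h1]
      simp [h2]
    have hzX : ∀ u v, far u v → (z u 0 : ℝ) = 0 ∨ (z v 0 : ℝ) = 0 := by
      intro u v huv
      by_cases hu : u ∈ Lks far σ
      · by_cases hv : v ∈ Lks far σ
        · have := zL.2 ⟨u, hu⟩ ⟨v, hv⟩ huv
          rw [hz1 u hu, hz1 v hv]; exact this
        · by_cases hvσ : v ∈ σ
          · exact absurd (hs _ _ huv) (hu.2 v hvσ)
          · exact Or.inr (hz4 v hv hvσ)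
      · by_cases huσ : u ∈ σ
        · by_cases hv : v ∈ Lks far σ
          · exact absurd huv (hv.2 u huσ)
          · by_cases hvσ : v ∈ σ
            · exact absurd huv (hσ.2 u huσ v hvσ)
            · exact Or.inr (hz4 v hv hvσ)
        · exact Or.inl (hz4 u hu huσ)
    let x : cell (CX far) σ := ⟨⟨z, ⟨v0, hz3 v0 hv0⟩, hzX⟩, fun v hv => hz3 v hv⟩
    have hresx : res x = zL := by
      apply Subtype.ext
      funext w
      exact hz1 w w.2
    refine ⟨x, ?_⟩
    funext n
    obtain ⟨⟨w, k⟩, rfl⟩ : ∃ p, e.symm p = n := ⟨e n, e.symm_apply_apply n⟩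
    by_cases hw : w ∈ Lks far σ
    · rw [hφ1 x ⟨w, hw⟩ k, hresx]
      simp only [zL, Homeomorph.apply_symm_apply]
    · rw [hφ2 x w hw k]
      exact hz2 w hw k
  have : CompactSpace (cell (CX far) σ) := by
    refine isCompact_iff_compactSpace.mp ?_
    refine (isCompact_CX (far := far) v0).of_isClosed_subset ?_ fun x hx => hx v0 hv0
    have : cell (CX far) σ = ⋂ v ∈ σ, CX far v := by ext x; simp [cell]
    rw [this]
    exact isClosed_biInter fun v _ => isClosed_CX v
  refine ⟨Continuous.homeoOfEquivCompactToT2 (f := Equiv.ofBijective φ0 ⟨hinj, hsurj⟩) hφc,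
    (Finset.univ : Finset (Lks far σ)).image (fun w : Lks far σ => e.symm ((w : V), 0)), ?_⟩
  intro x w hw hxw
  have hxw1 : (x.1.1 w 0 : ℝ) = 1 := hxw
  have hwL : w ∈ Lks far σ := by
    refine ⟨hw, fun v hv hf => ?_⟩
    have hx1 : (x.1.1 v 0 : ℝ) = 1 := x.2 v hv
    rcases x.1.2.2 v w hf with h | h
    · rw [hx1] at h; norm_num at h
    · rw [hxw1] at h; norm_num at h
  refine ⟨e.symm (w, 0), Finset.mem_image.mpr
    ⟨(⟨w, hwL⟩ : Lks far σ), Finset.mem_univ _, rfl⟩, ?_⟩
  change (φ0 x (e.symm (w, 0)) : ℝ) = 0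
  rw [hφ1 x ⟨w, hwL⟩ 0]
  exact hΘ _ _ hxw1

theorem CX_sys [Countable V] (hs : ∀ u v, far u v → far v u) (hirr : ∀ u, ¬ far u u)
    (hlf : ∀ v, {w | ¬ far v w}.Finite) : Sys far (CX far) where
  closed := isClosed_CX
  compact := isCompact_CX
  disj := CX_disj
  tame := CX_tame hs hirr hlf

lemma CX_cover (x : ZX far) : ∃ v, x ∈ CX far v := x.2.1

lemma CX_locallyFinite (hlf : ∀ v, {w | ¬ far v w}.Finite) : LocallyFinite (CX far) := by
  intro x
  obtain ⟨v, hv⟩ := x.2.1
  refine ⟨{y | 0 < (y.1 v 0 : ℝ)}, ?_, (hlf v).subset ?_⟩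
  · refine IsOpen.mem_nhds (isOpen_lt continuous_const
      ((continuous_zv v 0).comp continuous_subtype_val)) ?_
    simp only [mem_ofPred_eq]
    rw [hv]; norm_num
  · rintro w ⟨y, hyw, hyv⟩
    intro hf
    have h1 : (y.1 w 0 : ℝ) = 1 := hyw
    have h2 : 0 < (y.1 v 0 : ℝ) := hyv
    rcases y.2.2 v w hf with h | h
    · exact h2.ne' h
    · rw [h1] at h; norm_num at h

/-- the cubical model -/
def XI {V : Type} (far : V → V → Prop) : Type :=
  {x : V → I // (∃ v, (x v : ℝ) = 1) ∧ ∀ u v, far u v → (x u : ℝ) = 0 ∨ (x v : ℝ) = 0}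

instance {V : Type} (far : V → V → Prop) : TopologicalSpace (XI far) := instTopologicalSpaceSubtype
instance {V : Type} (far : V → V → Prop) : T2Space (XI far) := inferInstanceAs (T2Space (Subtype _))

/-- `X × Q` in sequence form -/
def XIhomeo (e : ℕ ≃ V × ℕ) : XI far × (ℕ → I) ≃ₜ ZX far where
  toFun p := ⟨fun v k => Nat.casesOn k (p.1.1 v) (fun k => p.2 (e.symm (v, k))), p.1.2.1, p.1.2.2⟩
  invFun z := (⟨fun v => z.1 v 0, z.2.1, z.2.2⟩, fun n => z.1 (e n).1 ((e n).2 + 1))
  left_inv p := by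
    refine Prod.ext (Subtype.ext rfl) ?_
    funext n
    change p.2 (e.symm ((e n).1, (e n).2)) = p.2 n
    rw [Prod.mk.eta, Equiv.symm_apply_apply]
  right_inv z := by
    apply Subtype.ext
    funext v k
    rcases k with _ | k
    · rfl
    · change z.1 (e (e.symm (v, k))).1 ((e (e.symm (v, k))).2 + 1) = z.1 v (k + 1)
      rw [Equiv.apply_symm_apply]
  continuous_toFun := by
    refine Continuous.subtype_mk (continuous_pi fun v => continuous_pi fun k => ?_) _
    rcases k with _ | k
    · exact (continuous_apply v).comp (continuous_subtype_val.comp continuous_fst)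
    · exact (continuous_apply _).comp continuous_snd
  continuous_invFun := by
    refine Continuous.prodMk (Continuous.subtype_mk (continuous_pi fun v => ?_) _)
      (continuous_pi fun n => ?_)
    · exact continuous_ZXv v 0
    · exact continuous_ZXv _ _

end

end

end Pool.Agent.H236_QM
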