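import Pool.Agent.H236_QM.Poly
import Pool.Agent.H236_QM.Defs

/-!
# Polyhedra and the cubical model of the barycentric subdivision
-/

set_option autoImplicit false

namespace Pool.Agent.H236_QM

open Set Filter Topology

noncomputable section

section

variable {V : Type} (K : Cx V)

/-- incomparable faces -/
def fr (σ τ : K.faces) : Prop := ¬ (σ : Finset V) ⊆ τ ∧ ¬ (τ : Finset V) ⊆ σ

lemma fr_symm (σ τ : K.faces) (h : fr K σ τ) : fr K τ σ := ⟨h.2, h.1⟩
lemma fr_irrefl (σ : K.faces) : ¬ fr K σ σ := fun h => h.1 (Finset.Subset.refl _)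

lemma star_finite (v : V) : {σ : K.faces | v ∈ (σ : Finset V)}.Finite := by
  have := (K.locfin v).preimage (f := fun σ : K.faces => (σ : Finset V))
    Subtype.val_injective.injOn
  refine this.subset ?_
  intro σ hσ
  exact ⟨σ.2, hσ⟩

lemma meet_finite (σ : Finset V) :
    {τ : K.faces | ∃ v ∈ σ, v ∈ (τ : Finset V)}.Finite := by
  have : {τ : K.faces | ∃ v ∈ σ, v ∈ (τ : Finset V)} =
      ⋃ v ∈ (σ : Set V), {τ : K.faces | v ∈ (τ : Finset V)} := by
    ext τ; simp
  rw [this]
  exact σ.finite_toSet.biUnion fun v _ => star_finite K v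

lemma near_finite (σ : K.faces) : {τ | ¬ fr K σ τ}.Finite := by
  refine (meet_finite K σ).subset ?_
  intro τ hτ
  have h : (σ : Finset V) ⊆ τ ∨ (τ : Finset V) ⊆ σ := by
    have h1 : ¬ fr K σ τ := hτ
    unfold fr at h1
    tauto
  rcases h with h | h
  · obtain ⟨v, hv⟩ := K.nonempty σ σ.2
    exact ⟨v, hv, h hv⟩
  · obtain ⟨v, hv⟩ := K.nonempty τ τ.2
    exact ⟨v, h hv, hv⟩

/-- the sums over stars -/
def q (x : K.faces → ℝ) (v : V) : ℝ := ∑ σ ∈ (star_finite K v).toFinset, x σ

lemma mem_star {v : V} {σ : K.faces} : σ ∈ (star_finite K v).toFinset ↔ v ∈ (σ : Finset V) := by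
  simp

/-- the vectors supported on a finite chain -/
structure Chn (x : K.faces → ℝ) : Prop where
  nonneg : ∀ σ, 0 ≤ x σ
  fin : {σ | x σ ≠ 0}.Finite
  chain : ∀ σ τ, fr K σ τ → x σ = 0 ∨ x τ = 0

variable {K}

lemma Chn.comp {x : K.faces → ℝ} (hx : Chn K x) {σ τ : K.faces} (h1 : x σ ≠ 0) (h2 : x τ ≠ 0) :
    (σ : Finset V) ⊆ τ ∨ (τ : Finset V) ⊆ σ := by
  by_contra h
  push Not at h
  rcases hx.chain σ τ ⟨h.1, h.2⟩ with h' | h'
  · exact h1 h'
  · exact h2 h'

lemma Chn.sub_of_card {x : K.faces → ℝ} (hx : Chn K x) {σ τ : K.faces} (h1 : x σ ≠ 0)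
    (h2 : x τ ≠ 0) (hc : (σ : Finset V).card ≤ (τ : Finset V).card) : (σ : Finset V) ⊆ τ := by
  rcases hx.comp h1 h2 with h | h
  · exact h
  · exact (Finset.eq_of_subset_of_card_le h hc).symm.subset

/-- the key step for injectivity -/
lemma inj_step {x x' : K.faces → ℝ} (hx : Chn K x) (hx' : Chn K x')
    (hq : ∀ v, q K x v = q K x' v) (σ : K.faces)
    (hmax : ∀ τ : K.faces, (σ : Finset V).card < (τ : Finset V).card → x τ = x' τ)
    (hlt : x' σ < x σ) : False := by
  classical
  have key : ∀ v ∈ (σ : Finset V), ∃ τ : K.faces, v ∈ (τ : Finset V) ∧ τ ≠ σ ∧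
      (τ : Finset V).card ≤ (σ : Finset V).card ∧ x' τ ≠ 0 := by
    intro v hv
    by_contra hcon
    push Not at hcon
    have h0 : ∑ τ ∈ (star_finite K v).toFinset, (x τ - x' τ) = 0 := by
      rw [Finset.sum_sub_distrib]
      have := hq v
      unfold q at this
      rw [this]; ring
    have hpos : 0 < ∑ τ ∈ (star_finite K v).toFinset, (x τ - x' τ) := by
      refine Finset.sum_pos' (fun τ hτ => ?_) ⟨σ, (mem_star K).mpr hv, sub_pos.mpr hlt⟩
      by_cases h1 : τ = σ
      · rw [h1]; exact (sub_pos.mpr hlt).le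
      · rcases lt_or_ge (σ : Finset V).card (τ : Finset V).card with h2 | h2
        · rw [hmax τ h2]; simp
        · rw [hcon τ ((mem_star K).mp hτ) h1 h2, sub_zero]; exact hx.nonneg τ
    exact hpos.ne' h0
  have : Nonempty K.faces := ⟨σ⟩
  choose! t ht using key
  obtain ⟨v0, hv0⟩ := K.nonempty σ σ.2
  obtain ⟨v1, hv1, hvmax⟩ := Finset.exists_max_image (σ : Finset V)
    (fun v => ((t v : K.faces) : Finset V).card) ⟨v0, hv0⟩
  have hsub : (σ : Finset V) ⊆ t v1 := by
    intro v hv
    exact hx'.sub_of_card (ht v hv).2.2.2 (ht v1 hv1).2.2.2 (hvmax v hv) (ht v hv).1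
  have := Finset.eq_of_subset_of_card_le hsub (ht v1 hv1).2.2.1
  exact (ht v1 hv1).2.1 (Subtype.ext this.symm)

lemma q_inj {x x' : K.faces → ℝ} (hx : Chn K x) (hx' : Chn K x')
    (hq : ∀ v, q K x v = q K x' v) : x = x' := by
  classical
  by_contra hne
  have hS : {σ | x σ ≠ x' σ}.Finite := by
    refine (hx.fin.union hx'.fin).subset ?_
    intro σ hσ
    by_contra h
    simp only [mem_union, mem_ofPred_eq, not_or, not_not] at h
    exact hσ (h.1.trans h.2.symm)
  have hSne : hS.toFinset.Nonempty := by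
    by_contra h
    rw [Finset.not_nonempty_iff_eq_empty] at h
    apply hne
    funext σ
    by_contra h'
    have : σ ∈ hS.toFinset := hS.mem_toFinset.mpr h'
    rw [h] at this
    exact absurd this (Finset.notMem_empty _)
  obtain ⟨σ, hσ, hmax⟩ := Finset.exists_max_image hS.toFinset
    (fun σ => (σ : Finset V).card) hSne
  have hmax' : ∀ τ : K.faces, (σ : Finset V).card < (τ : Finset V).card → x τ = x' τ := by
    intro τ hτ
    by_contra h
    exact absurd (hmax τ (hS.mem_toFinset.mpr h)) (not_le.mpr hτ)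
  rcases lt_or_gt_of_ne (hS.mem_toFinset.mp hσ) with h | h
  · exact inj_step hx' hx (fun v => (hq v).symm) σ (fun τ hτ => (hmax' τ hτ).symm) h
  · exact inj_step hx hx' hq σ hmax' h

lemma q_surj (n : ℕ) : ∀ (p : V → ℝ) (S : Finset V), S.card = n → (∀ v, 0 ≤ p v) →
    (∀ v, v ∈ S ↔ p v ≠ 0) → (S.Nonempty → S ∈ K.faces) →
    ∃ x : K.faces → ℝ, Chn K x ∧ (∀ τ : K.faces, x τ ≠ 0 → (τ : Finset V) ⊆ S) ∧
      ∀ v, q K x v = p v := by
  classical
  induction' n using Nat.strong_induction_on with n ih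
  intro p S hn hp hS hSK
  rcases S.eq_empty_or_nonempty with h | hne
  · refine ⟨fun _ => 0, ⟨fun _ => le_rfl, by simp, fun _ _ _ => Or.inl rfl⟩,
      fun τ h => absurd rfl h, fun v => ?_⟩
    have : p v = 0 := by
      by_contra h'
      have := (hS v).mpr h'
      rw [h] at this
      exact absurd this (Finset.notMem_empty _)
    simp [q, this]
  · obtain ⟨v0, hv0, hmin⟩ := Finset.exists_min_image S p hne
    set c := p v0 with hc
    have hcpos : 0 < c := lt_of_le_of_ne (hp v0) ((hS v0).mp hv0).symm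
    let p' : V → ℝ := fun v => if v ∈ S then p v - c else 0
    let S' : Finset V := S.filter fun v => p v ≠ c
    have hS'S : S' ⊆ S := Finset.filter_subset _ _
    have hv0' : v0 ∉ S' := by simp [S', hc]
    have hcard : S'.card < n := by
      rw [← hn]
      exact Finset.card_lt_card ⟨hS'S, fun h => hv0' (h hv0)⟩
    obtain ⟨x', hx', hxs, hxq⟩ := ih S'.card hcard p' S' rfl
      (fun v => by
        simp only [p']; split_ifs with h
        · exact sub_nonneg.mpr (hmin v h)
        · exact le_rfl)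
      (fun v => by
        simp only [p', S', Finset.mem_filter]
        constructor
        · rintro ⟨h1, h2⟩
          rw [if_pos h1]; exact sub_ne_zero.mpr h2
        · intro h
          by_cases h1 : v ∈ S
          · rw [if_pos h1] at h
            exact ⟨h1, sub_ne_zero.mp h⟩
          · rw [if_neg h1] at h; exact absurd rfl h)
      (fun h => K.down S (hSK hne) S' hS'S h)
    let s : K.faces := ⟨S, hSK hne⟩
    let x : K.faces → ℝ := fun τ => x' τ + if τ = s then c else 0
    have hx's : x' s = 0 := by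
      by_contra h
      exact hv0' (hxs s h hv0)
    refine ⟨x, ⟨fun τ => ?_, ?_, ?_⟩, ?_, ?_⟩
    · simp only [x]
      have := hx'.nonneg τ
      split_ifs <;> linarith
    · refine (hx'.fin.union (Set.finite_singleton s)).subset ?_
      intro τ hτ
      by_contra h
      simp only [mem_union, mem_ofPred_eq, mem_singleton_iff, not_or, not_not] at h
      apply hτ
      simp only [x]
      rw [h.1, if_neg h.2]; simp
    · intro σ τ hf
      by_cases h1 : σ = s
      · right
        have hτs : τ ≠ s := fun h => fr_irrefl K s (by rw [h1, h] at hf; exact hf)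
        have : x' τ = 0 := by
          by_contra h
          have := (hxs τ h).trans hS'S
          apply hf.2
          rw [h1]; exact this
        simp only [x]
        rw [this, if_neg hτs]; simp
      · by_cases h2 : τ = s
        · left
          have : x' σ = 0 := by
            by_contra h
            have := (hxs σ h).trans hS'S
            apply hf.1
            rw [h2]; exact this
          simp only [x]
          rw [this, if_neg h1]; simp
        · simp only [x]
          rw [if_neg h1, if_neg h2]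
          simpa using hx'.chain σ τ hf
    · intro τ hτ
      by_cases h1 : τ = s
      · rw [h1]
      · have : x' τ ≠ 0 := by
          intro h
          apply hτ
          simp only [x]
          rw [h, if_neg h1]; simp
        exact (hxs τ this).trans hS'S
    · intro v
      have e1 : q K x v = q K x' v + ∑ τ ∈ (star_finite K v).toFinset, (if τ = s then c else 0) := by
        simp only [q, x]
        rw [Finset.sum_add_distrib]
      rw [e1, hxq v, Finset.sum_ite_eq']
      simp only [p']
      by_cases h : v ∈ S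
      · rw [if_pos h, if_pos ((mem_star K).mpr h)]; ring
      · rw [if_neg h, if_neg (fun h' => h ((mem_star K).mp h'))]
        by_contra h'
        apply h
        rw [hS v]
        intro h2
        apply h'
        rw [h2]; ring

/-- real coordinates -/
def xr (x : XI (fr K)) : K.faces → ℝ := fun σ => (x.1 σ : ℝ)

lemma chn_xr (x : XI (fr K)) : Chn K (xr x) := by
  obtain ⟨τ, hτ⟩ := x.2.1
  refine ⟨fun σ => (x.1 σ).2.1, (near_finite K τ).subset ?_, x.2.2⟩
  intro σ hσ hf
  rcases x.2.2 τ σ hf with h | h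
  · rw [hτ] at h; norm_num at h
  · exact hσ h

/-- the largest face of the support -/
lemma exists_top {x : K.faces → ℝ} (hx : Chn K x) (hne : ∃ σ, x σ ≠ 0) :
    ∃ s : K.faces, x s ≠ 0 ∧ ∀ v, v ∉ (s : Finset V) → q K x v = 0 := by
  classical
  obtain ⟨σ0, hσ0⟩ := hne
  obtain ⟨s, hs, hmax⟩ := Finset.exists_max_image hx.fin.toFinset
    (fun σ => (σ : Finset V).card) ⟨σ0, hx.fin.mem_toFinset.mpr hσ0⟩
  have hs' : x s ≠ 0 := hx.fin.mem_toFinset.mp hs
  refine ⟨s, hs', fun v hv => ?_⟩
  refine Finset.sum_eq_zero fun τ hτ => ?_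
  by_contra h
  have := hx.sub_of_card h hs' (hmax τ (hx.fin.mem_toFinset.mpr h))
  exact hv (this ((mem_star K).mp hτ))

lemma q_nonneg {x : K.faces → ℝ} (hx : Chn K x) (v : V) : 0 ≤ q K x v :=
  Finset.sum_nonneg fun σ _ => hx.nonneg σ

lemma le_q {x : K.faces → ℝ} (hx : Chn K x) {v : V} {σ : K.faces} (h : v ∈ (σ : Finset V)) :
    x σ ≤ q K x v :=
  Finset.single_le_sum (fun τ _ => hx.nonneg τ) ((mem_star K).mpr h)

/-- the total -/
def tot (K : Cx V) (x : K.faces → ℝ) : ℝ := ∑ᶠ v, q K x v

lemma tot_eq {x : K.faces → ℝ} (s : Finset V) (hs : ∀ v, v ∉ s → q K x v = 0) :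
    tot K x = ∑ v ∈ s, q K x v := by
  refine finsum_eq_sum_of_support_subset _ ?_
  intro v hv
  by_contra h
  exact hv (hs v h)

lemma tot_pos {x : K.faces → ℝ} (hx : Chn K x) (hne : ∃ σ, x σ ≠ 0) : 0 < tot K x := by
  obtain ⟨s, hs, hs0⟩ := exists_top hx hne
  rw [tot_eq s hs0]
  obtain ⟨v, hv⟩ := K.nonempty s s.2
  exact Finset.sum_pos' (fun v _ => q_nonneg hx v)
    ⟨v, hv, lt_of_lt_of_le (lt_of_le_of_ne (hx.nonneg s) hs.symm) (le_q hx hv)⟩

lemma xr_ne (x : XI (fr K)) : ∃ σ, xr x σ ≠ 0 := by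
  obtain ⟨τ, hτ⟩ := x.2.1
  exact ⟨τ, by unfold xr; rw [hτ]; norm_num⟩

/-- the subdivision map -/
def sdm (x : XI (fr K)) : K.poly := ⟨fun v => q K (xr x) v / tot K (xr x), by
  have hx := chn_xr x
  have ht := tot_pos hx (xr_ne x)
  obtain ⟨s, hs, hs0⟩ := exists_top hx (xr_ne x)
  refine ⟨fun v => div_nonneg (q_nonneg hx v) ht.le, s, s.2, fun v hv => ?_, ?_⟩
  · simp only; rw [hs0 v hv]; simp
  · rw [← Finset.sum_div, ← tot_eq (s : Finset V) hs0, div_self ht.ne']⟩

lemma Chn.smul {x : K.faces → ℝ} (hx : Chn K x) {c : ℝ} (hc : 0 < c) : Chn K (fun σ => c * x σ) where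
  nonneg σ := mul_nonneg hc.le (hx.nonneg σ)
  fin := hx.fin.subset fun σ hσ h => hσ (by rw [h, mul_zero])
  chain σ τ h := (hx.chain σ τ h).imp (fun h => by rw [h, mul_zero]) (fun h => by rw [h, mul_zero])

lemma q_smul (x : K.faces → ℝ) (c : ℝ) (v : V) : q K (fun σ => c * x σ) v = c * q K x v := by
  unfold q
  rw [Finset.mul_sum]

lemma sdm_injective : Function.Injective (sdm (K := K)) := by
  intro x y hxy
  have hx := chn_xr x
  have hy := chn_xr y
  have htx := tot_pos hx (xr_ne x)
  have hty := tot_pos hy (xr_ne y)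
  set c := tot K (xr x) / tot K (xr y) with hc
  have hcpos : 0 < c := div_pos htx hty
  have h1 : ∀ v, q K (xr x) v = q K (fun σ => c * xr y σ) v := by
    intro v
    have : q K (xr x) v / tot K (xr x) = q K (xr y) v / tot K (xr y) :=
      congrFun (congrArg Subtype.val hxy) v
    rw [q_smul, hc]
    field_simp at this ⊢
    linarith
  have h2 := q_inj hx (hy.smul hcpos) h1
  obtain ⟨σ, hσ⟩ := x.2.1
  obtain ⟨τ, hτ⟩ := y.2.1
  have h3 : (1:ℝ) = c * y.1 σ := hσ.symm.trans (congrFun h2 σ)
  have h4 : (x.1 τ : ℝ) = c := by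
    have : (x.1 τ : ℝ) = c * y.1 τ := congrFun h2 τ
    rw [this, hτ, mul_one]
  have h5 : c = 1 := by
    have h6 := (x.1 τ).2.2
    have h7 := (y.1 σ).2.2
    have h8 := (y.1 σ).2.1
    nlinarith
  apply Subtype.ext
  funext ρ
  apply Subtype.ext
  have := congrFun h2 ρ
  simp only [xr, h5, one_mul] at this
  exact this

lemma sdm_surjective : Function.Surjective (sdm (K := K)) := by
  classical
  rintro ⟨p, hp0, σ, hσ, hps, hsum⟩
  let S := σ.filter fun v => p v ≠ 0
  have hSiff : ∀ v, v ∈ S ↔ p v ≠ 0 := by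
    intro v
    simp only [S, Finset.mem_filter, and_iff_right_iff_imp]
    intro h
    by_contra h'
    exact h (hps v h')
  have hSne : S.Nonempty := by
    by_contra h
    rw [Finset.not_nonempty_iff_eq_empty] at h
    have : ∑ v ∈ σ, p v = 0 := Finset.sum_eq_zero fun v _ => by
      by_contra h'
      have := (hSiff v).mpr h'
      rw [h] at this
      exact absurd this (Finset.notMem_empty _)
    rw [this] at hsum; norm_num at hsum
  have hSK : S ∈ K.faces := K.down σ hσ S (Finset.filter_subset _ _) hSne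
  obtain ⟨y, hy, hys, hyq⟩ := q_surj (K := K) S.card p S rfl hp0 hSiff (fun _ => hSK)
  have hyne : ∃ τ, y τ ≠ 0 := by
    by_contra h
    push Not at h
    obtain ⟨v, hv⟩ := hSne
    apply (hSiff v).mp hv
    rw [← hyq v]
    exact Finset.sum_eq_zero fun τ _ => h τ
  obtain ⟨τ0, hτ0⟩ := hyne
  obtain ⟨m, hm, hmax⟩ := Finset.exists_max_image hy.fin.toFinset y
    ⟨τ0, hy.fin.mem_toFinset.mpr hτ0⟩
  have hm0 : y m ≠ 0 := hy.fin.mem_toFinset.mp hm
  have hmpos : 0 < y m := lt_of_le_of_ne (hy.nonneg m) hm0.symm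
  have hle : ∀ τ, y τ ≤ y m := by
    intro τ
    by_cases h : y τ = 0
    · rw [h]; exact hmpos.le
    · exact hmax τ (hy.fin.mem_toFinset.mpr h)
  let x : XI (fr K) := ⟨fun τ => ⟨(y m)⁻¹ * y τ, mul_nonneg (inv_nonneg.mpr hmpos.le) (hy.nonneg τ),
      by rw [inv_mul_le_iff₀ hmpos, mul_one]; exact hle τ⟩,
    ⟨m, by simp only; rw [inv_mul_cancel₀ hm0]⟩, fun σ τ h => (hy.smul (inv_pos.mpr hmpos)).chain σ τ h⟩
  have hxr : xr x = fun τ => (y m)⁻¹ * y τ := rfl
  have hqx : ∀ v, q K (xr x) v = (y m)⁻¹ * p v := by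
    intro v
    rw [hxr, q_smul, hyq]
  have htot : tot K (xr x) = (y m)⁻¹ := by
    rw [tot_eq σ (fun v hv => by rw [hqx, hps v hv, mul_zero])]
    simp only [hqx]
    rw [← Finset.mul_sum, hsum, mul_one]
  refine ⟨x, Subtype.ext ?_⟩
  funext v
  change q K (xr x) v / tot K (xr x) = p v
  rw [hqx, htot]
  field_simp

lemma continuous_q (v : V) : Continuous fun x : XI (fr K) => q K (xr x) v := by
  unfold q
  refine continuous_finsetSum _ fun σ _ => ?_
  exact continuous_subtype_val.comp ((continuous_apply σ).comp continuous_subtype_val)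

lemma continuous_tot : Continuous fun x : XI (fr K) => tot K (xr x) := by
  unfold tot
  refine continuous_finsum continuous_q ?_
  intro x
  obtain ⟨τ, hτ⟩ := x.2.1
  refine ⟨{y | 0 < (y.1 τ : ℝ)}, ?_, ?_⟩
  · refine IsOpen.mem_nhds (isOpen_lt continuous_const
      (continuous_subtype_val.comp ((continuous_apply τ).comp continuous_subtype_val))) ?_
    simp only [mem_ofPred_eq]
    rw [hτ]; norm_num
  · refine ((near_finite K τ).biUnion (t := fun σ => ((σ : Finset V) : Set V))
      (fun σ _ => σ.1.finite_toSet)).subset ?_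
    rintro v ⟨y, hy1, hy2⟩
    have h1 : q K (xr y) v ≠ 0 := hy1
    have h2 : 0 < (y.1 τ : ℝ) := hy2
    obtain ⟨σ, hσ, hne⟩ := Finset.exists_ne_zero_of_sum_ne_zero h1
    simp only [mem_iUnion]
    refine ⟨σ, fun hf => ?_, (mem_star K).mp hσ⟩
    rcases y.2.2 τ σ hf with h | h
    · exact h2.ne' h
    · exact hne h

lemma continuous_sdm : Continuous (sdm (K := K)) := by
  refine Continuous.subtype_mk (continuous_pi fun v => ?_) _
  exact (continuous_q v).div continuous_tot fun x => (tot_pos (chn_xr x) (xr_ne x)).ne'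

/-- a criterion for continuity of the inverse -/
lemma continuous_symm_of {X Y ι : Type*} [TopologicalSpace X] [TopologicalSpace Y] [T2Space Y]
    (f : X ≃ Y) (hf : Continuous f) (D : ι → Set Y) (hD : ∀ i, IsClosed (D i))
    (hlf : LocallyFinite D) (hcov : ⋃ i, D i = univ) (hcp : ∀ i, IsCompact (f ⁻¹' D i)) :
    Continuous f.symm := by
  refine hlf.continuous hcov hD fun i => ?_
  rw [continuousOn_iff_isClosed]
  intro t ht
  refine ⟨f '' (t ∩ f ⁻¹' D i), ?_, ?_⟩
  · exact (((hcp i).inter_left ht).image hf).isClosed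
  · ext y
    constructor
    · rintro ⟨h1, h2⟩
      exact ⟨⟨f.symm y, ⟨h1, by simpa using h2⟩, by simp⟩, h2⟩
    · rintro ⟨⟨x, ⟨h1, h2⟩, rfl⟩, h3⟩
      exact ⟨by simpa using h1, h3⟩

/-- **the polyhedron is the cubical model of its barycentric subdivision** -/
def sdHomeo (K : Cx V) : XI (fr K) ≃ₜ K.poly where
  toEquiv := Equiv.ofBijective sdm ⟨sdm_injective, sdm_surjective⟩
  continuous_toFun := continuous_sdm
  continuous_invFun := by
    classical
    let D : K.faces → Set K.poly := fun σ => {p | ∀ v, v ∉ (σ : Finset V) → p.1 v = 0}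
    have hcv : ∀ v : V, Continuous fun p : K.poly => p.1 v := fun v =>
      (continuous_apply v).comp continuous_subtype_val
    refine continuous_symm_of (Equiv.ofBijective sdm ⟨sdm_injective, sdm_surjective⟩)
      continuous_sdm D ?_ ?_ ?_ ?_
    · intro σ
      simp only [D, ofPred_forall]
      exact isClosed_iInter fun v => isClosed_iInter fun _ => isClosed_eq (hcv v) continuous_const
    · intro p
      obtain ⟨hp0, σ, hσ, hps, hsum⟩ := p.2
      obtain ⟨u, hu⟩ : ∃ u, p.1 u ≠ 0 := by
        by_contra h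
        push Not at h
        have : ∑ v ∈ σ, p.1 v = 0 := Finset.sum_eq_zero fun v _ => h v
        rw [this] at hsum; norm_num at hsum
      refine ⟨{p' | 0 < p'.1 u}, (isOpen_lt continuous_const (hcv u)).mem_nhds
        (lt_of_le_of_ne (hp0 u) hu.symm), (star_finite K u).subset ?_⟩
      rintro τ ⟨p', h1, h2⟩
      have h3 : 0 < p'.1 u := h2
      by_contra h
      exact h3.ne' (h1 u h)
    · ext p
      simp only [mem_iUnion, mem_univ, iff_true]
      obtain ⟨hp0, σ, hσ, hps, hsum⟩ := p.2
      exact ⟨⟨σ, hσ⟩, hps⟩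
    · intro σ
      have hfin : {τ : K.faces | (τ : Finset V) ⊆ σ}.Finite := by
        refine (meet_finite K σ).subset fun τ hτ => ?_
        obtain ⟨v, hv⟩ := K.nonempty τ τ.2
        exact ⟨v, hτ hv, hv⟩
      have hcx : ∀ τ : K.faces, Continuous fun x : K.faces → I => (x τ : ℝ) := fun τ =>
        continuous_subtype_val.comp (continuous_apply τ)
      have h1 : IsClosed {x : K.faces → I | (∃ τ : K.faces, (τ : Finset V) ⊆ σ ∧ (x τ : ℝ) = 1) ∧
          (∀ τ ρ, fr K τ ρ → (x τ : ℝ) = 0 ∨ (x ρ : ℝ) = 0) ∧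
          ∀ τ : K.faces, ¬ (τ : Finset V) ⊆ σ → (x τ : ℝ) = 0} := by
        rw [ofPred_and, ofPred_and]
        refine IsClosed.inter ?_ (IsClosed.inter ?_ ?_)
        · have : {x : K.faces → I | ∃ τ : K.faces, (τ : Finset V) ⊆ σ ∧ (x τ : ℝ) = 1} =
              ⋃ τ ∈ {τ : K.faces | (τ : Finset V) ⊆ σ}, {x | (x τ : ℝ) = 1} := by
            ext x; simp
          rw [this]
          exact hfin.isClosed_biUnion fun τ _ => isClosed_eq (hcx τ) continuous_const
        · simp only [ofPred_forall]
          refine isClosed_iInter fun u => isClosed_iInter fun v => isClosed_iInter fun _ => ?_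
          rw [ofPred_or]
          exact (isClosed_eq (hcx u) continuous_const).union
            (isClosed_eq (hcx v) continuous_const)
        · simp only [ofPred_forall]
          exact isClosed_iInter fun u => isClosed_iInter fun _ => isClosed_eq (hcx u) continuous_const
      have h2 : IsCompact ((Subtype.val : XI (fr K) → (K.faces → I)) ''
          (sdm ⁻¹' D σ)) := by
        convert h1.isCompact using 1
        ext x
        constructor
        · rintro ⟨x, hx, rfl⟩
          have hz : ∀ τ : K.faces, ¬ (τ : Finset V) ⊆ σ → (x.1 τ : ℝ) = 0 := by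
            intro τ hτ
            obtain ⟨v, hv, hvσ⟩ := Finset.not_subset.mp hτ
            have h3 : q K (xr x) v / tot K (xr x) = 0 := hx v hvσ
            have h4 := tot_pos (chn_xr x) (xr_ne x)
            have h5 : q K (xr x) v = 0 := by
              rcases div_eq_zero_iff.mp h3 with h | h
              · exact h
              · exact absurd h h4.ne'
            have h6 := le_q (chn_xr x) hv
            rw [h5] at h6
            exact le_antisymm h6 (x.1 τ).2.1
          obtain ⟨τ, hτ⟩ := x.2.1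
          refine ⟨⟨τ, ?_, hτ⟩, x.2.2, hz⟩
          by_contra h
          rw [hz τ h] at hτ; norm_num at hτ
        · rintro ⟨⟨τ, hτ1, hτ2⟩, h3, h4⟩
          refine ⟨⟨x, ⟨τ, hτ2⟩, h3⟩, ?_, rfl⟩
          intro v hv
          change q K _ v / _ = 0
          have : q K (xr ⟨x, ⟨τ, hτ2⟩, h3⟩) v = 0 := by
            refine Finset.sum_eq_zero fun ρ hρ => ?_
            exact h4 ρ fun h => hv (h ((mem_star K).mp hρ))
          rw [this]; simp
      exact Subtype.isCompact_iff.mpr h2

end

end

end Pool.Agent.H236_QM
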