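import Pool.Agent.H236_QM.BoxSys

/-!
# Generic binary subdivisions of the cube
-/

set_option autoImplicit false
set_option linter.unusedSectionVars false

namespace Pool.Agent.H236_QM.G2

open Set Filter Topology

noncomputable section

/-- the coordinate cut at a level -/
def cfn (n : ℕ) : ℕ := (Nat.unpair n).1

/-- translates of the rationals -/
def EE (N : ℕ) : Set ℝ := {x | ∃ r : ℚ, x = r + N * √2}

lemma EE_inj {N M : ℕ} {x : ℝ} (h1 : x ∈ EE N) (h2 : x ∈ EE M) : N = M := by
  obtain ⟨r, hr⟩ := h1
  obtain ⟨r', hr'⟩ := h2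
  by_contra hne
  have hne' : ((N : ℝ) - M) ≠ 0 := sub_ne_zero.mpr (by exact_mod_cast hne)
  have h3 : √2 = (r' - r) / ((N : ℝ) - M) := by
    rw [eq_div_iff hne']
    linarith
  apply irrational_sqrt_two
  refine ⟨(r' - r) / ((N : ℚ) - M), ?_⟩
  rw [h3]
  push_cast
  ring

lemma exists_cut (N : ℕ) {p q : ℝ} (h : p < q) :
    ∃ x ∈ EE N, p + (q - p) / 3 < x ∧ x < q - (q - p) / 3 := by
  obtain ⟨r, h1, h2⟩ := exists_rat_btwn
    (show p + (q - p) / 3 - N * √2 < q - (q - p) / 3 - N * √2 by linarith)
  exact ⟨r + N * √2, ⟨r, rfl⟩, by linarith, by linarith⟩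

open Classical in
/-- the chosen cut value -/
def cutv (s : List Bool) (p q : ℝ) : ℝ :=
  if h : p < q then Classical.choose (exists_cut (Encodable.encode s) h) else 0

lemma cutv_mem (s : List Bool) {p q : ℝ} (h : p < q) : cutv s p q ∈ EE (Encodable.encode s) := by
  unfold cutv; rw [dif_pos h]
  exact (Classical.choose_spec (exists_cut (Encodable.encode s) h)).1

lemma cutv_lo (s : List Bool) {p q : ℝ} (h : p < q) : p + (q - p) / 3 < cutv s p q := by
  unfold cutv; rw [dif_pos h]
  exact (Classical.choose_spec (exists_cut (Encodable.encode s) h)).2.1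

lemma cutv_up (s : List Bool) {p q : ℝ} (h : p < q) : cutv s p q < q - (q - p) / 3 := by
  unfold cutv; rw [dif_pos h]
  exact (Classical.choose_spec (exists_cut (Encodable.encode s) h)).2.2

/-- the sides of the boxes of the tree -/
def tree : List Bool → (ℕ → ℝ) × (ℕ → ℝ)
  | [] => (fun _ => 0, fun _ => 1)
  | true :: s => (Function.update (tree s).1 (cfn s.length)
      (cutv s ((tree s).1 (cfn s.length)) ((tree s).2 (cfn s.length))), (tree s).2)
  | false :: s => ((tree s).1, Function.update (tree s).2 (cfn s.length)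
      (cutv s ((tree s).1 (cfn s.length)) ((tree s).2 (cfn s.length))))

/-- lower sides -/
def lw (s : List Bool) : ℕ → ℝ := (tree s).1
/-- upper sides -/
def up (s : List Bool) : ℕ → ℝ := (tree s).2
/-- cut values -/
def ct (s : List Bool) : ℝ := cutv s (lw s (cfn s.length)) (up s (cfn s.length))

lemma lw_nil (i : ℕ) : lw [] i = 0 := rfl
lemma up_nil (i : ℕ) : up [] i = 1 := rfl
lemma lw_true (s : List Bool) : lw (true :: s) = Function.update (lw s) (cfn s.length) (ct s) := rfl
lemma up_true (s : List Bool) : up (true :: s) = up s := rfl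
lemma lw_false (s : List Bool) : lw (false :: s) = lw s := rfl
lemma up_false (s : List Bool) : up (false :: s) = Function.update (up s) (cfn s.length) (ct s) := rfl

lemma lw_lt_up (s : List Bool) : ∀ i, lw s i < up s i := by
  induction s with
  | nil => intro i; rw [lw_nil, up_nil]; norm_num
  | cons b s ih =>
    intro i
    have h := ih (cfn s.length)
    have h1 := cutv_lo s h
    have h2 := cutv_up s h
    cases b with
    | true =>
      rw [lw_true, up_true]
      by_cases hi : i = cfn s.length
      · subst hi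
        rw [Function.update_self]
        change ct s < up s _
        unfold ct
        linarith
      · rw [Function.update_of_ne hi]; exact ih i
    | false =>
      rw [lw_false, up_false]
      by_cases hi : i = cfn s.length
      · subst hi
        rw [Function.update_self]
        change lw s _ < ct s
        unfold ct
        linarith
      · rw [Function.update_of_ne hi]; exact ih i

lemma ct_lo (s : List Bool) :
    lw s (cfn s.length) + (up s (cfn s.length) - lw s (cfn s.length)) / 3 < ct s :=
  cutv_lo s (lw_lt_up s _)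

lemma ct_up (s : List Bool) :
    ct s < up s (cfn s.length) - (up s (cfn s.length) - lw s (cfn s.length)) / 3 :=
  cutv_up s (lw_lt_up s _)

lemma lt_ct (s : List Bool) : lw s (cfn s.length) < ct s := by
  have := ct_lo s
  have := lw_lt_up s (cfn s.length)
  linarith

lemma ct_lt (s : List Bool) : ct s < up s (cfn s.length) := by
  have := ct_up s
  have := lw_lt_up s (cfn s.length)
  linarith

lemma ct_inj {s t : List Bool} (h : ct s = ct t) : s = t := by
  have h1 : ct s ∈ EE (Encodable.encode s) := cutv_mem s (lw_lt_up s _)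
  have h2 : ct t ∈ EE (Encodable.encode t) := cutv_mem t (lw_lt_up t _)
  rw [← h] at h2
  exact Encodable.encode_injective (EE_inj h1 h2)

lemma lw_le_cons (b : Bool) (s : List Bool) (i : ℕ) : lw s i ≤ lw (b :: s) i := by
  cases b with
  | true =>
    rw [lw_true]
    by_cases hi : i = cfn s.length
    · subst hi; rw [Function.update_self]; exact (lt_ct s).le
    · rw [Function.update_of_ne hi]
  | false => rw [lw_false]

lemma up_cons_le (b : Bool) (s : List Bool) (i : ℕ) : up (b :: s) i ≤ up s i := by
  cases b with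
  | true => rw [up_true]
  | false =>
    rw [up_false]
    by_cases hi : i = cfn s.length
    · subst hi; rw [Function.update_self]; exact (ct_lt s).le
    · rw [Function.update_of_ne hi]

lemma lw_mono {β s : List Bool} (h : β <:+ s) (i : ℕ) : lw β i ≤ lw s i := by
  induction s with
  | nil => rw [List.suffix_nil.mp h]
  | cons b s ih =>
    rcases List.suffix_cons_iff.mp h with h | h
    · rw [h]
    · exact (ih h).trans (lw_le_cons b s i)

lemma up_mono {β s : List Bool} (h : β <:+ s) (i : ℕ) : up s i ≤ up β i := by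
  induction s with
  | nil => rw [List.suffix_nil.mp h]
  | cons b s ih =>
    rcases List.suffix_cons_iff.mp h with h | h
    · rw [h]
    · exact (up_cons_le b s i).trans (ih h)

lemma lw_nonneg (s : List Bool) (i : ℕ) : 0 ≤ lw s i := lw_mono (List.nil_suffix) i
lemma up_le_one (s : List Bool) (i : ℕ) : up s i ≤ 1 := up_mono (List.nil_suffix) i

lemma ct_le_lw {β s : List Bool} (h : (true :: β) <:+ s) : ct β ≤ lw s (cfn β.length) := by
  have := lw_mono h (cfn β.length)
  rwa [lw_true, Function.update_self] at this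

lemma up_le_ct {β s : List Bool} (h : (false :: β) <:+ s) : up s (cfn β.length) ≤ ct β := by
  have := up_mono h (cfn β.length)
  rwa [up_false, Function.update_self] at this

lemma lw_source (s : List Bool) (i : ℕ) (h : lw s i ≠ 0) :
    ∃ β, (true :: β) <:+ s ∧ cfn β.length = i ∧ ct β = lw s i := by
  induction s with
  | nil => exact absurd rfl h
  | cons b s ih =>
    cases b with
    | true =>
      by_cases hi : i = cfn s.length
      · refine ⟨s, List.suffix_refl _, hi.symm, ?_⟩
        rw [lw_true, hi, Function.update_self]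
      · rw [lw_true, Function.update_of_ne hi] at h ⊢
        obtain ⟨β, h1, h2, h3⟩ := ih h
        exact ⟨β, h1.trans (List.suffix_cons _ _), h2, h3⟩
    | false =>
      rw [lw_false] at h ⊢
      obtain ⟨β, h1, h2, h3⟩ := ih h
      exact ⟨β, h1.trans (List.suffix_cons _ _), h2, h3⟩

lemma up_source (s : List Bool) (i : ℕ) (h : up s i ≠ 1) :
    ∃ β, (false :: β) <:+ s ∧ cfn β.length = i ∧ ct β = up s i := by
  induction s with
  | nil => exact absurd rfl h
  | cons b s ih =>
    cases b with
    | false =>
      by_cases hi : i = cfn s.length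
      · refine ⟨s, List.suffix_refl _, hi.symm, ?_⟩
        rw [up_false, hi, Function.update_self]
      · rw [up_false, Function.update_of_ne hi] at h ⊢
        obtain ⟨β, h1, h2, h3⟩ := ih h
        exact ⟨β, h1.trans (List.suffix_cons _ _), h2, h3⟩
    | true =>
      rw [up_true] at h ⊢
      obtain ⟨β, h1, h2, h3⟩ := ih h
      exact ⟨β, h1.trans (List.suffix_cons _ _), h2, h3⟩

lemma tree_res (s : List Bool) : {i | lw s i ≠ 0 ∨ up s i ≠ 1}.Finite := by
  refine ((Set.finite_Iio s.length).image cfn).subset ?_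
  intro i hi
  have key : ∀ b (β : List Bool), (b :: β) <:+ s → β.length < s.length := fun b β h => by
    have := h.length_le
    simp only [List.length_cons] at this
    omega
  rcases hi with h | h
  · obtain ⟨β, h1, h2, -⟩ := lw_source s i h
    exact ⟨β.length, key _ _ h1, h2⟩
  · obtain ⟨β, h1, h2, -⟩ := up_source s i h
    exact ⟨β.length, key _ _ h1, h2⟩

/-- the box of a node -/
def nb (s : List Bool) : Set (ℕ → I) := bx (lw s) (up s)

lemma nb_mono {β s : List Bool} (h : β <:+ s) : nb s ⊆ nb β := fun _ hx i =>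
  ⟨(lw_mono h i).trans (hx i).1, (hx i).2.trans (up_mono h i)⟩

lemma nb_nonempty (s : List Bool) : (nb s).Nonempty :=
  ⟨fun i => ⟨lw s i, lw_nonneg s i, (lw_lt_up s i).le.trans (up_le_one s i)⟩,
    fun i => ⟨le_rfl, (lw_lt_up s i).le⟩⟩

lemma nb_cover (s : List Bool) {x : ℕ → I} (hx : x ∈ nb s) : x ∈ nb (true :: s) ∨ x ∈ nb (false :: s) := by
  rcases le_total (ct s) (x (cfn s.length)) with h | h
  · left
    intro i
    refine ⟨?_, (hx i).2⟩
    rw [lw_true]
    by_cases hi : i = cfn s.length
    · subst hi; rw [Function.update_self]; exact h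
    · rw [Function.update_of_ne hi]; exact (hx i).1
  · right
    intro i
    refine ⟨(hx i).1, ?_⟩
    rw [up_false]
    by_cases hi : i = cfn s.length
    · subst hi; rw [Function.update_self]; exact h
    · rw [Function.update_of_ne hi]; exact (hx i).2

lemma exists_node (x : ℕ → I) (n : ℕ) : ∃ s : List Bool, s.length = n ∧ x ∈ nb s := by
  induction n with
  | zero => exact ⟨[], rfl, fun i => ⟨(x i).2.1, (x i).2.2⟩⟩
  | succ n ih =>
    obtain ⟨s, hs, hx⟩ := ih
    rcases nb_cover s hx with h | h
    · exact ⟨true :: s, by simp [hs], h⟩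
    · exact ⟨false :: s, by simp [hs], h⟩

lemma width_le (i : ℕ) (s : List Bool) :
    up s i - lw s i ≤ (2/3 : ℝ) ^ (Nat.count (fun m => cfn m = i) s.length) := by
  induction s with
  | nil => rw [lw_nil, up_nil]; simp
  | cons b s ih =>
    rw [List.length_cons, Nat.count_succ]
    by_cases hi : cfn s.length = i
    · rw [if_pos hi, pow_succ]
      have h1 := ct_lo s
      have h2 := ct_up s
      have hpos := lw_lt_up s (cfn s.length)
      subst hi
      cases b with
      | true =>
        rw [lw_true, up_true, Function.update_self]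
        nlinarith
      | false =>
        rw [lw_false, up_false, Function.update_self]
        nlinarith
    · rw [if_neg hi, add_zero]
      have h1 := lw_le_cons b s i
      have h2 := up_cons_le b s i
      linarith

lemma cfn_infinite (i : ℕ) : {m | cfn m = i}.Infinite := by
  refine Set.infinite_of_injective_forall_mem (f := fun k => Nat.pair i k) ?_ ?_
  · intro a b h
    exact (Nat.pair_eq_pair.mp h).2
  · intro k
    change (Nat.unpair (Nat.pair i k)).1 = i
    rw [Nat.unpair_pair]

lemma exists_small_level (i : ℕ) {ε : ℝ} (hε : 0 < ε) :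
    ∃ n, ∀ s : List Bool, n ≤ s.length → up s i - lw s i < ε := by
  obtain ⟨k, hk⟩ := exists_pow_lt_of_lt_one hε (show (2/3 : ℝ) < 1 by norm_num)
  refine ⟨Nat.nth (fun m => cfn m = i) k, fun s hs => ?_⟩
  refine (width_le i s).trans_lt (lt_of_le_of_lt ?_ hk)
  refine pow_le_pow_of_le_one (by norm_num) (by norm_num) ?_
  calc k = Nat.count (fun m => cfn m = i) (Nat.nth (fun m => cfn m = i) k) :=
        (Nat.count_nth_of_infinite (cfn_infinite i) k).symm
    _ ≤ _ := Nat.count_monotone _ hs

/-- small boxes around a point -/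
lemma exists_small_box (x : ℕ → I) (U : Set (ℕ → I)) (hU : IsOpen U) (hx : x ∈ U) :
    ∃ (s : Finset ℕ) (ε : ℝ), 0 < ε ∧ {y : ℕ → I | ∀ i ∈ s, |(y i : ℝ) - x i| ≤ ε} ⊆ U := by
  obtain ⟨s, u, hu, hsub⟩ := isOpen_pi_iff.mp hU x hx
  have : ∀ i ∈ s, ∃ ε > 0, ∀ y : I, |(y:ℝ) - x i| < ε → y ∈ u i := by
    intro i hi
    obtain ⟨ε, hε, h⟩ := Metric.isOpen_iff.mp (hu i hi).1 (x i) (hu i hi).2
    exact ⟨ε, hε, fun y hy => h (by rw [Metric.mem_ball, Subtype.dist_eq, Real.dist_eq]; exact hy)⟩
  choose! ε hε h using this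
  by_cases hs : s.Nonempty
  · obtain ⟨j, hj, hmin⟩ := Finset.exists_min_image s ε hs
    refine ⟨s, ε j / 2, half_pos (hε j hj), fun y hy => hsub ?_⟩
    intro i hi
    refine h i hi _ ?_
    have := hy i hi
    have := hmin i hi
    have := hε j hj
    linarith
  · rw [Finset.not_nonempty_iff_eq_empty] at hs
    subst hs
    exact ⟨∅, 1, one_pos, fun y _ => hsub (by simp)⟩

lemma exists_level (y : ℕ → I) (W : Set (ℕ → I)) (hW : IsOpen W) (hy : y ∈ W) :
    ∃ n, ∀ s : List Bool, n ≤ s.length → y ∈ nb s → nb s ⊆ W := by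
  obtain ⟨S, ε, hε, hsub⟩ := exists_small_box y W hW hy
  choose n hn using fun i => exists_small_level i hε
  refine ⟨S.sup n, fun s hs hys z hz => hsub ?_⟩
  intro i hi
  have h1 := hn i s ((Finset.le_sup hi).trans hs)
  have h2 := hys i
  have h3 := hz i
  rw [abs_le]
  constructor <;> linarith [h2.1, h2.2, h3.1, h3.2]

/-- two incomparable nodes split -/
lemma exists_split (u : List Bool) : ∀ w : List Bool, ¬ u <:+ w → ¬ w <:+ u →
    ∃ (α : List Bool) (b : Bool), (b :: α) <:+ w ∧ ((!b) :: α) <:+ u := by
  induction u using List.reverseRecOn with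
  | nil => intro w h _; exact absurd List.nil_suffix h
  | append_singleton u a ih =>
    intro w h1 h2
    rcases List.eq_nil_or_concat w with rfl | ⟨w', b, hw'⟩
    · exact absurd List.nil_suffix h2
    · rw [List.concat_eq_append] at hw'
      subst hw'
      by_cases hab : a = b
      · subst hab
        obtain ⟨α, b, h3, h4⟩ := ih w'
          (fun h => h1 (by obtain ⟨l, hl⟩ := h; exact ⟨l, by rw [← hl, List.append_assoc]⟩))
          (fun h => h2 (by obtain ⟨l, hl⟩ := h; exact ⟨l, by rw [← hl, List.append_assoc]⟩))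
        refine ⟨α ++ [a], b, ?_, ?_⟩
        · obtain ⟨l, hl⟩ := h3
          exact ⟨l, by rw [← hl]; simp⟩
        · obtain ⟨l, hl⟩ := h4
          exact ⟨l, by rw [← hl]; simp⟩
      · refine ⟨[], b, ⟨w', rfl⟩, ⟨u, ?_⟩⟩
        have : (!b) = a := by
          cases a <;> cases b <;> simp_all
        rw [this]

lemma suffix_of_length {l a b : List Bool} (h1 : a <:+ l) (h2 : b <:+ l) (h : a.length ≤ b.length) :
    a <:+ b := List.suffix_of_suffix_length_le h1 h2 h

/-- **Leaves of the tree form a regular system.** -/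
theorem leaves_sys {V : Type} (nd : V → List Bool)
    (hinc : ∀ u v, nd u <:+ nd v → u = v) :
    Sys (fun u v : V => ¬ (nb (nd u) ∩ nb (nd v)).Nonempty) (fun v => nb (nd v)) := by
  classical
  refine box_sys (fun v i => lw_nonneg _ _) (fun v i => up_le_one _ _) (fun v => tree_res _)
    ?_ ?_ ?_
  · intro u v h x hxu hxv
    exact h ⟨x, hxu, hxv⟩
  · intro σ hσ i u hu v hv
    obtain ⟨x, hx1, hx2⟩ := not_not.mp (hσ.2 u hu v hv)
    exact (hx1 i).1.trans (hx2 i).2
  · intro σ hσ w hw x hx hxw
    have hsp : ∀ v ∈ σ, ∃ (α : List Bool) (b : Bool), (b :: α) <:+ nd w ∧ ((!b) :: α) <:+ nd v := by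
      intro v hv
      have hne : v ≠ w := fun h => hw (h ▸ hv)
      exact exists_split (nd v) (nd w) (fun h => hne (hinc _ _ h)) (fun h => hne (hinc _ _ h).symm)
    choose! α b hαw hαv using hsp
    obtain ⟨v, hv, hmax⟩ := Finset.exists_max_image σ (fun v => (α v).length) hσ.1
    -- no member of `σ` shares the child of `α v` with `w`
    have key : ∀ u ∈ σ, ¬ (b v :: α v) <:+ nd u := by
      intro u hu hsuf
      have h1 : (b u :: α u) <:+ (b v :: α v) :=
        suffix_of_length (hαw u hu) (hαw v hv) (by simp [hmax u hu])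
      have h2 : ((!b u) :: α u) <:+ (b v :: α v) :=
        suffix_of_length (hαv u hu) hsuf (by simp [hmax u hu])
      have h3 := suffix_of_length h1 h2 (by simp)
      have h4 := h3.eq_of_length (by simp)
      have h5 := (List.cons.inj h4).1
      cases hb : b u <;> rw [hb] at h5 <;> simp at h5
    have hz0 : ct (α v) ≠ 0 := by
      have := lt_ct (α v)
      have := lw_nonneg (α v) (cfn (α v).length)
      linarith
    have hz1 : ct (α v) ≠ 1 := by
      have := ct_lt (α v)
      have := up_le_one (α v) (cfn (α v).length)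
      linarith
    have hsrc_lw : ∀ u : V, lw (nd u) (cfn (α v).length) = ct (α v) → (true :: α v) <:+ nd u := by
      intro u h
      obtain ⟨β, h1, -, h3⟩ := lw_source (nd u) _ (by rw [h]; exact hz0)
      rw [ct_inj (h3.trans h)] at h1
      exact h1
    have hsrc_up : ∀ u : V, up (nd u) (cfn (α v).length) = ct (α v) → (false :: α v) <:+ nd u := by
      intro u h
      obtain ⟨β, h1, -, h3⟩ := up_source (nd u) _ (by rw [h]; exact hz1)
      rw [ct_inj (h3.trans h)] at h1
      exact h1
    have hxv := hx v hv (cfn (α v).length)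
    have hxw' := hxw (cfn (α v).length)
    cases hb : b v with
    | true =>
      have h1 : (true :: α v) <:+ nd w := by have := hαw v hv; rwa [hb] at this
      have h2 : (false :: α v) <:+ nd v := by have := hαv v hv; rwa [hb] at this
      have h3 := ct_le_lw h1
      have h4 := up_le_ct h2
      have hxz : (x (cfn (α v).length) : ℝ) = ct (α v) :=
        le_antisymm (hxv.2.trans h4) (h3.trans hxw'.1)
      have hupz : up (nd v) (cfn (α v).length) = ct (α v) :=
        le_antisymm h4 (hxz ▸ hxv.2)
      refine ⟨cfn (α v).length, ⟨v, hv, Or.inr (show up (nd v) (cfn (α v).length) ≠ 1 by rw [hupz]; exact hz1)⟩, ?_, Or.inr ⟨v, hv, ?_⟩⟩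
      · intro u hu u' hu'
        by_contra hcon
        push Not at hcon
        have h5 := (hx u hu (cfn (α v).length)).1
        have h6 := (hx u' hu' (cfn (α v).length)).2
        have h7 : lw (nd u) (cfn (α v).length) = ct (α v) := by
          rw [← hxz]; exact le_antisymm h5 (h6.trans hcon)
        exact key u hu (by rw [hb]; exact hsrc_lw u h7)
      · rw [hxz, hupz]
    | false =>
      have h1 : (false :: α v) <:+ nd w := by have := hαw v hv; rwa [hb] at this
      have h2 : (true :: α v) <:+ nd v := by have := hαv v hv; rwa [hb] at this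
      have h3 := up_le_ct h1
      have h4 := ct_le_lw h2
      have hxz : (x (cfn (α v).length) : ℝ) = ct (α v) :=
        le_antisymm (hxw'.2.trans h3) (h4.trans hxv.1)
      have hlwz : lw (nd v) (cfn (α v).length) = ct (α v) :=
        le_antisymm (hxz ▸ hxv.1) h4
      refine ⟨cfn (α v).length, ⟨v, hv, Or.inl (show lw (nd v) (cfn (α v).length) ≠ 0 by rw [hlwz]; exact hz0)⟩, ?_, Or.inl ⟨v, hv, ?_⟩⟩
      · intro u hu u' hu'
        by_contra hcon
        push Not at hcon
        have h5 := (hx u hu (cfn (α v).length)).1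
        have h6 := (hx u' hu' (cfn (α v).length)).2
        have h7 : up (nd u') (cfn (α v).length) = ct (α v) := by
          rw [← hxz]; exact le_antisymm (hcon.trans h5) h6
        exact key u' hu' (by rw [hb]; exact hsrc_up u' h7)
      · rw [hxz, hlwz]

/-- **Arbitrarily fine regular locally finite covers of open subsets of the cube.** -/
theorem exists_fine_cover (Ω : Set (ℕ → I)) (W : (ℕ → I) → Set (ℕ → I))
    (hW : ∀ y ∈ Ω, IsOpen (W y) ∧ y ∈ W y ∧ W y ⊆ Ω) :
    ∃ (V : Type) (_ : Countable V) (R : V → Set (ℕ → I)),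
      Sys (fun u v : V => ¬ (R u ∩ R v).Nonempty) R ∧ (∀ v, (R v).Nonempty) ∧
      (∀ v, ∃ y ∈ Ω, R v ⊆ W y) ∧ (∀ y ∈ Ω, ∃ v, y ∈ R v) ∧
      ∀ y ∈ Ω, ∃ O, IsOpen O ∧ y ∈ O ∧ {v | (R v ∩ O).Nonempty}.Finite := by
  classical
  let P : List Bool → Prop := fun s => ∃ y ∈ Ω, nb s ⊆ W y
  have hP : ∀ β s, β <:+ s → P β → P s := by
    rintro β s h ⟨y, hy, hsub⟩
    exact ⟨y, hy, (nb_mono h).trans hsub⟩
  let V := {s : List Bool // P s ∧ ∀ β, β <:+ s → P β → β = s}
  refine ⟨V, inferInstance, fun v => nb v.1, ?_, fun v => nb_nonempty _, fun v => v.2.1, ?_, ?_⟩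
  · exact leaves_sys (fun v : V => v.1)
      fun u v h => Subtype.ext (v.2.2 u.1 h u.2.1)
  · intro y hy
    obtain ⟨n, hn⟩ := exists_level y (W y) (hW y hy).1 (hW y hy).2.1
    obtain ⟨s, hs, hys⟩ := exists_node y n
    have hex : ∃ k, ∃ β, β <:+ s ∧ β.length = k ∧ P β :=
      ⟨s.length, s, List.suffix_refl _, rfl, y, hy, hn s hs.ge hys⟩
    obtain ⟨β, h1, h2, h3⟩ := Nat.find_spec hex
    refine ⟨⟨β, h3, fun γ hγ hPγ => ?_⟩, nb_mono h1 hys⟩
    have h4 := Nat.find_min' hex ⟨γ, hγ.trans h1, rfl, hPγ⟩
    exact hγ.eq_of_length (le_antisymm hγ.length_le (h2 ▸ h4))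
  · intro y hy
    obtain ⟨n, hn⟩ := exists_level y (W y) (hW y hy).1 (hW y hy).2.1
    have hfin : {s : List Bool | s.length = n}.Finite := List.finite_length_eq _ _
    have hfin2 : {s : List Bool | s.length ≤ n}.Finite := List.finite_length_le _ _
    refine ⟨⋂ s ∈ {s : List Bool | s.length = n ∧ y ∉ nb s}, (nb s)ᶜ, ?_, ?_, ?_⟩
    · refine (hfin.subset fun s hs => hs.1).isOpen_biInter fun s _ => ?_
      exact (isClosed_bx _ _).isOpen_compl
    · simp only [mem_iInter, mem_compl_iff]
      exact fun s hs => hs.2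
    · refine (hfin2.preimage (f := fun v : V => v.1) Subtype.val_injective.injOn).subset ?_
      rintro v ⟨z, hz1, hz2⟩
      simp only [mem_preimage, mem_ofPred_eq]
      by_contra hlen
      push Not at hlen
      set s := v.1.drop (v.1.length - n) with hs
      have hsl : s.length = n := by rw [hs, List.length_drop]; omega
      have hsuf : s <:+ v.1 := List.drop_suffix _ _
      have hys : y ∈ nb s := by
        by_contra h
        simp only [mem_iInter, mem_compl_iff] at hz2
        exact hz2 s ⟨hsl, h⟩ (nb_mono hsuf hz1)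
      have hPs : P s := ⟨y, hy, hn s hsl.ge hys⟩
      have := v.2.2 s hsuf hPs
      rw [this] at hsl
      omega

end

end Pool.Agent.H236_QM.G2
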