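import Pool.Agent.H236_QM.BSide
import Pool.Agent.H236_QM.Tree

/-!
# Changing an embedding over a chart
-/

set_option autoImplicit false
set_option linter.unusedSectionVars false

namespace Pool.Agent.H236_QM.G2

open Set Filter Topology BoundedContinuousFunction

noncomputable section

/-- the cube inside a Banach space -/
def qe (x : ℕ → I) : ℕ →ᵇ ℝ :=
  BoundedContinuousFunction.ofNormedAddCommGroupDiscrete (fun i => (x i : ℝ) / 2 ^ i) 1 (fun i => by
    rw [Real.norm_eq_abs, abs_div, abs_of_nonneg (x i).2.1, abs_of_pos (by positivity)]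
    rw [div_le_one (by positivity)]
    exact (x i).2.2.trans (one_le_pow₀ (by norm_num)))

lemma qe_apply (x : ℕ → I) (i : ℕ) : qe x i = (x i : ℝ) / 2 ^ i := rfl

lemma dist_coord (x y : ℕ → I) (i : ℕ) : dist (qe x i) (qe y i) = |(x i : ℝ) - y i| / 2 ^ i := by
  rw [Real.dist_eq, qe_apply, qe_apply, ← sub_div, abs_div, abs_of_pos (show (0:ℝ) < 2 ^ i by positivity)]

lemma dist_qe_le {x y : ℕ → I} {r : ℝ} (hr : 0 ≤ r) : dist (qe x) (qe y) ≤ r ↔ x ∈ cb y r := by
  rw [BoundedContinuousFunction.dist_le hr]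
  refine forall_congr' fun i => ?_
  rw [dist_coord, div_le_iff₀ (by positivity), mul_comm]

lemma continuous_qe : Continuous qe := by
  rw [continuous_iff_continuousAt]
  intro x
  rw [ContinuousAt, Metric.tendsto_nhds]
  intro ε hε
  obtain ⟨n, hn⟩ := exists_pow_lt_of_lt_one (half_pos hε) (show (1/2 : ℝ) < 1 by norm_num)
  have h1 : ∀ᶠ y in 𝓝 x, ∀ i ∈ Iio n, |(y i : ℝ) - x i| < ε / 2 := by
    refine (eventually_all_finite (Set.finite_Iio n)).mpr fun i _ => ?_
    have hc : Continuous fun y : ℕ → I => |(y i : ℝ) - x i| :=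
      ((continuous_coord i).sub continuous_const).abs
    exact (isOpen_lt hc continuous_const).mem_nhds (by simpa using half_pos hε)
  filter_upwards [h1] with y hy
  refine lt_of_le_of_lt ?_ (half_lt_self hε)
  rw [BoundedContinuousFunction.dist_le (half_pos hε).le]
  intro i
  rw [dist_coord]
  rcases lt_or_ge i n with h | h
  · refine (div_le_self (abs_nonneg _) (one_le_pow₀ (by norm_num))).trans (hy i h).le
  · have h2 : |(y i : ℝ) - x i| ≤ 1 := by
      rw [abs_le]
      constructor <;> linarith [(y i).2.1, (y i).2.2, (x i).2.1, (x i).2.2]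
    calc |(y i : ℝ) - x i| / 2 ^ i ≤ 1 / 2 ^ i := by gcongr
      _ = (1/2 : ℝ) ^ i := by rw [one_div, one_div, inv_pow]
      _ ≤ (1/2 : ℝ) ^ n := pow_le_pow_of_le_one (by norm_num) (by norm_num) h
      _ ≤ ε / 2 := hn.le

lemma qe_injective : Function.Injective qe := by
  intro x y h
  have : x ∈ cb y 0 := by
    rw [← dist_qe_le le_rfl, h, dist_self]
  funext i
  have h1 := this i
  rw [mul_zero] at h1
  exact Subtype.ext (sub_eq_zero.mp (abs_nonpos_iff.mp h1))

lemma qe_embedding : IsEmbedding qe := (continuous_qe.isClosedEmbedding qe_injective).isEmbedding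

/-- **Changing an embedding over a chart.** -/
theorem step {X : Type} [TopologicalSpace X] [CompactSpace X] [T2Space X] (g : X → ℕ → I)
    (hg : Continuous g) (hgi : Function.Injective g) (O : Set X) (hO : IsOpen O)
    (h : O → ℕ → I) (hh : IsOpenEmbedding h) (η : X → ℝ) (hη : Continuous η)
    (hη0 : ∀ x ∈ O, 0 < η x) (W : X → Set X) (hW : ∀ x ∈ O, IsOpen (W x) ∧ x ∈ W x) :
    ∃ g' : X → ℕ → I, Continuous g' ∧ Function.Injective g' ∧ (∀ x, x ∉ O → g' x = g x) ∧
      (∀ x ∈ O, dist (qe (g' x)) (qe (g x)) ≤ η x) ∧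
      ∃ (V : Type) (C : V → Set X), (∀ v, IsCompact (C v)) ∧ (∀ v, C v ⊆ O) ∧
        (∀ v, (C v).Nonempty) ∧ (∀ v, ∃ x ∈ O, C v ⊆ W x) ∧ (∀ x ∈ O, ∃ v, x ∈ C v) ∧
        (∀ x ∈ O, ∃ N, IsOpen N ∧ x ∈ N ∧ {v | (C v ∩ N).Nonempty}.Finite) ∧
        ∀ v, IsBCS (g' '' C v) := by
  classical
  set G : X → ℕ →ᵇ ℝ := fun x => qe (g x) with hG
  have hGc : Continuous G := continuous_qe.comp hg
  have hGi : Function.Injective G := qe_injective.comp hgi
  -- the control function
  obtain ⟨ε, hεc, hε0, hεη, hεO, hεn⟩ : ∃ ε : X → ℝ, Continuous ε ∧ (∀ x ∈ O, 0 < ε x) ∧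
      (∀ x ∈ O, ε x ≤ η x) ∧ (∀ x ∈ O, ∀ a, a ∉ O → ε x < dist (G x) (G a)) ∧
      ∀ x, x ∉ O → ε x ≤ 0 := by
    by_cases hA : (Oᶜ).Nonempty
    · have hAc : IsCompact (G '' Oᶜ) := (hO.isClosed_compl.isCompact).image hGc
      have hAn : (G '' Oᶜ).Nonempty := hA.image G
      have hpos : ∀ x ∈ O, 0 < Metric.infDist (G x) (G '' Oᶜ) := by
        intro x hx
        rw [← hAc.isClosed.notMem_iff_infDist_pos hAn]
        rintro ⟨a, ha, hax⟩
        exact ha (hGi hax ▸ hx)
      refine ⟨fun x => min (η x) (Metric.infDist (G x) (G '' Oᶜ) / 2), ?_, ?_, ?_, ?_, ?_⟩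
      · exact hη.min (((Metric.continuous_infDist_pt _).comp hGc).div_const _)
      · intro x hx
        exact lt_min (hη0 x hx) (half_pos (hpos x hx))
      · intro x _; exact min_le_left _ _
      · intro x hx a ha
        have h1 := Metric.infDist_le_dist_of_mem (x := G x) (mem_image_of_mem G (show a ∈ Oᶜ from ha))
        have h2 := hpos x hx
        refine lt_of_le_of_lt (min_le_right _ _) ?_
        linarith
      · intro x hx
        refine (min_le_right _ _).trans ?_
        rw [Metric.infDist_zero_of_mem (mem_image_of_mem G (show x ∈ Oᶜ from hx))]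
        norm_num
    · rw [not_nonempty_iff_eq_empty, compl_empty_iff] at hA
      refine ⟨η, hη, hη0, fun x _ => le_rfl, fun x _ a ha => ?_, fun x hx => ?_⟩
      · rw [hA] at ha; exact absurd (mem_univ _) ha
      · rw [hA] at hx; exact absurd (mem_univ _) hx
  -- the fine cover
  set Ω : Set (ℕ → I) := range h with hΩ
  let W' : (ℕ → I) → Set (ℕ → I) := fun z => {z' | ∃ x : O, h x = z ∧ ∃ x' : O, h x' = z' ∧
    x'.1 ∈ W x.1 ∧ dist (G x') (G x) < ε x / 8 ∧ ε x / 2 < ε x'}
  have hW' : ∀ z ∈ Ω, IsOpen (W' z) ∧ z ∈ W' z ∧ W' z ⊆ Ω := by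
    rintro z ⟨x, rfl⟩
    refine ⟨?_, ?_, ?_⟩
    · have : W' (h x) = h '' {x' : O | x'.1 ∈ W x.1 ∧ dist (G x') (G x) < ε x / 8 ∧
          ε x / 2 < ε x'} := by
        ext z'
        constructor
        · rintro ⟨x1, hx1, x', hx', h1⟩
          rw [hh.injective hx1] at h1
          exact ⟨x', h1, hx'⟩
        · rintro ⟨x', h1, hx'⟩
          exact ⟨x, rfl, x', hx', h1⟩
      rw [this]
      refine hh.isOpenMap _ ?_
      refine ((hW x x.2).1.preimage continuous_subtype_val).inter ?_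
      refine IsOpen.inter ?_ ?_
      · exact isOpen_lt ((hGc.comp continuous_subtype_val).dist continuous_const) continuous_const
      · exact isOpen_lt continuous_const (hεc.comp continuous_subtype_val)
    · have h1 := hε0 x x.2
      exact ⟨x, rfl, x, rfl, (hW x x.2).2, by rw [dist_self]; linarith, by linarith⟩
    · rintro z' ⟨-, -, x', hx', -⟩
      exact ⟨x', hx'⟩
  obtain ⟨V, hVc, R, hR, hRn, hRW, hRcov, hRlf⟩ := exists_fine_cover Ω W' hW'
  have hRW2 : ∀ v, ∃ x : O, ∀ z' ∈ R v, ∃ x' : O, h x' = z' ∧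
      x'.1 ∈ W x.1 ∧ dist (G x') (G x) < ε x / 8 ∧ ε x / 2 < ε x' := by
    intro v
    obtain ⟨z, ⟨x, rfl⟩, hsub⟩ := hRW v
    refine ⟨x, fun z' hz' => ?_⟩
    obtain ⟨x1, hx1, x', hx', h1⟩ := hsub hz'
    rw [hh.injective hx1] at h1
    exact ⟨x', hx', h1⟩
  choose c hc using hRW2
  have hRΩ : ∀ v, R v ⊆ Ω := fun v z hz => by
    obtain ⟨x', hx', -⟩ := hc v z hz
    exact ⟨x', hx'⟩
  have hcx : ∀ v (x : O), h x ∈ R v → x.1 ∈ W (c v).1 ∧ dist (G x) (G (c v)) < ε (c v) / 8 ∧
      ε (c v) / 2 < ε x := by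
    intro v x hx
    obtain ⟨x', hx', h1⟩ := hc v _ hx
    rw [hh.injective hx'] at h1
    exact h1
  let y : V → ℕ → I := fun v => g (c v)
  let r : V → ℝ := fun v => ε (c v) / 4
  have hεc0 : ∀ v, 0 < ε (c v) := fun v => hε0 _ (c v).2
  have hr : ∀ v, 0 < r v := fun v => by have := hεc0 v; simp only [r]; linarith
  let C : V → Set X := fun v => Subtype.val '' (h ⁻¹' R v)
  have hClf : ∀ x ∈ O, ∃ N, IsOpen N ∧ x ∈ N ∧ {v | (C v ∩ N).Nonempty}.Finite := by
    intro x hx
    obtain ⟨N, hN, hxN, hfin⟩ := hRlf (h ⟨x, hx⟩) ⟨_, rfl⟩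
    refine ⟨Subtype.val '' (h ⁻¹' N), hO.isOpenMap_subtype_val _ (hN.preimage hh.continuous),
      ⟨⟨x, hx⟩, hxN, rfl⟩, hfin.subset ?_⟩
    rintro v ⟨z, ⟨z1, hz1, rfl⟩, ⟨z2, hz2, hz3⟩⟩
    have : z2 = z1 := Subtype.ext hz3
    subst this
    exact ⟨h z2, hz1, hz2⟩
  have hCcpt : ∀ T : Set X, IsCompact T → T ⊆ O → {v | (C v ∩ T).Nonempty}.Finite := by
    intro T hT hTO
    choose! N hN hxN hfin using hClf
    obtain ⟨t, ht1, ht2⟩ := hT.elim_nhds_subcover N
      (fun x hx => (hN x (hTO hx)).mem_nhds (hxN x (hTO hx)))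
    refine (t.finite_toSet.biUnion (t := fun x => {v | (C v ∩ N x).Nonempty})
      fun x hx => hfin x (hTO (ht1 x hx))).subset ?_
    rintro v ⟨z, hz1, hz2⟩
    obtain ⟨x, hx, hzx⟩ := mem_iUnion₂.mp (ht2 hz2)
    exact mem_iUnion₂.mpr ⟨x, hx, z, hz1, hzx⟩
  -- points of the cover in the balls
  have hmem : ∀ v (x : O), h x ∈ R v → g x ∈ cb (y v) (r v) := by
    intro v x hx
    rw [← dist_qe_le (hr v).le]
    have h1 := (hcx v x hx).2.1
    have h2 := hεc0 v
    have h3 : dist (qe (g x)) (qe (y v)) = dist (G x) (G (c v)) := rfl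
    rw [h3]
    simp only [r]
    linarith
  have hBlf : ∀ v, ∀ z ∈ cb (y v) (r v), ∃ N, IsOpen N ∧ z ∈ N ∧
      {w | (cb (y w) (r w) ∩ N).Nonempty}.Finite := by
    intro v z hz
    have hz' : dist (qe z) (G (c v)) ≤ r v := (dist_qe_le (hr v).le).mpr hz
    have hrv : 4 * r v = ε (c v) := by simp only [r]; ring
    have hrv0 := hr v
    let T : Set X := {x | dist (qe z) (G x) ≤ r v / 2 + 3 / 4 * ε x}
    have hT : IsClosed T := isClosed_le (continuous_const.dist hGc)
      (continuous_const.add (continuous_const.mul hεc))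
    have hTO : T ⊆ O := by
      intro x hx
      by_contra hxO
      have h1 : dist (qe z) (G x) ≤ r v / 2 + 3 / 4 * ε x := hx
      have h2 := hεn x hxO
      have h3 := hεO (c v) (c v).2 x hxO
      have h4 := dist_triangle (G (c v)) (qe z) (G x)
      rw [dist_comm (G (c v)) (qe z)] at h4
      linarith
    refine ⟨{z' | dist (qe z') (qe z) < r v / 2}, ?_, ?_, ?_⟩
    · exact isOpen_lt (continuous_qe.dist continuous_const) continuous_const
    · simp only [mem_ofPred_eq, dist_self]; linarith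
    · refine (hCcpt T hT.isCompact hTO).subset ?_
      rintro w ⟨z', hz1, hz2⟩
      obtain ⟨z0, hz0⟩ := hRn w
      obtain ⟨x, rfl⟩ := hRΩ w hz0
      refine ⟨x, ⟨x, hz0, rfl⟩, ?_⟩
      obtain ⟨-, h1, h2⟩ := hcx w x hz0
      have h3 : dist (qe z') (G (c w)) ≤ r w := (dist_qe_le (hr w).le).mpr hz1
      have h4 : dist (qe z') (qe z) < r v / 2 := hz2
      have h5 : 4 * r w = ε (c w) := by simp only [r]; ring
      have h6 := dist_triangle (qe z) (qe z') (G x)
      have h7 := dist_triangle (qe z') (G (c w)) (G x)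
      rw [dist_comm (qe z) (qe z')] at h6
      rw [dist_comm (G (c w)) (G x)] at h7
      change dist (qe z) (G x) ≤ r v / 2 + 3 / 4 * ε x
      linarith
  have hRNfin : ∀ v, {w | RN y r v w}.Finite := by
    intro v
    choose! N hN hxN hfin using hBlf v
    obtain ⟨t, ht1, ht2⟩ := (isClosed_cb (y v) (r v)).isCompact.elim_nhds_subcover N
      (fun x hx => (hN x hx).mem_nhds (hxN x hx))
    refine (t.finite_toSet.biUnion (t := fun x => {w | (cb (y w) (r w) ∩ N x).Nonempty})
      fun x hx => hfin x (ht1 x hx)).subset ?_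
    rintro w ⟨z, hz1, hz2⟩
    obtain ⟨x, hx, hzx⟩ := mem_iUnion₂.mp (ht2 hz1)
    exact mem_iUnion₂.mpr ⟨x, hx, z, hz2, hzx⟩
  set far : V → V → Prop := fun u v => ¬ (R u ∩ R v).Nonempty with hfar
  have hirr : ∀ v, ¬ far v v := fun v hf => by
    obtain ⟨z, hz⟩ := hRn v
    exact hf ⟨z, hz, hz⟩
  have hsymm : ∀ u v, far u v → far v u := fun u v hf => by
    intro hn
    apply hf
    rwa [inter_comm] at hn
  obtain ⟨B, hB, hBCS, hBcb⟩ := exists_boxes (far := far) (y := y) (r := r) hsymm hirr hr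
    (by
      intro σ hσ
      obtain ⟨φ, -⟩ := hR.tame σ hσ
      let z := φ.symm (fun _ => 0)
      obtain ⟨v0, hv0⟩ := hσ.1
      obtain ⟨x, hx⟩ := hRΩ v0 (z.2 v0 hv0)
      refine ⟨g x, fun v hv => hmem v x ?_⟩
      rw [hx]
      exact z.2 v hv) hRNfin
  have hlf : ∀ v, {w | ¬ far v w}.Finite := by
    intro v
    refine (hRNfin v).subset ?_
    intro w hw
    obtain ⟨z, hz1, hz2⟩ := not_not.mp hw
    obtain ⟨x, rfl⟩ := hRΩ v hz1
    exact ⟨g x, hmem v x hz1, hmem w x hz2⟩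
  obtain ⟨f, hf, -, hfC⟩ := exists_embedding (hR.restrict Ω hRΩ) hB hlf hirr
    (fun z => hRcov z.1 z.2)
    (by
      intro z
      obtain ⟨N, hN, hzN, hfin⟩ := hRlf z.1 z.2
      refine ⟨(↑) ⁻¹' N, (hN.preimage continuous_subtype_val).mem_nhds hzN, hfin.subset ?_⟩
      rintro v ⟨z', h1, h2⟩
      exact ⟨z', h1, h2⟩)
    (by
      intro z v hz
      obtain ⟨N, hN, hzN, hfin⟩ := hBlf v z (hBcb v hz)
      refine ⟨N, hN, hzN, hfin.subset ?_⟩
      rintro u ⟨z', h1, h2⟩
      exact ⟨z', hBcb u h1, h2⟩)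
  let fO : O → ℕ → I := fun x => f ⟨h x, x, rfl⟩
  have hfOc : Continuous fO := hf.continuous.comp (Continuous.subtype_mk hh.continuous _)
  have hfOi : Function.Injective fO := by
    intro a b hab
    exact hh.injective (congrArg Subtype.val (hf.injective hab))
  have hfOd : ∀ x : O, dist (qe (fO x)) (G x) ≤ ε x := by
    intro x
    obtain ⟨v, hv⟩ := hRcov (h x) ⟨x, rfl⟩
    obtain ⟨-, h1, h2⟩ := hcx v x hv
    have h3 : fO x ∈ B v := by
      rw [← hfC v]
      exact ⟨⟨h x, x, rfl⟩, hv, rfl⟩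
    have h4 : dist (qe (fO x)) (G (c v)) ≤ r v := (dist_qe_le (hr v).le).mpr (hBcb v h3)
    have h5 : 4 * r v = ε (c v) := by simp only [r]; ring
    have h6 := dist_triangle (qe (fO x)) (G (c v)) (G x)
    rw [dist_comm (G (c v)) (G x)] at h6
    have h7 := hεc0 v
    linarith
  let g' : X → ℕ → I := fun x => if hx : x ∈ O then fO ⟨x, hx⟩ else g x
  have hg'O : ∀ x (hx : x ∈ O), g' x = fO ⟨x, hx⟩ := fun x hx => dif_pos hx
  have hg'n : ∀ x, x ∉ O → g' x = g x := fun x hx => dif_neg hx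
  have hg'd : ∀ x ∈ O, dist (qe (g' x)) (G x) ≤ ε x := fun x hx => by
    rw [hg'O x hx]; exact hfOd ⟨x, hx⟩
  refine ⟨g', ?_, ?_, hg'n, fun x hx => (hg'd x hx).trans (hεη x hx), V, C, ?_, ?_, ?_, ?_, ?_,
    hClf, ?_⟩
  · rw [continuous_iff_continuousAt]
    intro x
    by_cases hx : x ∈ O
    · have h1 : ContinuousOn g' O := by
        rw [continuousOn_iff_continuous_domRestrict]
        have : O.domRestrict g' = fO := by
          funext a
          exact hg'O a a.2
        rw [this]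
        exact hfOc
      exact h1.continuousAt (hO.mem_nhds hx)
    · rw [qe_embedding.isInducing.continuousAt_iff, ContinuousAt, tendsto_iff_dist_tendsto_zero]
      have h1 : Tendsto (fun a => 2 * dist (G a) (G x)) (𝓝 x) (𝓝 0) := by
        have : Tendsto (fun a => 2 * dist (G a) (G x)) (𝓝 x) (𝓝 (2 * dist (G x) (G x))) :=
          (continuous_const.mul (hGc.dist continuous_const)).tendsto x
        simpa using this
      refine squeeze_zero (fun a => dist_nonneg) (fun a => ?_) h1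
      simp only [Function.comp]
      rw [hg'n x hx]
      by_cases ha : a ∈ O
      · have h2 := hg'd a ha
        have h3 := hεO a ha x hx
        have h4 := dist_triangle (qe (g' a)) (G a) (G x)
        change dist (qe (g' a)) (G x) ≤ 2 * dist (G a) (G x)
        linarith
      · rw [hg'n a ha]
        change dist (G a) (G x) ≤ 2 * dist (G a) (G x)
        have := dist_nonneg (x := G a) (y := G x)
        linarith
  · have key : ∀ a ∈ O, ∀ b, b ∉ O → g' a ≠ g' b := by
      intro a ha b hb hab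
      have h1 := hg'd a ha
      rw [hab, hg'n b hb] at h1
      have h2 := hεO a ha b hb
      rw [dist_comm] at h2
      exact absurd h1 (not_le.mpr h2)
    intro a b hab
    by_cases ha : a ∈ O
    · by_cases hb : b ∈ O
      · rw [hg'O a ha, hg'O b hb] at hab
        exact congrArg Subtype.val (hfOi hab)
      · exact absurd hab (key a ha b hb)
    · by_cases hb : b ∈ O
      · exact absurd hab.symm (key b hb a ha)
      · rw [hg'n a ha, hg'n b hb] at hab
        exact hgi hab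
  · intro v
    refine IsCompact.image ?_ continuous_subtype_val
    exact (hh.isInducing.isCompact_preimage_iff (hRΩ v)).mpr (hR.compact v)
  · rintro v _ ⟨x, -, rfl⟩
    exact x.2
  · intro v
    obtain ⟨z0, hz0⟩ := hRn v
    obtain ⟨x, rfl⟩ := hRΩ v hz0
    exact ⟨x, x, hz0, rfl⟩
  · intro v
    refine ⟨c v, (c v).2, ?_⟩
    rintro _ ⟨x, hx, rfl⟩
    exact (hcx v x hx).1
  · intro x hx
    obtain ⟨v, hv⟩ := hRcov (h ⟨x, hx⟩) ⟨_, rfl⟩
    exact ⟨v, ⟨x, hx⟩, hv, rfl⟩
  · intro v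
    have : g' '' C v = B v := by
      rw [← hfC v]
      ext z
      constructor
      · rintro ⟨_, ⟨x, hx, rfl⟩, rfl⟩
        exact ⟨⟨h x, x, rfl⟩, hx, (hg'O x x.2).symm⟩
      · rintro ⟨⟨_, x, rfl⟩, hx, rfl⟩
        exact ⟨x, ⟨x, hx, rfl⟩, hg'O x x.2⟩
    rw [this]
    exact hBCS v

end

end Pool.Agent.H236_QM.G2
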