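import Pool.Agent.H236_QM.Step

/-!
# Strata, and the embedding theorem
-/

set_option autoImplicit false
set_option linter.unusedSectionVars false

namespace Pool.Agent.H236_QM.G2

open Set Filter Topology BoundedContinuousFunction

noncomputable section

lemma finite_meet {X V : Type} [TopologicalSpace X] (C : V → Set X) (O : Set X)
    (hClf : ∀ x ∈ O, ∃ N, IsOpen N ∧ x ∈ N ∧ {v | (C v ∩ N).Nonempty}.Finite)
    (T : Set X) (hT : IsCompact T) (hTO : T ⊆ O) : {v | (C v ∩ T).Nonempty}.Finite := by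
  choose! N hN hxN hfin using hClf
  obtain ⟨t, ht1, ht2⟩ := hT.elim_nhds_subcover N
    (fun x hx => (hN x (hTO hx)).mem_nhds (hxN x (hTO hx)))
  refine (t.finite_toSet.biUnion (t := fun x => {v | (C v ∩ N x).Nonempty})
    fun x hx => hfin x (hTO (ht1 x hx))).subset ?_
  rintro v ⟨z, hz1, hz2⟩
  obtain ⟨x, hx, hzx⟩ := mem_iUnion₂.mp (ht2 hz2)
  exact mem_iUnion₂.mpr ⟨x, hx, z, hz1, hzx⟩

/-- one stage of the construction -/
lemma stage {X : Type} [TopologicalSpace X] [CompactSpace X] [T2Space X] (M : Set X)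
    (g : X → ℕ → I) (hg : Continuous g) (hgi : Function.Injective g)
    (F : Set X) (hFM : F ⊆ M) (hF : IsOpen (M \ F)) (U K K' : Set X) (hU : IsOpen U)
    (hUM : U ⊆ M) (h : U → ℕ → I) (hh : IsOpenEmbedding h) (hK : IsClosed K)
    (hKK' : K ⊆ interior K') (hK' : IsCompact K') (hK'U : K' ⊆ U)
    (η : X → ℝ) (hη : Continuous η) (hη0 : ∀ x ∈ M, 0 < η x) :
    ∃ (g' : X → ℕ → I) (F' : Set X) (𝒟 : Set (Set (ℕ → I))),
      Continuous g' ∧ Function.Injective g' ∧ F ⊆ F' ∧ F' ⊆ M ∧ IsOpen (M \ F') ∧ K ⊆ F' ∧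
      (∀ x ∈ F, g' x = g x) ∧ (∀ x, x ∉ M → g' x = g x) ∧
      (∀ x ∈ M, dist (qe (g' x)) (qe (g x)) ≤ η x) ∧
      (∀ B ∈ 𝒟, IsBCS B) ∧ (∀ B ∈ 𝒟, {D | D ∈ 𝒟 ∧ (B ∩ D).Nonempty}.Finite) ∧
      ⋃₀ 𝒟 = g' '' (F' \ F) := by
  classical
  have hO : IsOpen (U \ F) := by
    have : U \ F = U ∩ (M \ F) := by
      ext x
      constructor
      · rintro ⟨h1, h2⟩; exact ⟨h1, hUM h1, h2⟩
      · rintro ⟨h1, -, h2⟩; exact ⟨h1, h2⟩
    rw [this]
    exact hU.inter hF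
  have hinc : IsOpenEmbedding (Set.inclusion (sdiff_subset : U \ F ⊆ U)) := by
    refine IsOpenEmbedding.of_comp _ hU.isOpenEmbedding_subtypeVal ?_
    exact hO.isOpenEmbedding_subtypeVal
  let W : X → Set X := fun x => if x ∈ interior K' then interior K' else Kᶜ
  have hW : ∀ x ∈ U \ F, IsOpen (W x) ∧ x ∈ W x := by
    intro x _
    simp only [W]
    split_ifs with h1
    · exact ⟨isOpen_interior, h1⟩
    · exact ⟨hK.isOpen_compl, fun h2 => h1 (hKK' h2)⟩
  obtain ⟨g', hg', hg'i, hg'n, hg'd, V, C, hCc, hCO, hCn, hCW, hCcov, hClf, hCB⟩ :=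
    step g hg hgi (U \ F) hO _ (hh.comp hinc) η hη (fun x hx => hη0 x (hUM hx.1)) W hW
  have hCK' : ∀ v, (C v ∩ K).Nonempty → C v ⊆ K' := by
    rintro v ⟨z, hz1, hz2⟩
    obtain ⟨x, -, hx⟩ := hCW v
    have hz := hx hz1
    simp only [W] at hz hx
    split_ifs at hz hx with h1
    · exact hx.trans interior_subset
    · exact absurd hz2 hz
  set D : Set X := ⋃ v ∈ {v | (C v ∩ K).Nonempty}, C v with hD
  have hDO : D ⊆ U \ F := iUnion₂_subset fun v _ => hCO v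
  have hDK' : D ⊆ K' := iUnion₂_subset fun v hv => hCK' v hv
  have hFD : (F ∪ D) \ F = D := by
    ext x
    constructor
    · rintro ⟨h1 | h1, h2⟩
      · exact absurd h1 h2
      · exact h1
    · intro h1
      exact ⟨Or.inr h1, (hDO h1).2⟩
  refine ⟨g', F ∪ D, {B | ∃ v, (C v ∩ K).Nonempty ∧ B = g' '' C v}, hg', hg'i,
    subset_union_left, union_subset hFM fun x hx => hUM (hDO hx).1, ?_, ?_, ?_, ?_, ?_, ?_, ?_, ?_⟩
  · rw [isOpen_iff_mem_nhds]
    rintro y ⟨hyM, hyFD⟩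
    have hyF : y ∉ F := fun h => hyFD (Or.inl h)
    have hyD : y ∉ D := fun h => hyFD (Or.inr h)
    by_cases hyU : y ∈ U
    · obtain ⟨N, hN, hyN, hfin⟩ := hClf y ⟨hyU, hyF⟩
      have hopen : IsOpen ((U \ F) ∩ (N \ ⋃ v ∈ {v | (C v ∩ N).Nonempty ∧ (C v ∩ K).Nonempty},
          C v)) := by
        refine hO.inter (hN.sdiff ?_)
        exact (hfin.subset fun v hv => hv.1).isClosed_biUnion fun v _ => (hCc v).isClosed
      refine mem_of_superset (hopen.mem_nhds ⟨⟨hyU, hyF⟩, hyN, ?_⟩) ?_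
      · intro h1
        obtain ⟨v, hv, hyv⟩ := mem_iUnion₂.mp h1
        exact hyD (mem_iUnion₂.mpr ⟨v, hv.2, hyv⟩)
      · rintro z ⟨⟨hzU, hzF⟩, hzN, hzC⟩
        refine ⟨hUM hzU, ?_⟩
        rintro (h1 | h1)
        · exact hzF h1
        · obtain ⟨v, hv, hzv⟩ := mem_iUnion₂.mp h1
          exact hzC (mem_iUnion₂.mpr ⟨v, ⟨⟨z, hzv, hzN⟩, hv⟩, hzv⟩)
    · refine mem_of_superset ((hF.sdiff hK'.isClosed).mem_nhds ⟨⟨hyM, hyF⟩,
        fun h1 => hyU (hK'U h1)⟩) ?_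
      rintro z ⟨⟨hzM, hzF⟩, hzK'⟩
      exact ⟨hzM, fun h1 => h1.elim hzF fun h2 => hzK' (hDK' h2)⟩
  · intro x hx
    by_cases hxF : x ∈ F
    · exact Or.inl hxF
    · right
      obtain ⟨v, hv⟩ := hCcov x ⟨hK'U (interior_subset (hKK' hx)), hxF⟩
      exact mem_iUnion₂.mpr ⟨v, ⟨x, hv, hx⟩, hv⟩
  · intro x hx
    exact hg'n x fun h1 => h1.2 hx
  · intro x hx
    exact hg'n x fun h1 => hx (hUM h1.1)
  · intro x hx
    by_cases hxO : x ∈ U \ F
    · exact hg'd x hxO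
    · rw [hg'n x hxO, dist_self]
      exact (hη0 x hx).le
  · rintro B ⟨v, -, rfl⟩
    exact hCB v
  · rintro B ⟨v, -, rfl⟩
    have hfin := finite_meet C (U \ F) hClf (C v) (hCc v) (hCO v)
    refine (hfin.image fun w => g' '' C w).subset ?_
    rintro _ ⟨⟨w, -, rfl⟩, z, ⟨a, ha, rfl⟩, ⟨b, hb, hab⟩⟩
    rw [hg'i hab] at hb
    exact ⟨w, ⟨a, hb, ha⟩, rfl⟩
  · rw [hFD]
    ext z
    simp only [mem_sUnion, mem_ofPred_eq, hD, image_iUnion₂, mem_iUnion₂]
    constructor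
    · rintro ⟨_, ⟨v, hv, rfl⟩, hz⟩
      exact ⟨v, hv, hz⟩
    · rintro ⟨v, hv, hz⟩
      exact ⟨_, ⟨v, hv, rfl⟩, hz⟩

/-- the states of the construction -/
structure St (X : Type) [TopologicalSpace X] (M : Set X) where
  /-- the current embedding -/
  g : X → ℕ → I
  /-- the finished part -/
  F : Set X
  hg : Continuous g
  hgi : Function.Injective g
  hFM : F ⊆ M
  hF : IsOpen (M \ F)

/-- **The embedding theorem inside a compact space.** -/
theorem main_compact {X : Type} [TopologicalSpace X] [CompactSpace X] [T2Space X]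
    (g0 : X → ℕ → I) (hg0 : Continuous g0) (hgi0 : Function.Injective g0)
    (M : Set X) (hM : IsOpen M) (U K K' : ℕ → Set X) (hU : ∀ n, IsOpen (U n))
    (hUM : ∀ n, U n ⊆ M) (hch : ∀ n, ∃ h : U n → ℕ → I, IsOpenEmbedding h)
    (hK : ∀ n, IsClosed (K n)) (hKK' : ∀ n, K n ⊆ interior (K' n))
    (hK' : ∀ n, IsCompact (K' n)) (hK'U : ∀ n, K' n ⊆ U n)
    (hcov : ∀ x ∈ M, ∃ n, x ∈ interior (K n)) :
    ∃ f : X → ℕ → I, Continuous f ∧ Function.Injective f ∧
      ∃ 𝒞 : Set (Set (ℕ → I)), (∀ B ∈ 𝒞, IsBCS B) ∧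
        (∀ B ∈ 𝒞, {D | D ∈ 𝒞 ∧ (B ∩ D).Nonempty}.Finite) ∧ f '' M = ⋃₀ 𝒞 := by
  classical
  -- the weight
  obtain ⟨ρ, hρc, hρM, hρn⟩ : ∃ ρ : X → ℝ, Continuous ρ ∧ (∀ x ∈ M, 0 < ρ x) ∧
      ∀ x, x ∉ M → ρ x = 0 := by
    have hGc : Continuous fun x => qe (g0 x) := continuous_qe.comp hg0
    by_cases hA : (Mᶜ).Nonempty
    · have hAc : IsCompact ((fun x => qe (g0 x)) '' Mᶜ) := (hM.isClosed_compl.isCompact).image hGc
      have hAn : ((fun x => qe (g0 x)) '' Mᶜ).Nonempty := hA.image _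
      refine ⟨fun x => Metric.infDist (qe (g0 x)) ((fun x => qe (g0 x)) '' Mᶜ),
        (Metric.continuous_infDist_pt _).comp hGc, ?_, ?_⟩
      · intro x hx
        rw [← hAc.isClosed.notMem_iff_infDist_pos hAn]
        rintro ⟨a, ha, hax⟩
        exact ha (hgi0 (qe_injective hax) ▸ hx)
      · intro x hx
        exact Metric.infDist_zero_of_mem
          (mem_image_of_mem (fun x => qe (g0 x)) (show x ∈ Mᶜ from hx))
    · rw [not_nonempty_iff_eq_empty, compl_empty_iff] at hA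
      refine ⟨fun _ => 1, continuous_const, fun _ _ => one_pos, fun x hx => ?_⟩
      rw [hA] at hx; exact absurd (mem_univ _) hx
  choose h hh using hch
  have hstep : ∀ (n : ℕ) (s : St X M), ∃ (s' : St X M) (𝒟 : Set (Set (ℕ → I))),
      s.F ⊆ s'.F ∧ K n ⊆ s'.F ∧ (∀ x ∈ s.F, s'.g x = s.g x) ∧ (∀ x, x ∉ M → s'.g x = s.g x) ∧
      (∀ x ∈ M, dist (qe (s'.g x)) (qe (s.g x)) ≤ (1/2 : ℝ) ^ (n + 1) * ρ x) ∧
      (∀ B ∈ 𝒟, IsBCS B) ∧ (∀ B ∈ 𝒟, {D | D ∈ 𝒟 ∧ (B ∩ D).Nonempty}.Finite) ∧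
      ⋃₀ 𝒟 = s'.g '' (s'.F \ s.F) := by
    intro n s
    obtain ⟨g', F', 𝒟, h1, h2, h3, h4, h5, h6, h7, h8, h9, h10, h11, h12⟩ :=
      stage M s.g s.hg s.hgi s.F s.hFM s.hF (U n) (K n) (K' n) (hU n) (hUM n) (h n) (hh n)
        (hK n) (hKK' n) (hK' n) (hK'U n) (fun x => (1/2 : ℝ) ^ (n + 1) * ρ x)
        (continuous_const.mul hρc) (fun x hx => mul_pos (by positivity) (hρM x hx))
    exact ⟨⟨g', F', h1, h2, h4, h5⟩, 𝒟, h3, h6, h7, h8, h9, h10, h11, h12⟩
  choose nx 𝒟f hnx using hstep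
  let s0 : St X M := ⟨g0, ∅, hg0, hgi0, empty_subset _, by simpa using hM⟩
  let S : ℕ → St X M := fun n => Nat.rec s0 (fun n s => nx n s) n
  have hS0 : S 0 = s0 := rfl
  have hSs : ∀ n, S (n + 1) = nx n (S n) := fun n => rfl
  let 𝒟 : ℕ → Set (Set (ℕ → I)) := fun n => 𝒟f n (S n)
  have hrel : ∀ n, (S n).F ⊆ (S (n+1)).F ∧ K n ⊆ (S (n+1)).F ∧
      (∀ x ∈ (S n).F, (S (n+1)).g x = (S n).g x) ∧ (∀ x, x ∉ M → (S (n+1)).g x = (S n).g x) ∧
      (∀ x ∈ M, dist (qe ((S (n+1)).g x)) (qe ((S n).g x)) ≤ (1/2 : ℝ) ^ (n + 1) * ρ x) ∧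
      (∀ B ∈ 𝒟 n, IsBCS B) ∧ (∀ B ∈ 𝒟 n, {D | D ∈ 𝒟 n ∧ (B ∩ D).Nonempty}.Finite) ∧
      ⋃₀ 𝒟 n = (S (n+1)).g '' ((S (n+1)).F \ (S n).F) := fun n => hnx n (S n)
  have hmono : ∀ m n, m ≤ n → (S m).F ⊆ (S n).F := by
    intro m n hmn
    induction n, hmn using Nat.le_induction with
    | base => exact Subset.refl _
    | succ n _ ih => exact ih.trans (hrel n).1
  have hstab : ∀ m n, m ≤ n → ∀ x ∈ (S m).F, (S n).g x = (S m).g x := by
    intro m n hmn
    induction n, hmn using Nat.le_induction with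
    | base => exact fun _ _ => rfl
    | succ n hn ih => exact fun x hx => ((hrel n).2.2.1 x (hmono m n hn hx)).trans (ih x hx)
  have hoff : ∀ n x, x ∉ M → (S n).g x = g0 x := by
    intro n x hx
    induction n with
    | zero => rfl
    | succ n ih => exact ((hrel n).2.2.2.1 x hx).trans ih
  have hdist : ∀ n, ∀ x ∈ M, dist (qe ((S n).g x)) (qe (g0 x)) ≤ (1 - (1/2 : ℝ) ^ n) * ρ x := by
    intro n x hx
    induction n with
    | zero =>
      have : (S 0).g x = g0 x := rfl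
      rw [this, dist_self]; simp
    | succ n ih =>
      have h1 := (hrel n).2.2.2.2.1 x hx
      have h2 := dist_triangle (qe ((S (n+1)).g x)) (qe ((S n).g x)) (qe (g0 x))
      have h3 : (1 - (1/2 : ℝ) ^ (n+1)) * ρ x =
          (1/2 : ℝ) ^ (n + 1) * ρ x + (1 - (1/2 : ℝ) ^ n) * ρ x := by
        rw [pow_succ]; ring
      linarith
  have hρ0 : ∀ x, 0 ≤ ρ x := fun x => by
    by_cases hx : x ∈ M
    · exact (hρM x hx).le
    · exact (hρn x hx).ge
  have hcovF : ∀ x ∈ M, ∃ n, x ∈ (S n).F := by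
    intro x hx
    obtain ⟨n, hn⟩ := hcov x hx
    exact ⟨n + 1, (hrel n).2.1 (interior_subset hn)⟩
  let f : X → ℕ → I := fun x => if hx : ∃ n, x ∈ (S n).F then (S (Nat.find hx)).g x else g0 x
  have hfF : ∀ n, ∀ x ∈ (S n).F, f x = (S n).g x := by
    intro n x hx
    have hex : ∃ n, x ∈ (S n).F := ⟨n, hx⟩
    simp only [f]
    rw [dif_pos hex]
    exact (hstab _ n (Nat.find_min' hex hx) x (Nat.find_spec hex)).symm
  have hfn : ∀ x, x ∉ M → f x = g0 x := by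
    intro x hx
    simp only [f]
    rw [dif_neg]
    rintro ⟨n, hn⟩
    exact hx ((S n).hFM hn)
  have hfd : ∀ x, dist (qe (f x)) (qe (g0 x)) ≤ ρ x := by
    intro x
    by_cases hx : x ∈ M
    · obtain ⟨n, hn⟩ := hcovF x hx
      rw [hfF n x hn]
      refine (hdist n x hx).trans ?_
      have h1 : (0:ℝ) ≤ (1/2 : ℝ) ^ n := by positivity
      nlinarith [hρ0 x]
    · rw [hfn x hx, dist_self]; exact hρ0 x
  have hfi : Function.Injective f := by
    have key : ∀ x, ∃ m, ∀ n, m ≤ n → f x = (S n).g x := by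
      intro x
      by_cases hx : x ∈ M
      · obtain ⟨m, hm⟩ := hcovF x hx
        exact ⟨m, fun n hn => hfF n x (hmono m n hn hm)⟩
      · exact ⟨0, fun n _ => (hfn x hx).trans (hoff n x hx).symm⟩
    intro x y hxy
    obtain ⟨m1, h1⟩ := key x
    obtain ⟨m2, h2⟩ := key y
    rw [h1 (max m1 m2) (le_max_left _ _), h2 (max m1 m2) (le_max_right _ _)] at hxy
    exact (S (max m1 m2)).hgi hxy
  have hfc : Continuous f := by
    rw [continuous_iff_continuousAt]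
    intro x
    by_cases hx : x ∈ M
    · obtain ⟨n, hn⟩ := hcov x hx
      have h1 : (S (n+1)).F ∈ 𝓝 x :=
        mem_of_superset (mem_interior_iff_mem_nhds.mp hn) (hrel n).2.1
      refine ((S (n+1)).hg.continuousAt).congr ?_
      filter_upwards [h1] with a ha
      exact (hfF (n+1) a ha).symm
    · rw [qe_embedding.isInducing.continuousAt_iff, ContinuousAt, tendsto_iff_dist_tendsto_zero]
      have hGc : Continuous fun a => qe (g0 a) := continuous_qe.comp hg0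
      have h1 : Tendsto (fun a => ρ a + dist (qe (g0 a)) (qe (g0 x))) (𝓝 x) (𝓝 0) := by
        have : Tendsto (fun a => ρ a + dist (qe (g0 a)) (qe (g0 x))) (𝓝 x)
            (𝓝 (ρ x + dist (qe (g0 x)) (qe (g0 x)))) :=
          (hρc.add (hGc.dist continuous_const)).tendsto x
        rw [hρn x hx] at this
        simpa using this
      refine squeeze_zero (fun a => dist_nonneg) (fun a => ?_) h1
      simp only [Function.comp]
      rw [hfn x hx]
      exact (dist_triangle _ (qe (g0 a)) _).trans (add_le_add (hfd a) le_rfl)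
  have hpiece : ∀ n, ⋃₀ 𝒟 n = f '' ((S (n+1)).F \ (S n).F) := by
    intro n
    rw [(hrel n).2.2.2.2.2.2.2]
    refine image_congr fun x hx => (hfF (n+1) x hx.1).symm
  refine ⟨f, hfc, hfi, ⋃ n, 𝒟 n, ?_, ?_, ?_⟩
  · intro B hB
    obtain ⟨n, hn⟩ := mem_iUnion.mp hB
    exact (hrel n).2.2.2.2.2.1 B hn
  · intro B hB
    obtain ⟨n, hn⟩ := mem_iUnion.mp hB
    refine ((hrel n).2.2.2.2.2.2.1 B hn).subset ?_
    rintro D ⟨hD, z, hzB, hzD⟩
    obtain ⟨m, hm⟩ := mem_iUnion.mp hD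
    have h1 : z ∈ f '' ((S (n+1)).F \ (S n).F) := by
      rw [← hpiece]; exact ⟨B, hn, hzB⟩
    have h2 : z ∈ f '' ((S (m+1)).F \ (S m).F) := by
      rw [← hpiece]; exact ⟨D, hm, hzD⟩
    obtain ⟨a, ha, rfl⟩ := h1
    obtain ⟨b, hb, hab⟩ := h2
    rw [hfi hab] at hb
    have hnm : n = m := by
      rcases lt_trichotomy n m with h | h | h
      · exact absurd (hmono (n+1) m h ha.1) hb.2
      · exact h
      · exact absurd (hmono (m+1) n h hb.1) ha.2
    subst hnm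
    exact ⟨hm, f a, hzB, hzD⟩
  · rw [sUnion_iUnion]
    ext z
    simp only [mem_iUnion]
    constructor
    · rintro ⟨x, hx, rfl⟩
      have hex := hcovF x hx
      have h1 := Nat.find_spec hex
      cases hn : Nat.find hex with
      | zero =>
        rw [hn] at h1
        exact absurd h1 (notMem_empty x)
      | succ n =>
        refine ⟨n, ?_⟩
        rw [hpiece]
        rw [hn] at h1
        refine ⟨x, ⟨h1, fun h2 => ?_⟩, rfl⟩
        have := Nat.find_min' hex h2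
        omega
    · rintro ⟨n, hz⟩
      rw [hpiece] at hz
      obtain ⟨x, hx, rfl⟩ := hz
      exact ⟨x, (S (n+1)).hFM hx.1, rfl⟩

/-- **The embedding theorem.** -/
theorem main_theorem (M : Type) [TopologicalSpace M] [TopologicalSpace.SeparableSpace M]
    [TopologicalSpace.MetrizableSpace M]
    (hM : ∀ x : M, ∃ U : Set M, IsOpen U ∧ x ∈ U ∧
      ∃ V : Set (ℕ → Set.Icc (0:ℝ) 1), IsOpen V ∧ Nonempty (U ≃ₜ V)) :
    ∃ f : M → (ℕ → Set.Icc (0:ℝ) 1), Topology.IsEmbedding f ∧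
      ∃ 𝒞 : Set (Set (ℕ → Set.Icc (0:ℝ) 1)), (∀ B ∈ 𝒞, IsBCS B) ∧
        (∀ B ∈ 𝒞, {D | D ∈ 𝒞 ∧ (B ∩ D).Nonempty}.Finite) ∧ Set.range f = ⋃₀ 𝒞 := by
  classical
  letI : MetricSpace M := TopologicalSpace.metrizableSpaceMetric M
  have hsc : SecondCountableTopology M := UniformSpace.secondCountable_of_separable M
  obtain ⟨j, hj⟩ := Metric.PiNatEmbed.exists_embedding_to_hilbert_cube (X := M)
  -- local compactness
  have hch : ∀ x : M, ∃ U : Set M, IsOpen U ∧ x ∈ U ∧ ∃ h : U → (ℕ → I), IsOpenEmbedding h := by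
    intro x
    obtain ⟨U, hU, hxU, V, hV, ⟨e⟩⟩ := hM x
    exact ⟨U, hU, hxU, fun a => (e a : ℕ → I),
      hV.isOpenEmbedding_subtypeVal.comp e.isOpenEmbedding⟩
  have hlc : WeaklyLocallyCompactSpace M := by
    refine ⟨fun x => ?_⟩
    obtain ⟨U, hU, hxU, h, hh⟩ := hch x
    have : LocallyCompactSpace U := hh.locallyCompactSpace
    obtain ⟨N, hN, hxN⟩ := exists_compact_mem_nhds (⟨x, hxU⟩ : U)
    refine ⟨Subtype.val '' N, hN.image continuous_subtype_val, ?_⟩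
    exact hU.isOpenEmbedding_subtypeVal.isOpenMap.image_mem_nhds hxN
  have hlc2 : LocallyCompactSpace M := inferInstance
  rcases isEmpty_or_nonempty M with hE | hne
  · refine ⟨j, hj, ∅, by simp, by simp, ?_⟩
    rw [sUnion_empty, range_eq_empty]
  -- the compactification
  let X : Type := closure (range j)
  have hXc : CompactSpace X := isCompact_iff_compactSpace.mp isClosed_closure.isCompact
  let ι : M → X := fun x => ⟨j x, subset_closure ⟨x, rfl⟩⟩
  have hιe : IsEmbedding ι := IsEmbedding.of_comp (hj.continuous.subtype_mk _)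
    continuous_subtype_val hj
  have hιr : IsOpen (range ι) := by
    rw [isOpen_iff_mem_nhds]
    rintro _ ⟨x, rfl⟩
    obtain ⟨N, hN, hxN⟩ := exists_compact_mem_nhds x
    obtain ⟨V, hV, hVN⟩ := (hj.isInducing.nhds_eq_comap x ▸ hxN : N ∈ comap j (𝓝 (j x)))
    obtain ⟨V', hV'V, hV', hxV'⟩ := mem_nhds_iff.mp hV
    refine mem_of_superset ((hV'.preimage continuous_subtype_val).mem_nhds
      (show (ι x) ∈ Subtype.val ⁻¹' V' from hxV')) ?_
    rintro ⟨z, hz⟩ hzV'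
    have h1 : z ∈ closure (V' ∩ range j) := by
      rw [mem_closure_iff]
      intro o ho hzo
      obtain ⟨w, hw1, hw2⟩ := mem_closure_iff.mp hz (o ∩ V') (ho.inter hV') ⟨hzo, hzV'⟩
      exact ⟨w, hw1.1, hw1.2, hw2⟩
    have h2 : V' ∩ range j ⊆ j '' N := by
      rintro _ ⟨hw, a, rfl⟩
      exact ⟨a, hVN (hV'V hw), rfl⟩
    have h3 : IsClosed (j '' N) := (hN.image hj.continuous).isClosed
    obtain ⟨a, -, ha⟩ := closure_minimal h2 h3 h1
    exact ⟨a, Subtype.ext ha⟩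
  have hιo : IsOpenEmbedding ι := ⟨hιe, hιr⟩
  -- the countable atlas
  choose U hU hxU h hh using hch
  have hK' : ∀ x, ∃ K', IsCompact K' ∧ x ∈ interior K' ∧ K' ⊆ U x := fun x =>
    exists_compact_subset (hU x) (hxU x)
  choose K' hK'c hxK' hK'U using hK'
  have hK : ∀ x, ∃ K, IsCompact K ∧ x ∈ interior K ∧ K ⊆ interior (K' x) := fun x =>
    exists_compact_subset isOpen_interior (hxK' x)
  choose K hKc hxK hKK' using hK
  obtain ⟨s, hs, hsU⟩ := TopologicalSpace.countable_cover_nhds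
    (f := fun x => interior (K x)) (fun x => isOpen_interior.mem_nhds (hxK x))
  have hsne : s.Nonempty := by
    obtain ⟨x⟩ := hne
    obtain ⟨y, hy, -⟩ := mem_iUnion₂.mp (hsU.symm ▸ mem_univ x : x ∈ ⋃ x ∈ s, interior (K x))
    exact ⟨y, hy⟩
  obtain ⟨φ, rfl⟩ := hs.exists_eq_range hsne
  have hint : ∀ A : Set M, ι '' interior A ⊆ interior (ι '' A) := fun A =>
    interior_maximal (image_mono interior_subset) (hιo.isOpenMap _ isOpen_interior)
  obtain ⟨f, hf, hfi, 𝒞, h1, h2, h3⟩ := main_compact (X := X) (fun x => x.1)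
    continuous_subtype_val Subtype.val_injective (range ι) hιr (fun n => ι '' U (φ n))
    (fun n => ι '' K (φ n)) (fun n => ι '' K' (φ n)) (fun n => hιo.isOpenMap _ (hU _))
    (fun n => image_subset_range _ _)
    (fun n => ⟨h (φ n) ∘ (hιe.homeomorphImage (U (φ n))).symm,
      (hh (φ n)).comp (Homeomorph.isOpenEmbedding _)⟩)
    (fun n => ((hKc _).image hιe.continuous).isClosed)
    (fun n => (image_mono (hKK' _)).trans (hint _))
    (fun n => (hK'c _).image hιe.continuous)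
    (fun n => image_mono (hK'U _))
    (by
      rintro _ ⟨x, rfl⟩
      obtain ⟨y, ⟨n, rfl⟩, hy⟩ := mem_iUnion₂.mp
        (hsU.symm ▸ mem_univ x : x ∈ ⋃ x ∈ range φ, interior (K x))
      exact ⟨n, hint _ ⟨x, hy, rfl⟩⟩)
  refine ⟨f ∘ ι, (hf.isClosedEmbedding hfi).isEmbedding.comp hιe, 𝒞, h1, h2, ?_⟩
  rw [range_comp, h3]

end

end Pool.Agent.H236_QM.G2
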